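import Pool.Agent.H29.CovInertia

/-!
# Asymptotics of the signature bound
-/

open Finset Filter ComplexConjugate Topology

namespace Pool.Agent.H29

variable {s : ℕ} [NeZero s]

lemma norm_stdAddChar (c : ZMod s) : ‖(ZMod.stdAddChar c : ℂ)‖ = 1 := by
  rw [ZMod.stdAddChar_apply]
  exact Circle.norm_coe _

lemma norm_one_add_lt {z : ℂ} (hz : ‖z‖ = 1) (h1 : z ≠ 1) : ‖1 + z‖ < 2 := by
  have h2 : z.re ^ 2 + z.im ^ 2 = 1 := by
    have := Complex.sq_norm z
    rw [hz, Complex.normSq_apply] at this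
    nlinarith
  have h3 : z.re < 1 := by
    by_contra hge
    push Not at hge
    have h4 : z.re = 1 := by nlinarith [sq_nonneg z.im]
    have h5 : z.im = 0 := by
      have : z.im ^ 2 = 0 := by rw [h4] at h2; linarith
      exact pow_eq_zero_iff (two_ne_zero) |>.mp this
    exact h1 (Complex.ext (by simpa using h4) (by simpa using h5))
  have h6 : ‖1 + z‖ ^ 2 = 2 + 2 * z.re := by
    rw [Complex.sq_norm, Complex.normSq_apply]
    simp only [Complex.add_re, Complex.one_re, Complex.add_im, Complex.one_im, zero_add]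
    nlinarith
  nlinarith [norm_nonneg (1 + z)]

lemma stdAddChar_ne_one {c : ZMod s} (hc : c ≠ 0) : (ZMod.stdAddChar c : ℂ) ≠ 1 := by
  intro h
  apply hc
  apply ZMod.injective_stdAddChar (N := s)
  rw [h, AddChar.map_zero_eq_one]

lemma stdAddChar_ne_neg_one (hs : Odd s) (c : ZMod s) : (ZMod.stdAddChar c : ℂ) ≠ -1 := by
  intro h
  have h1 : (ZMod.stdAddChar c : ℂ) ^ s = 1 := by
    rw [← AddChar.map_nsmul_eq_pow, nsmul_eq_mul, ZMod.natCast_self, zero_mul,
      AddChar.map_zero_eq_one]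
  rw [h, hs.neg_one_pow] at h1
  norm_num at h1

lemma tendsto_pow_div {w : ℂ} (hw : ‖w‖ < 2) :
    Tendsto (fun q : ℕ => w ^ q / 2 ^ q) atTop (𝓝 0) := by
  have h1 : ‖w / 2‖ < 1 := by
    rw [norm_div, Complex.norm_ofNat]
    linarith
  have h2 := tendsto_pow_atTop_nhds_zero_of_norm_lt_one h1
  simpa [div_pow] using h2

lemma tendsto_add (r : ZMod s) :
    Tendsto (fun q : ℕ => ((nEven s q r : ℂ) + nOdd s q r) / 2 ^ q) atTop (𝓝 (1 / s)) := by
  have hs : (s : ℂ) ≠ 0 := by exact_mod_cast NeZero.ne s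
  have h1 : ∀ q : ℕ, ((nEven s q r : ℂ) + nOdd s q r) / 2 ^ q =
      (1 / s) * ∑ c : ZMod s, ZMod.stdAddChar (-(c * r)) *
        ((1 + ZMod.stdAddChar c) ^ q / 2 ^ q) := by
    intro q
    have h2 := class_sum_eq (s := s) (q := q) r 1
    rw [← nEven_add_nOdd] at h2
    simp only [one_mul] at h2
    rw [eq_comm, ← mul_right_inj' hs, ← mul_assoc, mul_one_div_cancel hs, one_mul, ← mul_div_assoc,
      h2, sum_div]
    refine sum_congr rfl fun c _ => by ring
  simp_rw [h1]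
  have h3 : Tendsto (fun q : ℕ => ∑ c : ZMod s, ZMod.stdAddChar (-(c * r)) *
        ((1 + ZMod.stdAddChar c) ^ q / 2 ^ q)) atTop
      (𝓝 (∑ c : ZMod s, if c = 0 then (1 : ℂ) else 0)) := by
    refine tendsto_finsetSum _ fun c _ => ?_
    by_cases hc : c = 0
    · subst hc
      rw [if_pos rfl]
      refine tendsto_const_nhds.congr fun q => ?_
      simp only [zero_mul, neg_zero, AddChar.map_zero_eq_one, one_mul]
      rw [one_add_one_eq_two, div_self (pow_ne_zero q two_ne_zero)]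
    · rw [if_neg hc]
      have h4 := (tendsto_pow_div (norm_one_add_lt (norm_stdAddChar c)
        (stdAddChar_ne_one hc))).const_mul (ZMod.stdAddChar (-(c * r)) : ℂ)
      simpa using h4
  have h5 := h3.const_mul (1 / (s : ℂ))
  simpa using h5

lemma tendsto_sub (hs : Odd s) (r : ZMod s) :
    Tendsto (fun q : ℕ => ((nEven s q r : ℂ) - nOdd s q r) / 2 ^ q) atTop (𝓝 0) := by
  have hs0 : (s : ℂ) ≠ 0 := by exact_mod_cast NeZero.ne s
  have h1 : ∀ q : ℕ, ((nEven s q r : ℂ) - nOdd s q r) / 2 ^ q =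
      (1 / s) * ∑ c : ZMod s, ZMod.stdAddChar (-(c * r)) *
        ((1 + (-1) * ZMod.stdAddChar c) ^ q / 2 ^ q) := by
    intro q
    have h2 := class_sum_eq (s := s) (q := q) r (-1)
    rw [← nEven_sub_nOdd] at h2
    rw [eq_comm, ← mul_right_inj' hs0, ← mul_assoc, mul_one_div_cancel hs0, one_mul,
      ← mul_div_assoc, h2, sum_div]
    refine sum_congr rfl fun c _ => by ring
  simp_rw [h1]
  have h3 : Tendsto (fun q : ℕ => ∑ c : ZMod s, ZMod.stdAddChar (-(c * r)) *
        ((1 + (-1) * ZMod.stdAddChar c) ^ q / 2 ^ q)) atTop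
      (𝓝 (∑ c : ZMod s, (0 : ℂ))) := by
    refine tendsto_finsetSum _ fun c _ => ?_
    have h5 : ‖(-1 : ℂ) * ZMod.stdAddChar c‖ = 1 := by
      rw [norm_mul, norm_neg, norm_one, one_mul, norm_stdAddChar]
    have h6 : (-1 : ℂ) * ZMod.stdAddChar c ≠ 1 := by
      intro h
      apply stdAddChar_ne_neg_one hs c
      linear_combination -h
    have h4 := (tendsto_pow_div (norm_one_add_lt h5 h6)).const_mul
      (ZMod.stdAddChar (-(c * r)) : ℂ)
    simpa using h4
  have h5 := h3.const_mul (1 / (s : ℂ))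
  simpa using h5

/-- Real version of the two limits. -/
lemma tendsto_add_real (r : ZMod s) :
    Tendsto (fun q : ℕ => ((nEven s q r : ℝ) + nOdd s q r) / 2 ^ q) atTop (𝓝 (1 / s)) := by
  have h := (Complex.continuous_re.tendsto _).comp (tendsto_add (s := s) r)
  have e1 : (1 / (s : ℂ)).re = 1 / (s : ℝ) := by
    have : (1 / (s : ℂ)) = ((1 / (s : ℝ) : ℝ) : ℂ) := by push_cast; rfl
    rw [this, Complex.ofReal_re]
  rw [e1] at h
  refine h.congr fun q => ?_
  have : ((nEven s q r : ℂ) + nOdd s q r) / 2 ^ q =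
      ((((nEven s q r : ℝ) + nOdd s q r) / 2 ^ q : ℝ) : ℂ) := by push_cast; rfl
  simp only [Function.comp_apply]
  rw [this, Complex.ofReal_re]

lemma tendsto_sub_real (hs : Odd s) (r : ZMod s) :
    Tendsto (fun q : ℕ => ((nEven s q r : ℝ) - nOdd s q r) / 2 ^ q) atTop (𝓝 0) := by
  have h := (Complex.continuous_re.tendsto _).comp (tendsto_sub (s := s) hs r)
  rw [Complex.zero_re] at h
  refine h.congr fun q => ?_
  have : ((nEven s q r : ℂ) - nOdd s q r) / 2 ^ q =
      ((((nEven s q r : ℝ) - nOdd s q r) / 2 ^ q : ℝ) : ℂ) := by push_cast; rfl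
  simp only [Function.comp_apply]
  rw [this, Complex.ofReal_re]

/-- Both class sizes are asymptotically at most `2^q / lcm(2, s)`. -/
lemma eventually_class_le (r : ZMod s) {ε : ℝ} (hε : 0 < ε) :
    ∀ᶠ q : ℕ in atTop, (nEven s q r : ℝ) ≤ (1 / (Nat.lcm 2 s : ℝ) + ε) * 2 ^ q ∧
      (nOdd s q r : ℝ) ≤ (1 / (Nat.lcm 2 s : ℝ) + ε) * 2 ^ q := by
  have h1 : ∀ᶠ q : ℕ in atTop, ((nEven s q r : ℝ) + nOdd s q r) / 2 ^ q < 1 / s + ε :=
    (tendsto_add_real r).eventually (gt_mem_nhds (by linarith))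
  rcases Nat.even_or_odd s with he | ho
  · have hl : Nat.lcm 2 s = s := Nat.lcm_eq_right he.two_dvd
    rw [hl]
    filter_upwards [h1] with q hq
    rw [div_lt_iff₀ (by positivity)] at hq
    have e1 : (0 : ℝ) ≤ nEven s q r := Nat.cast_nonneg _
    have e2 : (0 : ℝ) ≤ nOdd s q r := Nat.cast_nonneg _
    constructor <;> linarith
  · have hl : Nat.lcm 2 s = 2 * s := (Nat.coprime_two_left.mpr ho).lcm_eq_mul
    rw [hl]
    have h2 : ∀ᶠ q : ℕ in atTop, ((nEven s q r : ℝ) - nOdd s q r) / 2 ^ q < ε :=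
      (tendsto_sub_real ho r).eventually (gt_mem_nhds hε)
    have h3 : ∀ᶠ q : ℕ in atTop, -ε < ((nEven s q r : ℝ) - nOdd s q r) / 2 ^ q :=
      (tendsto_sub_real ho r).eventually (lt_mem_nhds (by linarith))
    filter_upwards [h1, h2, h3] with q hq1 hq2 hq3
    rw [div_lt_iff₀ (by positivity)] at hq1 hq2
    rw [lt_div_iff₀ (by positivity)] at hq3
    have hs : (0 : ℝ) < s := by exact_mod_cast NeZero.pos s
    have e3 : (1 : ℝ) / ((2 * s : ℕ) : ℝ) = (1 / s) / 2 := by push_cast; field_simp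
    rw [e3]
    constructor <;> nlinarith

/-- For `q ≥ 1` and `s ≥ 2` some class has different numbers of even and odd subsets. -/
lemma exists_ne (hs : 2 ≤ s) (q : ℕ) : ∃ r : ZMod s, nEven s q r ≠ nOdd s q r := by
  by_contra! hcon
  have h1 : ∑ S : Finset (Fin q), (-1 : ℂ) ^ S.card * ZMod.stdAddChar ((S.card : ℕ) : ZMod s) =
      (1 - ZMod.stdAddChar (1 : ZMod s)) ^ q := by
    have h2 := sum_subsets_eq_prod (q := q) (fun _ => -(ZMod.stdAddChar (1 : ZMod s) : ℂ))
    rw [prod_const, card_univ, Fintype.card_fin, ← sub_eq_add_neg] at h2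
    rw [← h2]
    refine sum_congr rfl fun S _ => ?_
    rw [prod_const, neg_pow (ZMod.stdAddChar (1 : ZMod s) : ℂ), ← AddChar.map_nsmul_eq_pow,
      nsmul_eq_mul, mul_one]
  have h3 : ∑ S : Finset (Fin q), (-1 : ℂ) ^ S.card * ZMod.stdAddChar ((S.card : ℕ) : ZMod s) =
      0 := by
    rw [← sum_fiberwise (univ : Finset (Finset (Fin q)))
      (fun S : Finset (Fin q) => ((S.card : ℕ) : ZMod s))]
    refine sum_eq_zero fun r _ => ?_
    have h4 : ∑ S : Finset (Fin q) with ((S.card : ℕ) : ZMod s) = r,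
        (-1 : ℂ) ^ S.card * ZMod.stdAddChar ((S.card : ℕ) : ZMod s) =
        (∑ S : Finset (Fin q) with ((S.card : ℕ) : ZMod s) = r, (-1 : ℂ) ^ S.card) *
          ZMod.stdAddChar r := by
      rw [sum_mul]
      refine sum_congr rfl fun S hS => ?_
      rw [mem_filter] at hS
      rw [hS.2]
    rw [h4, ← nEven_sub_nOdd, hcon r, sub_self, zero_mul]
  rw [h3] at h1
  have : Fact (1 < s) := ⟨by omega⟩
  have h5 := pow_ne_zero q (sub_ne_zero.mpr (stdAddChar_ne_one (s := s) one_ne_zero).symm)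
  exact h5 h1.symm

/-- **Asymptotic bound**: `limsup R(s, q) / 2^q ≤ 1 / lcm(2, s)`. -/
theorem R_asymp (hs : 2 ≤ s) {ε : ℝ} (hε : 0 < ε) :
    ∀ᶠ q : ℕ in atTop, (R s q : ℝ) ≤ (1 / (Nat.lcm 2 s : ℝ) + ε) * 2 ^ q := by
  have h : ∀ᶠ q : ℕ in atTop, ∀ r : ZMod s,
      (nEven s q r : ℝ) ≤ (1 / (Nat.lcm 2 s : ℝ) + ε) * 2 ^ q ∧
      (nOdd s q r : ℝ) ≤ (1 / (Nat.lcm 2 s : ℝ) + ε) * 2 ^ q :=
    eventually_all.mpr fun r => eventually_class_le r hε
  filter_upwards [h] with q hq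
  obtain ⟨r, hr⟩ := exists_ne hs q
  obtain ⟨F, hF, hcard⟩ := exists_card_eq_R s q
  rw [← hcard]
  rcases lt_or_gt_of_ne hr with hlt | hgt
  · exact le_trans (by exact_mod_cast card_le_nOdd hF r hlt) (hq r).2
  · exact le_trans (by exact_mod_cast card_le_nEven hF r hgt) (hq r).1

end Pool.Agent.H29
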