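import Mathlib

/-!
# Covering families in `(ℤ/s)^q`
-/

open Finset

namespace Pool.Agent.H29

/-- A finite family `F` of vectors in `(ℤ/s)^q` is covering if for any two distinct members `v, w`
the difference `v - w` takes every value of `ℤ/s` in some coordinate. -/
def IsCovering (s q : ℕ) (F : Finset (Fin q → ZMod s)) : Prop :=
  ∀ v ∈ F, ∀ w ∈ F, v ≠ w → ∀ c : ZMod s, ∃ i, v i - w i = c

/-- `R s q` is the largest size of a covering family in `(ℤ/s)^q`. -/
noncomputable def R (s q : ℕ) : ℕ :=
  sSup {n : ℕ | ∃ F : Finset (Fin q → ZMod s), IsCovering s q F ∧ F.card = n}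

/-- A bound for all covering families is a bound for `R s q`. -/
lemma R_le_of_forall {s q N : ℕ}
    (h : ∀ F : Finset (Fin q → ZMod s), IsCovering s q F → F.card ≤ N) : R s q ≤ N := by
  apply csSup_le
  · exact ⟨0, ∅, by intro v hv; simp at hv, rfl⟩
  · rintro n ⟨F, hF, rfl⟩
    exact h F hF

/-- The set in the definition of `R` is bounded above. -/
lemma bddAbove_sizes (s q : ℕ) [NeZero s] :
    BddAbove {n : ℕ | ∃ F : Finset (Fin q → ZMod s), IsCovering s q F ∧ F.card = n} := by
  refine ⟨Fintype.card (Fin q → ZMod s), ?_⟩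
  rintro n ⟨F, -, rfl⟩
  exact card_le_univ F

/-- Every covering family has at most `R s q` members. -/
lemma card_le_R {s q : ℕ} [NeZero s] {F : Finset (Fin q → ZMod s)} (hF : IsCovering s q F) :
    F.card ≤ R s q :=
  le_csSup (bddAbove_sizes s q) ⟨F, hF, rfl⟩

/-- The supremum in the definition of `R s q` is attained. -/
lemma exists_card_eq_R (s q : ℕ) [NeZero s] :
    ∃ F : Finset (Fin q → ZMod s), IsCovering s q F ∧ F.card = R s q := by
  have hne : {n : ℕ | ∃ F : Finset (Fin q → ZMod s), IsCovering s q F ∧ F.card = n}.Nonempty :=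
    ⟨0, ∅, by intro v hv; simp at hv, rfl⟩
  exact Nat.sSup_mem hne (bddAbove_sizes s q)

end Pool.Agent.H29
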