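import Pool.Agent.H29.CovDefs

/-!
# Signature bound for covering families in `(ℤ/s)^q`
-/

open Finset Filter ComplexConjugate

namespace Pool.Agent.H29

/-- Signature bound: if vectors `X i` are orthogonal with respect to a diagonal Hermitian form with
`|Sp|` plus signs and `|Sn|` minus signs and have a common positive norm, then there are at most
`|Sp|` of them. -/
lemma card_le_of_signature {ι κ : Type*} [Fintype ι] [DecidableEq ι] (X : ι → κ → ℂ)
    (Sp Sn : Finset κ) (B : ℝ) (hB : 0 < B)
    (h : ∀ i j, ∑ k ∈ Sp, X i k * conj (X j k) - ∑ k ∈ Sn, X i k * conj (X j k) =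
      if i = j then (B : ℂ) else 0) : Fintype.card ι ≤ Sp.card := by
  classical
  have hli : LinearIndependent ℂ (fun i => fun k : Sp => X i k) := by
    rw [Fintype.linearIndependent_iff]
    intro c hc
    have hc' : ∀ k ∈ Sp, ∑ i, c i * X i k = 0 := by
      intro k hk
      have := congrFun hc ⟨k, hk⟩
      simpa [Finset.sum_apply] using this
    -- the value of the form on the combination
    have hexp : ∀ S : Finset κ, ∑ i, ∑ j, c i * conj (c j) * ∑ k ∈ S, X i k * conj (X j k) =
        ((∑ k ∈ S, Complex.normSq (∑ i, c i * X i k) : ℝ) : ℂ) := by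
      intro S
      push_cast
      have h1 : ∀ k, ((Complex.normSq (∑ i, c i * X i k) : ℝ) : ℂ) =
          ∑ i, ∑ j, c i * conj (c j) * (X i k * conj (X j k)) := by
        intro k
        rw [← Complex.mul_conj, map_sum, sum_mul_sum]
        refine sum_congr rfl fun i _ => sum_congr rfl fun j _ => ?_
        rw [map_mul]; ring
      simp_rw [h1, mul_sum]
      rw [sum_comm (s := S)]
      refine sum_congr rfl fun i _ => ?_
      rw [sum_comm]
    have hform : ∑ i, ∑ j, c i * conj (c j) *
        (∑ k ∈ Sp, X i k * conj (X j k) - ∑ k ∈ Sn, X i k * conj (X j k)) =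
        ((B * ∑ i, Complex.normSq (c i) : ℝ) : ℂ) := by
      simp_rw [h]
      have h2 : ∀ i, ∑ j, c i * conj (c j) * (if i = j then (B : ℂ) else 0) =
          ((B * Complex.normSq (c i) : ℝ) : ℂ) := by
        intro i
        simp only [mul_ite, mul_zero, sum_ite_eq, mem_univ, if_true]
        rw [Complex.mul_conj]
        push_cast
        ring
      simp_rw [h2]
      push_cast
      rw [mul_sum]
    have hform2 : ∑ i, ∑ j, c i * conj (c j) *
        (∑ k ∈ Sp, X i k * conj (X j k) - ∑ k ∈ Sn, X i k * conj (X j k)) =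
        ((0 - ∑ k ∈ Sn, Complex.normSq (∑ i, c i * X i k) : ℝ) : ℂ) := by
      simp_rw [mul_sub, sum_sub_distrib]
      rw [hexp Sp, hexp Sn]
      have h3 : ∑ k ∈ Sp, Complex.normSq (∑ i, c i * X i k) = 0 :=
        sum_eq_zero fun k hk => by rw [hc' k hk, map_zero]
      rw [h3]
      push_cast
      ring
    have heq : B * ∑ i, Complex.normSq (c i) =
        0 - ∑ k ∈ Sn, Complex.normSq (∑ i, c i * X i k) := by
      exact_mod_cast hform.symm.trans hform2
    have hnn : 0 ≤ ∑ k ∈ Sn, Complex.normSq (∑ i, c i * X i k) :=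
      sum_nonneg fun _ _ => Complex.normSq_nonneg _
    have hle : ∑ i, Complex.normSq (c i) ≤ 0 := by
      by_contra hpos
      push Not at hpos
      have := mul_pos hB hpos
      linarith
    have hz := (sum_eq_zero_iff_of_nonneg (fun i _ => Complex.normSq_nonneg (c i))).mp
      (le_antisymm hle (sum_nonneg fun i _ => Complex.normSq_nonneg (c i)))
    intro i
    exact Complex.normSq_eq_zero.mp (hz i (mem_univ i))
  have := hli.fintype_card_le_finrank
  simpa using this

variable {s : ℕ} [NeZero s] {q : ℕ}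

/-- Generating function of the subsets of `Fin q`. -/
lemma sum_subsets_eq_prod (f : Fin q → ℂ) :
    ∑ S : Finset (Fin q), ∏ i ∈ S, f i = ∏ i, (1 + f i) := by
  rw [Finset.prod_one_add, Finset.powerset_univ]

lemma addChar_sum {ι : Type*} (S : Finset ι) (g : ι → ZMod s) :
    ZMod.stdAddChar (∑ i ∈ S, g i) = ∏ i ∈ S, ZMod.stdAddChar (N := s) (g i) := by
  classical
  induction S using Finset.induction_on with
  | empty => simp
  | insert a S ha ih => rw [sum_insert ha, prod_insert ha, AddChar.map_add_eq_mul, ih]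

/-- Filtering subsets by cardinality mod `s` with additive characters. -/
lemma sum_class (g : Fin q → ZMod s) (ε : ℂ) (r : ZMod s) :
    (s : ℂ) * ∑ S : Finset (Fin q) with ((S.card : ℕ) : ZMod s) = r,
      ε ^ S.card * ZMod.stdAddChar (∑ i ∈ S, g i) =
    ∑ c : ZMod s, ZMod.stdAddChar (-(c * r)) * ∏ i, (1 + ε * ZMod.stdAddChar (c + g i)) := by
  have h1 : ∀ c : ZMod s, ∏ i, (1 + ε * ZMod.stdAddChar (c + g i)) =
      ∑ S : Finset (Fin q), ε ^ S.card * (ZMod.stdAddChar (c * (S.card : ZMod s)) *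
        ZMod.stdAddChar (∑ i ∈ S, g i)) := by
    intro c
    rw [← sum_subsets_eq_prod]
    refine sum_congr rfl fun S _ => ?_
    rw [prod_mul_distrib, prod_const]
    congr 1
    simp_rw [AddChar.map_add_eq_mul]
    rw [prod_mul_distrib, prod_const, ← AddChar.map_nsmul_eq_pow, ← addChar_sum,
      nsmul_eq_mul, mul_comm c]
  simp_rw [h1, mul_sum]
  rw [sum_comm]
  rw [sum_filter]
  refine sum_congr rfl fun S _ => ?_
  have h2 : ∑ c : ZMod s, ZMod.stdAddChar (-(c * r)) * (ε ^ S.card *
      (ZMod.stdAddChar (c * (S.card : ZMod s)) * ZMod.stdAddChar (∑ i ∈ S, g i))) =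
      (∑ c : ZMod s, ZMod.stdAddChar (c * ((S.card : ZMod s) - r))) *
        (ε ^ S.card * ZMod.stdAddChar (∑ i ∈ S, g i)) := by
    rw [sum_mul]
    refine sum_congr rfl fun c _ => ?_
    have : c * ((S.card : ZMod s) - r) = -(c * r) + c * (S.card : ZMod s) := by ring
    rw [this, AddChar.map_add_eq_mul]
    ring
  rw [h2, AddChar.sum_mulShift _ (ZMod.isPrimitive_stdAddChar s), ZMod.card]
  by_cases h3 : (S.card : ZMod s) = r
  · rw [if_pos h3, if_pos (sub_eq_zero.mpr h3)]
  · rw [if_neg h3, if_neg (sub_ne_zero.mpr h3)]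
    simp

/-- The alternating sums over classes of subsets vanish for vectors `u` taking all values. -/
lemma sum_class_covering (u : Fin q → ZMod s) (hu : ∀ c, ∃ i, u i = c) (r : ZMod s) :
    ∑ S : Finset (Fin q) with ((S.card : ℕ) : ZMod s) = r,
      (-1 : ℂ) ^ S.card * ZMod.stdAddChar (∑ i ∈ S, u i) = 0 := by
  have h := sum_class u (-1) r
  have h0 : ∑ c : ZMod s, ZMod.stdAddChar (-(c * r)) *
      ∏ i, (1 + (-1 : ℂ) * ZMod.stdAddChar (c + u i)) = 0 := by
    refine sum_eq_zero fun c _ => ?_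
    obtain ⟨i, hi⟩ := hu (-c)
    rw [prod_eq_zero (mem_univ i), mul_zero]
    rw [hi, add_neg_cancel, AddChar.map_zero_eq_one]
    ring
  rw [h0] at h
  have hs : (s : ℂ) ≠ 0 := by exact_mod_cast NeZero.ne s
  exact (mul_eq_zero.mp h).resolve_left hs

/-- Number of subsets of `Fin q` with an even number of elements, congruent to `r` mod `s`. -/
def nEven (s q : ℕ) (r : ZMod s) : ℕ :=
  #{S : Finset (Fin q) | ((S.card : ℕ) : ZMod s) = r ∧ Even S.card}

/-- Number of subsets of `Fin q` with an odd number of elements, congruent to `r` mod `s`. -/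
def nOdd (s q : ℕ) (r : ZMod s) : ℕ :=
  #{S : Finset (Fin q) | ((S.card : ℕ) : ZMod s) = r ∧ ¬ Even S.card}

omit [NeZero s] in
lemma sum_signed (r : ZMod s) (f : Finset (Fin q) → ℂ) :
    ∑ S : Finset (Fin q) with ((S.card : ℕ) : ZMod s) = r, (-1 : ℂ) ^ S.card * f S =
      ∑ S : Finset (Fin q) with ((S.card : ℕ) : ZMod s) = r ∧ Even S.card, f S -
      ∑ S : Finset (Fin q) with ((S.card : ℕ) : ZMod s) = r ∧ ¬ Even S.card, f S := by
  rw [← sum_filter_add_sum_filter_not _ (fun S : Finset (Fin q) => Even S.card)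
    (fun S => (-1 : ℂ) ^ S.card * f S), filter_filter, filter_filter, sub_eq_add_neg,
    ← sum_neg_distrib]
  congr 1
  · refine sum_congr rfl fun S hS => ?_
    rw [mem_filter] at hS
    rw [hS.2.2.neg_one_pow, one_mul]
  · refine sum_congr rfl fun S hS => ?_
    rw [mem_filter] at hS
    rw [(Nat.not_even_iff_odd.mp hS.2.2).neg_one_pow, neg_one_mul]

lemma form_eq {F : Finset (Fin q → ZMod s)} (hF : IsCovering s q F) (r : ZMod s) (v w : F) :
    ∑ S : Finset (Fin q) with ((S.card : ℕ) : ZMod s) = r ∧ Even S.card,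
      ZMod.stdAddChar (∑ i ∈ S, v.1 i) * conj (ZMod.stdAddChar (∑ i ∈ S, w.1 i)) -
    ∑ S : Finset (Fin q) with ((S.card : ℕ) : ZMod s) = r ∧ ¬ Even S.card,
      ZMod.stdAddChar (∑ i ∈ S, v.1 i) * conj (ZMod.stdAddChar (∑ i ∈ S, w.1 i)) =
    if v = w then ((nEven s q r : ℂ) - nOdd s q r) else 0 := by
  have h0 : ∀ S : Finset (Fin q), ZMod.stdAddChar (∑ i ∈ S, v.1 i) *
      conj (ZMod.stdAddChar (∑ i ∈ S, w.1 i)) =
      ZMod.stdAddChar (∑ i ∈ S, (v.1 i - w.1 i)) := by
    intro S
    rw [← AddChar.map_neg_eq_conj, ← AddChar.map_add_eq_mul, sum_sub_distrib, sub_eq_add_neg]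
  simp_rw [h0]
  by_cases hvw : v = w
  · subst hvw
    simp [nEven, nOdd]
  · rw [if_neg hvw, ← sum_signed]
    have hne : v.1 ≠ w.1 := fun h => hvw (Subtype.ext h)
    exact sum_class_covering (fun i => v.1 i - w.1 i) (fun c => hF v.1 v.2 w.1 w.2 hne c) r

/-- **Signature bound for covering families.** -/
theorem card_le_nEven {F : Finset (Fin q → ZMod s)} (hF : IsCovering s q F) (r : ZMod s)
    (h : nOdd s q r < nEven s q r) : F.card ≤ nEven s q r := by
  classical
  have key := card_le_of_signature (ι := F) (κ := Finset (Fin q))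
    (fun v S => ZMod.stdAddChar (∑ i ∈ S, v.1 i))
    (univ.filter fun S => ((S.card : ℕ) : ZMod s) = r ∧ Even S.card)
    (univ.filter fun S => ((S.card : ℕ) : ZMod s) = r ∧ ¬ Even S.card)
    ((nEven s q r : ℝ) - nOdd s q r) (sub_pos.mpr (by exact_mod_cast h))
    (fun v w => by rw [form_eq hF r v w]; push_cast; rfl)
  rwa [Fintype.card_coe] at key

theorem card_le_nOdd {F : Finset (Fin q → ZMod s)} (hF : IsCovering s q F) (r : ZMod s)
    (h : nEven s q r < nOdd s q r) : F.card ≤ nOdd s q r := by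
  classical
  have key := card_le_of_signature (ι := F) (κ := Finset (Fin q))
    (fun v S => ZMod.stdAddChar (∑ i ∈ S, v.1 i))
    (univ.filter fun S => ((S.card : ℕ) : ZMod s) = r ∧ ¬ Even S.card)
    (univ.filter fun S => ((S.card : ℕ) : ZMod s) = r ∧ Even S.card)
    ((nOdd s q r : ℝ) - nEven s q r) (sub_pos.mpr (by exact_mod_cast h))
    (fun v w => by
      rw [← neg_sub, form_eq hF r v w]
      by_cases hvw : v = w
      · rw [if_pos hvw, if_pos hvw]; push_cast; ring
      · rw [if_neg hvw, if_neg hvw, neg_zero])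
  rwa [Fintype.card_coe] at key

/-- The two classes counted with characters: generating function identity. -/
lemma class_sum_eq (r : ZMod s) (ε : ℂ) :
    (s : ℂ) * ∑ S : Finset (Fin q) with ((S.card : ℕ) : ZMod s) = r, ε ^ S.card =
      ∑ c : ZMod s, ZMod.stdAddChar (-(c * r)) * (1 + ε * ZMod.stdAddChar c) ^ q := by
  have h := sum_class (fun _ : Fin q => (0 : ZMod s)) ε r
  simpa using h

omit [NeZero s] in
lemma nEven_add_nOdd (r : ZMod s) :
    ((nEven s q r : ℂ) + nOdd s q r) =
      ∑ S : Finset (Fin q) with ((S.card : ℕ) : ZMod s) = r, (1 : ℂ) ^ S.card := by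
  have h := sum_filter_add_sum_filter_not (univ.filter fun S : Finset (Fin q) =>
    ((S.card : ℕ) : ZMod s) = r) (fun S : Finset (Fin q) => Even S.card) (fun _ => (1 : ℂ))
  rw [filter_filter, filter_filter] at h
  simp only [one_pow]
  rw [← h]
  simp [nEven, nOdd]

omit [NeZero s] in
lemma nEven_sub_nOdd (r : ZMod s) :
    ((nEven s q r : ℂ) - nOdd s q r) =
      ∑ S : Finset (Fin q) with ((S.card : ℕ) : ZMod s) = r, (-1 : ℂ) ^ S.card := by
  have h := sum_signed (s := s) (q := q) r (fun _ => 1)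
  simp only [mul_one] at h
  rw [h]
  simp [nEven, nOdd]

end Pool.Agent.H29
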