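import Pool.Agent.H29.CovAsymp

/-! The indicator vectors of the `k`-sets form a covering family in `(ℤ/3)^q` if `2 k ≠ q`. -/

open Finset Filter Pool.Agent.H29

namespace Pool.Agent.H29.CovLower

/-- The indicator vectors of the `k`-sets form a covering family in `(ℤ/3)^q` if `2 k ≠ q`. -/
lemma lower (q k : ℕ) (hk : 2 * k ≠ q) : q.choose k ≤ R 3 q := by
  classical
  let f : Finset (Fin q) → Fin q → ZMod 3 := fun S i => if i ∈ S then 1 else 0
  have hinj : Function.Injective f := by
    intro S T h
    ext i
    have := congrFun h i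
    simp only [f] at this
    by_cases hS : i ∈ S <;> by_cases hT : i ∈ T <;> simp [hS, hT] at this ⊢
  have hcov : IsCovering 3 q ((powersetCard k univ).image f) := by
    intro v hv w hw hvw c
    rw [mem_image] at hv hw
    obtain ⟨S, hS, rfl⟩ := hv
    obtain ⟨T, hT, rfl⟩ := hw
    rw [mem_powersetCard] at hS hT
    have hST : S ≠ T := fun h => hvw (by rw [h])
    have h1 : ∃ i ∈ S, i ∉ T := by
      by_contra! hcon
      exact hST (eq_of_subset_of_card_le hcon (by rw [hS.2, hT.2]))
    have h2 : ∃ i ∈ T, i ∉ S := by
      by_contra! hcon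
      exact hST (eq_of_subset_of_card_le hcon (by rw [hS.2, hT.2])).symm
    have h0 : ∃ i, (i ∈ S ↔ i ∈ T) := by
      by_contra! hcon
      have h3 : T = Sᶜ := by
        ext i
        rw [mem_compl]
        have := hcon i
        tauto
      have h4 : T.card = q - S.card := by rw [h3, card_compl, Fintype.card_fin]
      have h5 : S.card ≤ q := by simpa using card_le_univ S
      omega
    have hc : c = 0 ∨ c = 1 ∨ c = 2 := by
      revert c; decide
    rcases hc with rfl | rfl | rfl
    · obtain ⟨i, hi⟩ := h0
      refine ⟨i, ?_⟩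
      simp only [f]
      by_cases hiS : i ∈ S
      · rw [if_pos hiS, if_pos (hi.mp hiS), sub_self]
      · rw [if_neg hiS, if_neg (fun h => hiS (hi.mpr h)), sub_self]
    · obtain ⟨i, hi, hi'⟩ := h1
      refine ⟨i, ?_⟩
      simp only [f]
      rw [if_pos hi, if_neg hi', sub_zero]
    · obtain ⟨i, hi, hi'⟩ := h2
      refine ⟨i, ?_⟩
      simp only [f]
      rw [if_pos hi, if_neg hi']
      decide
  have h6 := card_le_R hcov
  rwa [card_image_of_injective _ hinj, card_powersetCard, card_univ, Fintype.card_fin] at h6

end Pool.Agent.H29.CovLower
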