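import Pool.Agent.H29.CovDefs

/-!
# Packing bound for covering families in `(ℤ/pm)^q`
-/

open Finset

namespace Pool.Agent.H29

/-- Triangular dimension bound: if vectors `X i`, `Y j` in `K^κ` have pairing `⟨X i, Y j⟩` zero
unless `i = j` or `r i < r j`, and nonzero for `i = j`, then there are at most `|κ|` of them. -/
lemma card_le_of_triangular {K ι κ : Type*} [Field K] [Fintype ι] [Fintype κ]
    (X Y : ι → κ → K) (r : ι → ℕ)
    (h0 : ∀ i j, i ≠ j → r j ≤ r i → ∑ k, X i k * Y j k = 0)
    (h1 : ∀ i, ∑ k, X i k * Y i k ≠ 0) : Fintype.card ι ≤ Fintype.card κ := by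
  classical
  have hli : LinearIndependent K Y := by
    rw [Fintype.linearIndependent_iff]
    intro c hc
    by_contra! hne
    -- choose an index with nonzero coefficient and maximal rank
    obtain ⟨i, hi, hmax⟩ := Finset.exists_max_image (univ.filter fun i => c i ≠ 0) r
      (by obtain ⟨i, hi⟩ := hne; exact ⟨i, by simp [hi]⟩)
    simp only [mem_filter, mem_univ, true_and] at hi hmax
    have h2 : ∑ k, X i k * (∑ j, c j • Y j) k = 0 := by
      rw [hc]; simp
    have h3 : ∑ k, X i k * (∑ j, c j • Y j) k = ∑ j, c j * ∑ k, X i k * Y j k := by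
      simp only [Finset.sum_apply, Pi.smul_apply, smul_eq_mul, mul_sum]
      rw [sum_comm]
      refine sum_congr rfl fun j _ => sum_congr rfl fun k _ => by ring
    rw [h3, Finset.sum_eq_single i] at h2
    · rcases mul_eq_zero.mp h2 with h | h
      · exact hi h
      · exact h1 i h
    · intro j _ hj
      by_cases hcj : c j = 0
      · rw [hcj, zero_mul]
      · rw [h0 i j (Ne.symm hj) (hmax j hcj), mul_zero]
    · intro h; exact absurd (mem_univ i) h
  have := hli.fintype_card_le_finrank
  simpa using this

/-- Expansion of the product `∏ (x_i - y_i - 1)` as a pairing of vectors indexed by subsets. -/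
lemma prod_expand {K : Type*} [CommRing K] {q : ℕ} (x y : Fin q → K) :
    ∑ S : Finset (Fin q), (∏ i ∈ S, x i) * (∏ i ∈ Sᶜ, (-y i - 1)) = ∏ i, (x i - y i - 1) := by
  have h := Finset.prod_add x (fun i => -y i - 1) (univ : Finset (Fin q))
  have h2 : ∏ i, (x i - y i - 1) = ∏ i ∈ (univ : Finset (Fin q)), (x i + (-y i - 1)) :=
    prod_congr rfl fun i _ => by ring
  rw [h2, h]
  rw [Finset.powerset_univ]
  refine sum_congr rfl fun S _ => ?_
  rw [Finset.compl_eq_univ_sdiff]

/-- In a covering family of `(ℤ/pm)^q`, the reduction mod `p` of a difference of distinct members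
takes each value in at least `m` coordinates. -/
lemma card_residue {p m q : ℕ} (hp : 0 < p) {F : Finset (Fin q → ZMod (p * m))}
    (hF : IsCovering (p * m) q F) {v w : Fin q → ZMod (p * m)} (hv : v ∈ F) (hw : w ∈ F)
    (hvw : v ≠ w) (c : ZMod p) :
    m ≤ (univ.filter fun i => ZMod.castHom (dvd_mul_right p m) (ZMod p) (v i - w i) = c).card := by
  classical
  have : NeZero p := ⟨hp.ne'⟩
  have h1 : ∀ k : Fin m, ∃ i, v i - w i = ((c.val + p * k : ℕ) : ZMod (p * m)) := fun k =>
    hF v hv w hw hvw _
  choose f hf using h1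
  have hinj : Function.Injective f := by
    intro k l hkl
    have h2 : ((c.val + p * k : ℕ) : ZMod (p * m)) = ((c.val + p * l : ℕ) : ZMod (p * m)) := by
      rw [← hf k, ← hf l, hkl]
    rw [ZMod.natCast_eq_natCast_iff] at h2
    have hlt : ∀ k : Fin m, c.val + p * k < p * m := by
      intro k
      have h3 : c.val < p := ZMod.val_lt c
      have h4 : (k : ℕ) + 1 ≤ m := k.2
      calc c.val + p * k < p + p * k := by omega
        _ = p * (k + 1) := by ring
        _ ≤ p * m := Nat.mul_le_mul_left p h4
    have h3 := Nat.ModEq.eq_of_lt_of_lt h2 (hlt k) (hlt l)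
    have h4 : p * (k : ℕ) = p * (l : ℕ) := by omega
    exact Fin.ext (Nat.eq_of_mul_eq_mul_left hp h4)
  have h5 : (univ.image f).card = m := by
    rw [card_image_of_injective _ hinj, card_univ, Fintype.card_fin]
  refine h5.symm.le.trans (card_le_card ?_)
  intro i hi
  rw [mem_image] at hi
  obtain ⟨k, -, rfl⟩ := hi
  rw [mem_filter]
  refine ⟨mem_univ _, ?_⟩
  rw [hf k, map_natCast]
  push_cast
  rw [ZMod.natCast_self, zero_mul, add_zero, ZMod.natCast_zmod_val]

/-- **Packing bound.** A covering family in `(ℤ/pm)^q`, `p` prime, has at most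
`2^q / ∑_{j ≤ ⌊(m-1)/2⌋} C(q, j)` members. -/
theorem packing_bound {p m q : ℕ} (hp : p.Prime) (hm : 0 < m)
    {F : Finset (Fin q → ZMod (p * m))} (hF : IsCovering (p * m) q F) :
    F.card * ∑ j ∈ range ((m - 1) / 2 + 1), q.choose j ≤ 2 ^ q := by
  classical
  have : Fact p.Prime := ⟨hp⟩
  set t := (m - 1) / 2 with ht
  set B : Finset (Finset (Fin q)) := univ.filter fun T => T.card ≤ t with hB
  have hBcard : B.card = ∑ j ∈ range (t + 1), q.choose j := by
    have h1 : B = (range (t + 1)).biUnion fun j => powersetCard j (univ : Finset (Fin q)) := by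
      ext T
      simp only [hB, mem_filter, mem_univ, true_and, mem_biUnion, mem_range, mem_powersetCard,
        subset_univ]
      constructor
      · intro h; exact ⟨T.card, by omega, rfl⟩
      · rintro ⟨j, hj, rfl⟩; omega
    rw [h1, card_biUnion]
    · refine sum_congr rfl fun j _ => ?_
      rw [card_powersetCard, card_univ, Fintype.card_fin]
    · intro a _ b _ hab
      rw [Function.onFun, disjoint_left]
      intro T hT hT'
      rw [mem_powersetCard] at hT hT'
      exact hab (hT.2.symm.trans hT'.2)
  let π := ZMod.castHom (dvd_mul_right p m) (ZMod p)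
  let pt : F × B → Fin q → ZMod p := fun a i => π (a.1.1 i) + if i ∈ a.2.1 then 1 else 0
  have key := card_le_of_triangular (K := ZMod p) (ι := F × B) (κ := Finset (Fin q))
    (fun a S => ∏ i ∈ S, pt a i) (fun a S => ∏ i ∈ Sᶜ, (-pt a i - 1)) (fun a => a.2.1.card) ?_ ?_
  · rw [Fintype.card_prod, Fintype.card_coe, Fintype.card_coe, hBcard, Fintype.card_finset,
      Fintype.card_fin] at key
    exact key
  · rintro ⟨⟨v, hv⟩, ⟨T, hT⟩⟩ ⟨⟨w, hw⟩, ⟨T', hT'⟩⟩ hne hcard
    simp only at hcard
    rw [prod_expand]
    by_cases hvw : v = w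
    · subst hvw
      have hTT : T ≠ T' := by
        intro h
        apply hne
        simp [h]
      have hns : ¬ T ⊆ T' := fun h => hTT (eq_of_subset_of_card_le h hcard)
      obtain ⟨i, hi, hi'⟩ := not_subset.mp hns
      apply prod_eq_zero (mem_univ i)
      simp only [pt, if_pos hi, if_neg hi']
      ring
    · have h1 : m ≤ (univ.filter fun i => π (v i - w i) = 1).card :=
        card_residue hp.pos hF hv hw hvw (1 : ZMod p)
      have hTc : T.card ≤ t := (mem_filter.mp hT).2
      have hTc' : T'.card ≤ t := (mem_filter.mp hT').2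
      have h2 : (T ∪ T').card < m := by
        have := card_union_le T T'
        omega
      have h3 : ∃ i ∈ (univ.filter fun i => π (v i - w i) = 1), i ∉ T ∪ T' := by
        by_contra! hcon
        have := card_le_card (fun i hi => hcon i hi :
          (univ.filter fun i => π (v i - w i) = 1) ⊆ T ∪ T')
        omega
      obtain ⟨i, hi, hi'⟩ := h3
      rw [mem_filter] at hi
      rw [mem_union, not_or] at hi'
      apply prod_eq_zero (mem_univ i)
      simp only [pt, if_neg hi'.1, if_neg hi'.2]
      have := hi.2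
      rw [map_sub] at this
      linear_combination this
  · rintro ⟨⟨v, hv⟩, ⟨T, hT⟩⟩
    rw [prod_expand]
    simp only [sub_self, zero_sub]
    rw [prod_const]
    exact pow_ne_zero _ (neg_ne_zero.mpr one_ne_zero)

end Pool.Agent.H29
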