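import Pool.Agent.H29.SMP

/-!
# Laplacian, composition formula, flat coordinates
-/

open scoped Manifold ContDiff Topology
open Set Filter Metric

namespace Pool.Agent.H29

noncomputable section

/-- The Laplacian of a function in coordinates with metric `G`. -/
def lap {m : ℕ} (G : Rn m → Matrix (Fin m) (Fin m) ℝ) (u : Rn m → ℝ) (y : Rn m) : ℝ :=
  ∑ i, ∑ j, (G y)⁻¹ i j * hess G u i j y

lemma lap_eq_Lop {m : ℕ} (G : Rn m → Matrix (Fin m) (Fin m) ℝ) (u : Rn m → ℝ) (y : Rn m) :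
    lap G u y = Lop (fun y => (G y)⁻¹)
      (fun k y => - ∑ i, ∑ j, (G y)⁻¹ i j * christoffel G k i j y) u y := by
  unfold lap Lop hess
  have e1 : ∀ k, (-∑ i, ∑ j, (G y)⁻¹ i j * christoffel G k i j y) * pd k u y
      = ∑ i, ∑ j, - ((G y)⁻¹ i j * (christoffel G k i j y * pd k u y)) := by
    intro k
    rw [neg_mul, Finset.sum_mul, ← Finset.sum_neg_distrib]
    refine Finset.sum_congr rfl fun i _ => ?_
    rw [Finset.sum_mul, ← Finset.sum_neg_distrib]
    refine Finset.sum_congr rfl fun j _ => ?_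
    ring
  simp only [e1]
  have e2 : ∑ k, ∑ i, ∑ j, - ((G y)⁻¹ i j * (christoffel G k i j y * pd k u y))
      = ∑ i, ∑ j, ∑ k, - ((G y)⁻¹ i j * (christoffel G k i j y * pd k u y)) := by
    rw [Finset.sum_comm]
    exact Finset.sum_congr rfl fun i _ => Finset.sum_comm
  rw [e2, ← Finset.sum_add_distrib]
  refine Finset.sum_congr rfl fun i _ => ?_
  rw [← Finset.sum_add_distrib]
  refine Finset.sum_congr rfl fun j _ => ?_
  rw [mul_sub, Finset.mul_sum, Finset.sum_neg_distrib]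
  ring

lemma eq_sum_bv {n : ℕ} (v : Rn n) : v = ∑ a, v a • bv a := by
  ext b
  simp [bv, Pi.single_apply]

lemma fderiv_eq_sum_pd {n : ℕ} (K : Rn n → ℝ) (x v : Rn n) :
    fderiv ℝ K x v = ∑ a, pd a K x * v a := by
  conv_lhs => rw [eq_sum_bv v]
  rw [map_sum]
  refine Finset.sum_congr rfl fun a _ => ?_
  rw [map_smul, smul_eq_mul, mul_comm]
  rfl

lemma fderiv_apply_coord {m n : ℕ} {u : Rn m → Rn n} {x : Rn m} (hu : DifferentiableAt ℝ u x)
    (v : Rn m) (a : Fin n) : fderiv ℝ u x v a = fderiv ℝ (fun x => u x a) x v := by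
  have h := ((EuclideanSpace.proj a : Rn n →L[ℝ] ℝ).hasFDerivAt.comp x hu.hasFDerivAt).fderiv
  have h2 : ((EuclideanSpace.proj a : Rn n →L[ℝ] ℝ) ∘ u) = fun x => u x a := rfl
  rw [h2] at h
  rw [h]
  rfl

lemma pd_comp {m n : ℕ} {K : Rn n → ℝ} {u : Rn m → Rn n} {x : Rn m}
    (hK : DifferentiableAt ℝ K (u x)) (hu : DifferentiableAt ℝ u x) (j : Fin m) :
    pd j (fun x => K (u x)) x = ∑ a, pd a K (u x) * pd j (fun x => u x a) x := by
  have h := (hK.hasFDerivAt.comp x hu.hasFDerivAt).fderiv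
  have h2 : (K ∘ u) = fun x => K (u x) := rfl
  rw [h2] at h
  have h3 : pd j (fun x => K (u x)) x = fderiv ℝ K (u x) (fderiv ℝ u x (bv j)) := by
    unfold pd
    rw [h]
    rfl
  rw [h3, fderiv_eq_sum_pd]
  refine Finset.sum_congr rfl fun a _ => ?_
  rw [fderiv_apply_coord hu]
  rfl

lemma contDiffAt_coord {m n : ℕ} {u : Rn m → Rn n} {x : Rn m} {k : WithTop ℕ∞}
    (hu : ContDiffAt ℝ k u x) (a : Fin n) : ContDiffAt ℝ k (fun x => u x a) x :=
  (EuclideanSpace.proj a : Rn n →L[ℝ] ℝ).contDiff.contDiffAt.comp x hu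

lemma contDiffAt_pd {m : ℕ} {f : Rn m → ℝ} {x : Rn m} {k l : WithTop ℕ∞}
    (hf : ContDiffAt ℝ k f x) (hl : l + 1 ≤ k) (j : Fin m) : ContDiffAt ℝ l (pd j f) x :=
  (hf.fderiv_right hl).clm_apply contDiffAt_const

lemma pd_mul {m : ℕ} {f g : Rn m → ℝ} {x : Rn m} (hf : DifferentiableAt ℝ f x)
    (hg : DifferentiableAt ℝ g x) (i : Fin m) :
    pd i (fun x => f x * g x) x = pd i f x * g x + f x * pd i g x := by
  unfold pd
  rw [fderiv_fun_mul hf hg]
  simp
  ring

lemma pd_sum {m : ℕ} {ι : Type*} (s : Finset ι) {f : ι → Rn m → ℝ} {x : Rn m}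
    (hf : ∀ a ∈ s, DifferentiableAt ℝ (f a) x) (i : Fin m) :
    pd i (fun x => ∑ a ∈ s, f a x) x = ∑ a ∈ s, pd i (f a) x := by
  unfold pd
  rw [fderiv_fun_sum hf]
  simp

lemma pd_congr {m : ℕ} {f g : Rn m → ℝ} {x : Rn m} (h : f =ᶠ[𝓝 x] g) (i : Fin m) :
    pd i f x = pd i g x := by
  unfold pd
  rw [h.fderiv_eq]

lemma pd_pd_congr {m : ℕ} {f g : Rn m → ℝ} {x : Rn m} (h : f =ᶠ[𝓝 x] g) (i j : Fin m) :
    pd i (pd j f) x = pd i (pd j g) x := by
  apply pd_congr
  have := h.eventuallyEq_nhds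
  filter_upwards [this] with y hy
  exact pd_congr hy j

lemma hess_congr {m : ℕ} {G G' : Rn m → Matrix (Fin m) (Fin m) ℝ} {f g : Rn m → ℝ} {x : Rn m}
    (hG : G =ᶠ[𝓝 x] G') (h : f =ᶠ[𝓝 x] g) (i j : Fin m) :
    hess G f i j x = hess G' g i j x := by
  unfold hess christoffel
  rw [pd_pd_congr h, hG.self_of_nhds]
  congr 1
  refine Finset.sum_congr rfl fun k _ => ?_
  rw [pd_congr h]
  congr 2
  refine Finset.sum_congr rfl fun l _ => ?_
  have e : ∀ a b, (fun x => G x a b) =ᶠ[𝓝 x] (fun x => G' x a b) := fun a b => by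
    filter_upwards [hG] with y hy
    rw [hy]
  rw [pd_congr (e j l), pd_congr (e i l), pd_congr (e i j)]

lemma lap_congr {m : ℕ} {G : Rn m → Matrix (Fin m) (Fin m) ℝ} {f g : Rn m → ℝ} {x : Rn m}
    (h : f =ᶠ[𝓝 x] g) : lap G f x = lap G g x := by
  unfold lap
  simp only [hess_congr (EventuallyEq.refl _ G) h]

lemma pd_pd_comp {m n : ℕ} {K : Rn n → ℝ} {u : Rn m → Rn n} {x : Rn m}
    (hK : ContDiffAt ℝ 2 K (u x)) (hu : ContDiffAt ℝ 2 u x) (i j : Fin m) :
    pd i (pd j (fun x => K (u x))) x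
      = ∑ a, ((∑ b, pd b (pd a K) (u x) * pd i (fun x => u x b) x) * pd j (fun x => u x a) x
          + pd a K (u x) * pd i (pd j (fun x => u x a)) x) := by
  have hK' : ∀ᶠ y in 𝓝 (u x), ContDiffAt ℝ 2 K y := hK.eventually (by simp)
  have hu' : ∀ᶠ y in 𝓝 x, ContDiffAt ℝ 2 u y := hu.eventually (by simp)
  have hKu : ∀ᶠ y in 𝓝 x, ContDiffAt ℝ 2 K (u y) := hu.continuousAt.eventually hK'
  have hev : pd j (fun x => K (u x)) =ᶠ[𝓝 x]
      fun y => ∑ a, pd a K (u y) * pd j (fun x => u x a) y := by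
    filter_upwards [hu', hKu] with y h1 h2
    exact pd_comp (h2.differentiableAt (by norm_num)) (h1.differentiableAt (by norm_num)) j
  rw [pd_congr hev]
  have hd1 : ∀ a, DifferentiableAt ℝ (pd a K) (u x) := fun a =>
    (contDiffAt_pd hK (l := 1) (by norm_num) a).differentiableAt (by norm_num)
  have hdu : DifferentiableAt ℝ u x := hu.differentiableAt (by norm_num)
  have hd1' : ∀ a, DifferentiableAt ℝ (fun y => pd a K (u y)) x := fun a =>
    (hd1 a).comp x hdu
  have hd2 : ∀ a, DifferentiableAt ℝ (pd j (fun x => u x a)) x := fun a =>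
    (contDiffAt_pd (contDiffAt_coord hu a) (l := 1) (by norm_num) j).differentiableAt (by norm_num)
  rw [pd_sum _ (fun a _ => (hd1' a).fun_mul (hd2 a))]
  refine Finset.sum_congr rfl fun a _ => ?_
  rw [pd_mul (hd1' a) (hd2 a), pd_comp (hd1 a) hdu]

/-- Composition formula for the Hessian. -/
lemma hess_comp {m n : ℕ} {G : Rn m → Matrix (Fin m) (Fin m) ℝ}
    {H : Rn n → Matrix (Fin n) (Fin n) ℝ} {K : Rn n → ℝ} {u : Rn m → Rn n} {x : Rn m}
    (hK : ContDiffAt ℝ 2 K (u x)) (hu : ContDiffAt ℝ 2 u x) (i j : Fin m) :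
    hess G (fun x => K (u x)) i j x
      = (∑ b, ∑ c, hess H K b c (u x) * (pd i (fun x => u x b) x * pd j (fun x => u x c) x))
        + ∑ a, pd a K (u x) * (pd i (pd j (fun x => u x a)) x
            - ∑ k, christoffel G k i j x * pd k (fun x => u x a) x
            + ∑ b, ∑ c, christoffel H a b c (u x) * pd i (fun x => u x b) x
              * pd j (fun x => u x c) x) := by
  have hdu : DifferentiableAt ℝ u x := hu.differentiableAt (by norm_num)
  have hdK : DifferentiableAt ℝ K (u x) := hK.differentiableAt (by norm_num)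
  unfold hess
  rw [pd_pd_comp hK hu]
  have e1 : ∀ k, pd k (fun x => K (u x)) x = ∑ a, pd a K (u x) * pd k (fun x => u x a) x :=
    fun k => pd_comp hdK hdu k
  simp only [e1]
  -- abbreviations
  set U : Fin m → Fin n → ℝ := fun i a => pd i (fun x => u x a) x with hU
  set K1 : Fin n → ℝ := fun a => pd a K (u x) with hK1
  have A1 : ∑ a, ((∑ b, pd b (pd a K) (u x) * U i b) * U j a
      + K1 a * pd i (pd j (fun x => u x a)) x)
      = (∑ b, ∑ c, pd b (pd c K) (u x) * (U i b * U j c))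
        + ∑ a, K1 a * pd i (pd j (fun x => u x a)) x := by
    rw [Finset.sum_add_distrib]
    congr 1
    rw [Finset.sum_comm]
    refine Finset.sum_congr rfl fun a _ => ?_
    rw [Finset.sum_mul]
    refine Finset.sum_congr rfl fun b _ => ?_
    ring
  have A2 : ∑ k, christoffel G k i j x * ∑ a, K1 a * U k a
      = ∑ a, K1 a * ∑ k, christoffel G k i j x * U k a := by
    simp only [Finset.mul_sum]
    rw [Finset.sum_comm]
    refine Finset.sum_congr rfl fun a _ => Finset.sum_congr rfl fun k _ => ?_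
    ring
  have A3 : ∑ b, ∑ c, (∑ a, christoffel H a b c (u x) * K1 a) * (U i b * U j c)
      = ∑ a, K1 a * ∑ b, ∑ c, christoffel H a b c (u x) * U i b * U j c := by
    calc ∑ b, ∑ c, (∑ a, christoffel H a b c (u x) * K1 a) * (U i b * U j c)
        = ∑ b, ∑ c, ∑ a, K1 a * (christoffel H a b c (u x) * U i b * U j c) := by
          refine Finset.sum_congr rfl fun b _ => Finset.sum_congr rfl fun c _ => ?_
          rw [Finset.sum_mul]
          exact Finset.sum_congr rfl fun a _ => by ring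
      _ = ∑ b, ∑ a, ∑ c, K1 a * (christoffel H a b c (u x) * U i b * U j c) :=
          Finset.sum_congr rfl fun b _ => Finset.sum_comm
      _ = ∑ a, ∑ b, ∑ c, K1 a * (christoffel H a b c (u x) * U i b * U j c) := Finset.sum_comm
      _ = ∑ a, K1 a * ∑ b, ∑ c, christoffel H a b c (u x) * U i b * U j c := by
          simp only [Finset.mul_sum]
  rw [A1, A2]
  have A4 : ∑ b, ∑ c, (pd b (pd c K) (u x) - ∑ a, christoffel H a b c (u x) * K1 a)
      * (U i b * U j c)
      = (∑ b, ∑ c, pd b (pd c K) (u x) * (U i b * U j c))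
        - ∑ a, K1 a * ∑ b, ∑ c, christoffel H a b c (u x) * U i b * U j c := by
    rw [← A3, ← Finset.sum_sub_distrib]
    refine Finset.sum_congr rfl fun b _ => ?_
    rw [← Finset.sum_sub_distrib]
    refine Finset.sum_congr rfl fun c _ => ?_
    ring
  have A5 : ∑ a, K1 a * (pd i (pd j (fun x => u x a)) x - ∑ k, christoffel G k i j x * U k a
      + ∑ b, ∑ c, christoffel H a b c (u x) * U i b * U j c)
      = (∑ a, K1 a * pd i (pd j (fun x => u x a)) x)
        - (∑ a, K1 a * ∑ k, christoffel G k i j x * U k a)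
        + ∑ a, K1 a * ∑ b, ∑ c, christoffel H a b c (u x) * U i b * U j c := by
    rw [← Finset.sum_sub_distrib, ← Finset.sum_add_distrib]
    refine Finset.sum_congr rfl fun a _ => ?_
    ring
  rw [A4, A5]
  ring

/-- Composition formula for the Laplacian: the Laplacian of `K ∘ u` is the trace of the pull-back
of the Hessian of `K`, plus the derivative of `K` in the direction of the tension field. -/
lemma lap_comp {m n : ℕ} {G : Rn m → Matrix (Fin m) (Fin m) ℝ}
    {H : Rn n → Matrix (Fin n) (Fin n) ℝ} {K : Rn n → ℝ} {u : Rn m → Rn n} {x : Rn m}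
    (hK : ContDiffAt ℝ 2 K (u x)) (hu : ContDiffAt ℝ 2 u x) :
    lap G (fun x => K (u x)) x
      = (∑ i, ∑ j, (G x)⁻¹ i j * ∑ b, ∑ c, hess H K b c (u x)
          * (pd i (fun x => u x b) x * pd j (fun x => u x c) x))
        + ∑ a, pd a K (u x) * tension G H u a x := by
  unfold lap
  have h1 : ∀ i j, (G x)⁻¹ i j * hess G (fun x => K (u x)) i j x
      = (G x)⁻¹ i j * (∑ b, ∑ c, hess H K b c (u x)
          * (pd i (fun x => u x b) x * pd j (fun x => u x c) x))
        + ∑ a, pd a K (u x) * ((G x)⁻¹ i j * (pd i (pd j (fun x => u x a)) x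
            - ∑ k, christoffel G k i j x * pd k (fun x => u x a) x
            + ∑ b, ∑ c, christoffel H a b c (u x) * pd i (fun x => u x b) x
              * pd j (fun x => u x c) x)) := by
    intro i j
    rw [hess_comp (H := H) hK hu, mul_add, Finset.mul_sum (s := Finset.univ)
      (f := fun a => pd a K (u x) * _)]
    congr 1
    refine Finset.sum_congr rfl fun a _ => ?_
    ring
  simp only [h1, Finset.sum_add_distrib]
  congr 1
  unfold tension
  calc _ = ∑ i, ∑ a, ∑ j, _ := Finset.sum_congr rfl fun i _ => Finset.sum_comm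
    _ = ∑ a, ∑ i, ∑ j, _ := Finset.sum_comm
    _ = _ := by
      refine Finset.sum_congr rfl fun a _ => ?_
      rw [Finset.mul_sum]
      refine Finset.sum_congr rfl fun i _ => ?_
      rw [Finset.mul_sum]

lemma lap_comp_of_tension_eq_zero {m n : ℕ} {G : Rn m → Matrix (Fin m) (Fin m) ℝ}
    {H : Rn n → Matrix (Fin n) (Fin n) ℝ} {K : Rn n → ℝ} {u : Rn m → Rn n} {x : Rn m}
    (hK : ContDiffAt ℝ 2 K (u x)) (hu : ContDiffAt ℝ 2 u x)
    (hτ : ∀ a, tension G H u a x = 0) (hH : ∀ b c, hess H K b c (u x) = 0) :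
    lap G (fun x => K (u x)) x = 0 := by
  rw [lap_comp (H := H) hK hu]
  simp [hτ, hH]

lemma pd_symm {m : ℕ} {f : Rn m → ℝ} {x : Rn m} (hf : ContDiffAt ℝ 2 f x) (i j : Fin m) :
    pd i (pd j f) x = pd j (pd i f) x := by
  rw [pd_pd_eq hf, pd_pd_eq hf]
  exact (hf.isSymmSndFDerivAt (by simp)) _ _

/-- In a metric of the form `∑_k dΨ_k ⊗ dΨ_k` the functions `Ψ_k` have vanishing Hessian. -/
lemma hess_flat {n : ℕ} {H : Rn n → Matrix (Fin n) (Fin n) ℝ} {Ψ : Fin n → Rn n → ℝ} {P : Rn n}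
    (hΨ : ∀ k, ContDiffAt ℝ 2 (Ψ k) P)
    (hH : H =ᶠ[𝓝 P] fun x => Matrix.of fun i j => ∑ k, pd i (Ψ k) x * pd j (Ψ k) x)
    (hdet : IsUnit (H P).det) (s i j : Fin n) : hess H (Ψ s) i j P = 0 := by
  classical
  set J : Matrix (Fin n) (Fin n) ℝ := Matrix.of fun k l => pd l (Ψ k) P with hJ
  have hHP : H P = J.transpose * J := by
    rw [hH.self_of_nhds]
    ext a b
    simp [Matrix.mul_apply, hJ]
  have hJdet : IsUnit J.det := by
    rw [hHP, Matrix.det_mul, Matrix.det_transpose] at hdet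
    exact isUnit_of_mul_isUnit_left hdet
  have hJHJ : J * (H P)⁻¹ * J.transpose = 1 := by
    rw [hHP, Matrix.mul_inv_rev, ← Matrix.mul_assoc, Matrix.mul_nonsing_inv _ hJdet,
      Matrix.one_mul, Matrix.nonsing_inv_mul]
    rw [Matrix.det_transpose]; exact hJdet
  have hd1 : ∀ k l, DifferentiableAt ℝ (pd l (Ψ k)) P := fun k l =>
    (contDiffAt_pd (hΨ k) (l := 1) (by norm_num) l).differentiableAt (by norm_num)
  have hdH : ∀ l a b, pd l (fun x => H x a b) P
      = ∑ k, (pd l (pd a (Ψ k)) P * pd b (Ψ k) P + pd a (Ψ k) P * pd l (pd b (Ψ k)) P) := by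
    intro l a b
    have e : (fun x => H x a b) =ᶠ[𝓝 P] fun x => ∑ k, pd a (Ψ k) x * pd b (Ψ k) x := by
      filter_upwards [hH] with x hx
      rw [hx]; rfl
    rw [pd_congr e, pd_sum _ (fun k _ => (hd1 k a).fun_mul (hd1 k b))]
    refine Finset.sum_congr rfl fun k _ => ?_
    rw [pd_mul (hd1 k a) (hd1 k b)]
  have hchr : ∀ k, christoffel H k i j P
      = ∑ l, (H P)⁻¹ k l * ∑ r, pd i (pd j (Ψ r)) P * pd l (Ψ r) P := by
    intro k
    unfold christoffel
    rw [Finset.mul_sum]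
    refine Finset.sum_congr rfl fun l _ => ?_
    rw [hdH, hdH, hdH, ← Finset.sum_add_distrib, ← Finset.sum_sub_distrib, Finset.mul_sum,
      Finset.mul_sum, Finset.mul_sum]
    refine Finset.sum_congr rfl fun r _ => ?_
    rw [pd_symm (hΨ r) j i, pd_symm (hΨ r) l i, pd_symm (hΨ r) l j]
    ring
  unfold hess
  have key : ∑ k, christoffel H k i j P * pd k (Ψ s) P
      = ∑ r, (J * (H P)⁻¹ * J.transpose) s r * pd i (pd j (Ψ r)) P := by
    simp only [hchr, Matrix.mul_apply, Matrix.transpose_apply, hJ, Matrix.of_apply,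
      Finset.sum_mul, Finset.mul_sum]
    calc _ = ∑ k, ∑ r, ∑ l, _ := Finset.sum_congr rfl fun k _ => Finset.sum_comm
      _ = ∑ r, ∑ k, ∑ l, _ := Finset.sum_comm
      _ = ∑ r, ∑ l, ∑ k, _ := Finset.sum_congr rfl fun r _ => Finset.sum_comm
      _ = _ := by
        refine Finset.sum_congr rfl fun r _ => Finset.sum_congr rfl fun l _ =>
          Finset.sum_congr rfl fun k _ => ?_
        ring
  rw [key, hJHJ]
  simp [Matrix.one_apply]

end

end Pool.Agent.H29
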