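import Mathlib

/-!
# Harmonic maps and strictly convex functions on Riemannian manifolds, in local coordinates

Textbook definitions, for smooth manifolds without boundary modelled on `ℝⁿ`, of

* the Gram matrix `g_ij` of a Riemannian metric in a chart,
* the Christoffel symbols of the Levi-Civita connection in a chart,
* the tension field of a map between Riemannian manifolds, and harmonic maps,
* the Riemannian Hessian of a function, and strictly convex functions on a subset.
-/

open scoped Manifold ContDiff Bundle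
open Set

namespace Pool.Agent.H29

noncomputable section

section general

variable {E : Type*} [NormedAddCommGroup E] [NormedSpace ℝ E] {M : Type*} [TopologicalSpace M]
  [ChartedSpace E M]

/-- A smooth Riemannian metric on a smooth manifold `M` without boundary modelled on the normed
space `E`: Mathlib's bundled smooth Riemannian metrics on the tangent bundle. -/
abbrev SmoothMetric (E : Type*) [NormedAddCommGroup E] [NormedSpace ℝ E] (M : Type*)
    [TopologicalSpace M] [ChartedSpace E M] [IsManifold 𝓘(ℝ, E) ∞ M] : Type _ :=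
  Bundle.ContMDiffRiemannianMetric 𝓘(ℝ, E) ∞ E (fun x : M => TangentSpace 𝓘(ℝ, E) x)

/-- The inner product `g_p(v, w)` of two tangent vectors at `p`. -/
def ip [IsManifold 𝓘(ℝ, E) ∞ M] (g : SmoothMetric E M) (p : M) (v w : TangentSpace 𝓘(ℝ, E) p) :
    ℝ :=
  g.inner p v w

/-- The image of the vector `v ∈ E`, placed at the point `y` of the target of the chart `e`, under
the derivative of the inverse chart `e⁻¹`. For a basis vector this is the coordinate vector field
of the chart. -/
def pushVec (e : OpenPartialHomeomorph M E) (y v : E) : TangentSpace 𝓘(ℝ, E) (e.symm y) :=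
  mfderiv 𝓘(ℝ, E) 𝓘(ℝ, E) e.symm y v

/-- The metric in the chart `e`: the inner product `g(de⁻¹ v, de⁻¹ w)` at the point `e⁻¹ y`. -/
def chartMetric [IsManifold 𝓘(ℝ, E) ∞ M] (g : SmoothMetric E M) (e : OpenPartialHomeomorph M E)
    (y v w : E) : ℝ :=
  ip g (e.symm y) (pushVec e y v) (pushVec e y w)

end general

/-- The coordinate space `ℝⁿ`. -/
abbrev Rn (n : ℕ) : Type := EuclideanSpace ℝ (Fin n)

/-- A smooth Riemannian metric on the `n`-dimensional smooth manifold `M` (without boundary). -/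
abbrev RMetric (n : ℕ) (M : Type*) [TopologicalSpace M] [ChartedSpace (Rn n) M]
    [IsManifold 𝓘(ℝ, Rn n) ∞ M] : Type _ :=
  SmoothMetric (Rn n) M

/-- The `i`-th standard basis vector of `ℝⁿ`. -/
def bv {n : ℕ} (i : Fin n) : Rn n := EuclideanSpace.single i (1 : ℝ)

/-- The `i`-th partial derivative of a real function on `ℝⁿ`. -/
def pd {n : ℕ} (i : Fin n) (f : Rn n → ℝ) (y : Rn n) : ℝ := fderiv ℝ f y (bv i)

/-- The Gram matrix `g_ij = g(∂_i, ∂_j)` of a Riemannian metric in the chart `e`, at the point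
with coordinates `y`. -/
def gram {n : ℕ} {M : Type*} [TopologicalSpace M] [ChartedSpace (Rn n) M]
    [IsManifold 𝓘(ℝ, Rn n) ∞ M] (g : RMetric n M) (e : OpenPartialHomeomorph M (Rn n)) (y : Rn n) :
    Matrix (Fin n) (Fin n) ℝ :=
  Matrix.of fun i j => chartMetric g e y (bv i) (bv j)

/-- The Christoffel symbols
`Γ^k_ij = 1/2 ∑_l g^kl (∂_i g_jl + ∂_j g_il - ∂_l g_ij)`
of a matrix-valued function `G = (g_ij)` on `ℝⁿ`. -/
def christoffel {n : ℕ} (G : Rn n → Matrix (Fin n) (Fin n) ℝ) (k i j : Fin n) (y : Rn n) : ℝ :=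
  (1 / 2) * ∑ l, (G y)⁻¹ k l *
    (pd i (fun x => G x j l) y + pd j (fun x => G x i l) y - pd l (fun x => G x i j) y)

/-- The Hessian `(∇²f)_ij = ∂_i ∂_j f - ∑_k Γ^k_ij ∂_k f` of a function `f` in coordinates in
which the metric is `G = (g_ij)`. -/
def hess {n : ℕ} (G : Rn n → Matrix (Fin n) (Fin n) ℝ) (f : Rn n → ℝ) (i j : Fin n)
    (y : Rn n) : ℝ :=
  pd i (pd j f) y - ∑ k, christoffel G k i j y * pd k f y

/-- The `a`-th component
`τ^a = ∑_ij g^ij (∂_i ∂_j u^a - ∑_k Γ^k_ij ∂_k u^a + ∑_bc Γ'^a_bc(u) ∂_i u^b ∂_j u^c)`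
of the tension field of a map `u` from an open subset of `ℝᵐ` with metric `G = (g_ij)` to an open
subset of `ℝⁿ` with metric `H`; here `Γ` and `Γ'` are the Christoffel symbols of `G` and `H`. -/
def tension {m n : ℕ} (G : Rn m → Matrix (Fin m) (Fin m) ℝ) (H : Rn n → Matrix (Fin n) (Fin n) ℝ)
    (u : Rn m → Rn n) (a : Fin n) (y : Rn m) : ℝ :=
  ∑ i, ∑ j, (G y)⁻¹ i j *
    (pd i (pd j (fun x => u x a)) y - ∑ k, christoffel G k i j y * pd k (fun x => u x a) y
      + ∑ b, ∑ c, christoffel H a b c (u y) * pd i (fun x => u x b) y * pd j (fun x => u x c) y)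

/-- A map `φ : (M, g) → (N, h)` is harmonic if it is smooth and its tension field vanishes: at
every point of `M`, all components of the tension field, in all charts of `M` and `N` around the
point and its image, are zero. -/
structure IsHarmonicMap {m n : ℕ} {M N : Type*}
    [TopologicalSpace M] [ChartedSpace (Rn m) M] [IsManifold (𝓘(ℝ, Rn m)) ∞ M]
    [TopologicalSpace N] [ChartedSpace (Rn n) N] [IsManifold (𝓘(ℝ, Rn n)) ∞ N]
    (g : RMetric m M) (h : RMetric n N) (φ : M → N) : Prop where
  smooth : ContMDiff (𝓘(ℝ, Rn m)) (𝓘(ℝ, Rn n)) ∞ φ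
  tension_eq_zero : ∀ e ∈ atlas (Rn m) M, ∀ e' ∈ atlas (Rn n) N, ∀ p ∈ e.source, φ p ∈ e'.source →
    ∀ a, tension (gram g e) (gram h e') (e' ∘ φ ∘ e.symm) a (e p) = 0

/-- Property (ii): there is no nonconstant harmonic map from a closed (compact, connected, without
boundary) Riemannian manifold of dimension `m ≥ 1` with image in `V`. -/
def PropertyII.{u} {n : ℕ} {N : Type*} [TopologicalSpace N] [ChartedSpace (Rn n) N]
    [IsManifold (𝓘(ℝ, Rn n)) ∞ N] (h : RMetric n N) (V : Set N) : Prop :=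
  ∀ (m : ℕ) (_ : 1 ≤ m) (M : Type u) [TopologicalSpace M] [T2Space M] [CompactSpace M]
    [ConnectedSpace M] [ChartedSpace (Rn m) M] [IsManifold (𝓘(ℝ, Rn m)) ∞ M] (g : RMetric m M)
    (φ : M → N), IsHarmonicMap g h φ → range φ ⊆ V → ∀ x y, φ x = φ y

/-- Property (i): `V` carries a strictly convex function, that is, the restriction to `V` of
a `C²` function `f` on an open neighbourhood `U` of `V` whose Riemannian Hessian is positive
definite at every point of `U`. -/
def PropertyI {n : ℕ} {N : Type*} [TopologicalSpace N] [ChartedSpace (Rn n) N]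
    [IsManifold (𝓘(ℝ, Rn n)) ∞ N] (h : RMetric n N) (V : Set N) : Prop :=
  ∃ (U : Set N) (f : N → ℝ), IsOpen U ∧ V ⊆ U ∧ ContMDiffOn (𝓘(ℝ, Rn n)) 𝓘(ℝ, ℝ) 2 f U ∧
    ∀ e ∈ atlas (Rn n) N, ∀ p ∈ U ∩ e.source,
      (Matrix.of fun i j => hess (gram h e) (f ∘ e.symm) i j (e p)).PosDef

end

end Pool.Agent.H29
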