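import Pool.Agent.H29.Geo

/-!
# Gram matrices in charts, global strong maximum principle on closed manifolds
-/

open scoped Manifold ContDiff Topology Bundle
open Set Filter Metric

namespace Pool.Agent.H29

noncomputable section

variable {m : ℕ} {M : Type*} [TopologicalSpace M] [ChartedSpace (Rn m) M] [IsManifold (𝓡 m) ∞ M]

lemma coordField_contMDiffOn {e : OpenPartialHomeomorph M (Rn m)} (he : e ∈ atlas (Rn m) M)
    (v : Rn m) :
    ContMDiffOn (𝓡 m) (𝓡 m).tangent ∞
      (fun y => (⟨e.symm y, mfderiv (𝓡 m) (𝓡 m) e.symm y v⟩ : TangentBundle (𝓡 m) M))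
      e.target := by
  have h1 : ContMDiffOn (𝓡 m) (𝓡 m) ∞ e.symm e.target :=
    contMDiffOn_symm_of_mem_maximalAtlas (IsManifold.subset_maximalAtlas he)
  have h2 := h1.contMDiffOn_tangentMapWithin (m := ∞) (by simp) e.open_target.uniqueMDiffOn
  have h3 : ContMDiff (𝓡 m) (𝓡 m).tangent ∞
      (fun y : Rn m => (⟨y, v⟩ : TangentBundle (𝓡 m) (Rn m))) := by
    intro y
    apply contMDiffAt_vectorSpace_iff_contDiffAt.mpr
    exact contDiffAt_const
  have h4 := h2.comp h3.contMDiffOn (s := e.target) (fun y hy => hy)
  refine h4.congr fun y hy => ?_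
  simp only [Function.comp, tangentMapWithin]
  rw [mfderivWithin_of_isOpen e.open_target hy]

lemma gram_contDiffOn (g : RMetric m M) {e : OpenPartialHomeomorph M (Rn m)}
    (he : e ∈ atlas (Rn m) M) (i j : Fin m) :
    ContDiffOn ℝ ∞ (fun y => gram g e y i j) e.target := by
  let _ : Bundle.RiemannianBundle (fun x : M => TangentSpace (𝓡 m) x) := ⟨g.toRiemannianMetric⟩
  have : IsContMDiffRiemannianBundle (𝓡 m) ∞ (Rn m) (fun x : M => TangentSpace (𝓡 m) x) :=
    inferInstance
  have h1 := coordField_contMDiffOn he (bv i)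
  have h2 := coordField_contMDiffOn he (bv j)
  have h3 := ContMDiffOn.inner_bundle h1 h2
  rw [contMDiffOn_iff_contDiffOn] at h3
  exact h3

lemma gram_posDef (g : RMetric m M) {e : OpenPartialHomeomorph M (Rn m)}
    (he : e ∈ atlas (Rn m) M) {y : Rn m} (hy : y ∈ e.target) : (gram g e y).PosDef := by
  rw [Matrix.posDef_iff_dotProduct_mulVec]
  refine ⟨?_, fun x hx => ?_⟩
  · ext i j
    simp only [Matrix.conjTranspose_apply, star_trivial, gram, Matrix.of_apply]
    exact g.symm _ _ _
  · set L := mfderiv (𝓡 m) (𝓡 m) e.symm y with hL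
    set v : Rn m := ∑ i, x i • bv i with hv
    have hvx : ∀ i, v i = x i := by
      intro i
      simp [hv, bv, Pi.single_apply]
    have hvne : v ≠ 0 := by
      intro h0
      apply hx
      ext i
      rw [← hvx i, h0]; rfl
    have hLv : L v ≠ 0 := by
      intro h0
      have hinj : Function.Injective L :=
        (mdifferentiable_of_mem_atlas (I := 𝓡 m) he).symm.mfderiv_injective hy
      exact hvne (hinj (h0.trans (map_zero L).symm))
    have hpos := g.pos (e.symm y) (L v) hLv
    have hsum : star x ⬝ᵥ (gram g e y).mulVec x = g.inner (e.symm y) (L v) (L v) := by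
      have h1 : L v = ∑ i, x i • L (bv i) := by
        rw [hv]
        erw [map_sum]
        refine Finset.sum_congr rfl fun i _ => ?_
        erw [map_smul]
      rw [h1]
      simp only [map_sum, map_smul, sum_apply, smul_apply, smul_eq_mul, dotProduct, Matrix.mulVec,
        star_trivial, Finset.mul_sum]
      rw [Finset.sum_comm]
      refine Finset.sum_congr rfl fun i _ => Finset.sum_congr rfl fun j _ => ?_
      have h2 : ∀ a b, gram g e y a b = g.inner (e.symm y) (L (bv a)) (L (bv b)) := fun a b => rfl
      rw [h2]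
      ring
    rw [hsum]
    exact hpos

lemma pd_continuousOn {f : Rn m → ℝ} {s : Set (Rn m)} (hs : IsOpen s) (hf : ContDiffOn ℝ ∞ f s)
    (i : Fin m) : ContinuousOn (pd i f) s := by
  have h1 : ContinuousOn (fderiv ℝ f) s := hf.continuousOn_fderiv_of_isOpen hs (by simp)
  exact h1.clm_apply continuousOn_const

lemma gram_continuousOn (g : RMetric m M) {e : OpenPartialHomeomorph M (Rn m)}
    (he : e ∈ atlas (Rn m) M) : ContinuousOn (gram g e) e.target :=
  continuousOn_pi.2 fun i => continuousOn_pi.2 fun j => (gram_contDiffOn g he i j).continuousOn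

lemma gram_inv_continuousOn (g : RMetric m M) {e : OpenPartialHomeomorph M (Rn m)}
    (he : e ∈ atlas (Rn m) M) (i j : Fin m) :
    ContinuousOn (fun y => (gram g e y)⁻¹ i j) e.target := by
  have hG := gram_continuousOn g he
  have hdet : ContinuousOn (fun y => (gram g e y).det) e.target :=
    (continuous_id.matrix_det).comp_continuousOn hG
  have hadj : ContinuousOn (fun y => (gram g e y).adjugate i j) e.target := by
    have h1 : Continuous fun A : Matrix (Fin m) (Fin m) ℝ => A.adjugate i j :=
      (continuous_apply j).comp ((continuous_apply i).comp continuous_id.matrix_adjugate)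
    exact h1.comp_continuousOn hG
  have h2 : ContinuousOn (fun y => ((gram g e y).det)⁻¹ * (gram g e y).adjugate i j) e.target :=
    (hdet.inv₀ fun y hy => (gram_posDef g he hy).det_pos.ne').mul hadj
  refine h2.congr fun y hy => ?_
  simp only [Matrix.inv_def, Ring.inverse_eq_inv', Matrix.smul_apply, smul_eq_mul]

lemma christoffel_continuousOn (g : RMetric m M) {e : OpenPartialHomeomorph M (Rn m)}
    (he : e ∈ atlas (Rn m) M) (k i j : Fin m) :
    ContinuousOn (christoffel (gram g e) k i j) e.target := by
  unfold christoffel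
  refine continuousOn_const.mul (continuousOn_finsetSum _ fun l _ => ?_)
  refine (gram_inv_continuousOn g he k l).mul ?_
  exact ((pd_continuousOn e.open_target (gram_contDiffOn g he j l) i).add
    (pd_continuousOn e.open_target (gram_contDiffOn g he i l) j)).sub
    (pd_continuousOn e.open_target (gram_contDiffOn g he i j) l)

/-- **Strong maximum principle** on closed Riemannian manifolds: a subharmonic function is
constant. -/
theorem const_of_subharmonic [T2Space M] [CompactSpace M] [ConnectedSpace M] (g : RMetric m M)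
    (S : M → ℝ)
    (hS : ∀ p1 : M, ∃ U : Set (Rn m), IsOpen U ∧ chartAt (Rn m) p1 p1 ∈ U ∧
      U ⊆ (chartAt (Rn m) p1).target ∧ ContDiffOn ℝ 2 (S ∘ (chartAt (Rn m) p1).symm) U ∧
      ∀ y ∈ U, 0 ≤ lap (gram g (chartAt (Rn m) p1)) (S ∘ (chartAt (Rn m) p1).symm) y) :
    ∀ p q, S p = S q := by
  have hcont : Continuous S := by
    rw [continuous_iff_continuousAt]
    intro p
    obtain ⟨U, hUo, hpU, hUt, hU2, -⟩ := hS p
    set e := chartAt (Rn m) p with he
    have h1 : ContinuousAt (S ∘ e.symm) (e p) := hU2.continuousOn.continuousAt (hUo.mem_nhds hpU)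
    have hps : p ∈ e.source := mem_chart_source _ p
    have h2 : ContinuousAt ((S ∘ e.symm) ∘ e) p :=
      ContinuousAt.comp h1 (e.continuousAt hps)
    refine h2.congr ?_
    filter_upwards [e.open_source.mem_nhds hps] with q hq
    simp [e.left_inv hq]
  obtain ⟨pm, -, hpm⟩ := isCompact_univ.exists_isMaxOn (univ_nonempty (α := M)) hcont.continuousOn
  have hmax : ∀ q, S q ≤ S pm := fun q => hpm (mem_univ q)
  set A : Set M := {p | S p = S pm} with hA
  have hAclosed : IsClosed A := isClosed_eq hcont continuous_const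
  have hAopen : IsOpen A := by
    rw [isOpen_iff_mem_nhds]
    intro p hp
    obtain ⟨U, hUo, hpU, hUt, hU2, hUL⟩ := hS p
    have hatlas : chartAt (Rn m) p ∈ atlas (Rn m) M := chart_mem_atlas _ p
    have hps : p ∈ (chartAt (Rn m) p).source := mem_chart_source _ p
    generalize chartAt (Rn m) p = e at *
    obtain ⟨ρ, hρ, hρU⟩ := Metric.isOpen_iff.mp hUo _ hpU
    have hρt : ball (e p) ρ ⊆ e.target := hρU.trans hUt
    have hSp : (S ∘ e.symm) (e p) = S pm := by
      simp only [Function.comp, e.left_inv hps]; exact hp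
    have key := smp_local (a := fun y => (gram g e y)⁻¹)
      (b := fun k y => - ∑ i, ∑ j, (gram g e y)⁻¹ i j * christoffel (gram g e) k i j y)
      (u := S ∘ e.symm) (y0 := e p) hρ
      (fun i j => (gram_inv_continuousOn g hatlas i j).mono hρt)
      (fun y hy => (gram_posDef g hatlas (hρt hy)).inv)
      (fun k => ?_) (hU2.mono hρU)
      (fun y hy => by rw [← lap_eq_Lop]; exact hUL y (hρU hy))
      (fun y hy => by rw [hSp]; exact hmax _)
    · have hball : ball (e p) (ρ / 2) ∈ 𝓝 (e p) := ball_mem_nhds _ (by positivity)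
      have hpre : e ⁻¹' (ball (e p) (ρ / 2)) ∈ 𝓝 p := (e.continuousAt hps).preimage_mem_nhds hball
      filter_upwards [hpre, e.open_source.mem_nhds hps] with q hq1 hq2
      have := key (e q) hq1
      rw [hSp] at this
      simp only [Function.comp, e.left_inv hq2] at this
      exact this
    · refine ContinuousOn.neg (continuousOn_finsetSum _ fun i _ => continuousOn_finsetSum _
        fun j _ => ?_)
      exact ((gram_inv_continuousOn g hatlas i j).mul
        (christoffel_continuousOn g hatlas k i j)).mono hρt
  have hAuniv : A = univ := IsClopen.eq_univ ⟨hAclosed, hAopen⟩ ⟨pm, rfl⟩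
  intro p q
  have hp : p ∈ A := by rw [hAuniv]; trivial
  have hq : q ∈ A := by rw [hAuniv]; trivial
  exact (show S p = S pm from hp).trans (show S q = S pm from hq).symm

end

end Pool.Agent.H29
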