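import Pool.Agent.H29.Mfd

/-!
# Riemannian metrics on open subsets of `ℝⁿ` given by a smooth field of inner products
-/

open scoped Manifold ContDiff Topology Bundle
open Set Filter Metric

namespace Pool.Agent.H29

noncomputable section

variable {n : ℕ}

lemma posdef_lower_bound (B : Rn n →L[ℝ] Rn n →L[ℝ] ℝ) (hB : ∀ v ≠ 0, 0 < B v v) :
    ∃ c > 0, ∀ v, c * ‖v‖ ^ 2 ≤ B v v := by
  rcases (sphere (0 : Rn n) 1).eq_empty_or_nonempty with he | hne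
  · refine ⟨1, one_pos, fun v => ?_⟩
    by_cases hv : v = 0
    · simp [hv]
    · exfalso
      have : (‖v‖⁻¹ • v) ∈ sphere (0 : Rn n) 1 := by
        simp [norm_smul, norm_ne_zero_iff.mpr hv]
      rw [he] at this
      exact this
  · have hcont : Continuous fun v => B v v := by fun_prop
    obtain ⟨v0, hv0, hmin⟩ := (isCompact_sphere (0 : Rn n) 1).exists_isMinOn hne hcont.continuousOn
    have hv0' : v0 ≠ 0 := by
      rintro rfl
      simp at hv0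
    refine ⟨B v0 v0, hB v0 hv0', fun v => ?_⟩
    by_cases hv : v = 0
    · simp [hv]
    · have hmem : (‖v‖⁻¹ • v) ∈ sphere (0 : Rn n) 1 := by
        simp [norm_smul, norm_ne_zero_iff.mpr hv]
      have h1 : B v0 v0 ≤ B (‖v‖⁻¹ • v) (‖v‖⁻¹ • v) := hmin hmem
      simp only [map_smul, smul_apply, smul_eq_mul] at h1
      have hvpos : 0 < ‖v‖ := norm_pos_iff.mpr hv
      have h2 : B v v = ‖v‖ ^ 2 * (‖v‖⁻¹ * (‖v‖⁻¹ * B v v)) := by field_simp
      rw [h2, mul_comm]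
      exact mul_le_mul_of_nonneg_left h1 (by positivity)

lemma isVonNBounded_of_posdef (B : Rn n →L[ℝ] Rn n →L[ℝ] ℝ) (hB : ∀ v ≠ 0, 0 < B v v) :
    Bornology.IsVonNBounded ℝ {v : Rn n | B v v < 1} := by
  obtain ⟨c, hc, hcB⟩ := posdef_lower_bound B hB
  rw [NormedSpace.isVonNBounded_iff]
  rw [isBounded_iff_forall_norm_le]
  refine ⟨Real.sqrt (1 / c), fun v hv => ?_⟩
  have h1 : c * ‖v‖ ^ 2 < 1 := (hcB v).trans_lt hv
  apply Real.le_sqrt_of_sq_le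
  rw [le_div_iff₀ hc]
  linarith

variable (Ω : TopologicalSpace.Opens (Rn n))

lemma val_contMDiff : ContMDiff (𝓡 n) (𝓡 n) ∞ (Subtype.val : Ω → Rn n) := contMDiff_subtype_val

/-- The derivative of the inclusion. -/
def dval (b : Ω) : Rn n →L[ℝ] Rn n :=
  mfderiv (𝓡 n) (𝓡 n) (Subtype.val : Ω → Rn n) b

/-- The pull-back of a bilinear form under a linear map. -/
def pullForm (B : Rn n →L[ℝ] Rn n →L[ℝ] ℝ) (L : Rn n →L[ℝ] Rn n) : Rn n →L[ℝ] Rn n →L[ℝ] ℝ :=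
  B.bilinearComp L L

lemma pullForm_apply (B : Rn n →L[ℝ] Rn n →L[ℝ] ℝ) (L : Rn n →L[ℝ] Rn n) (v w : Rn n) :
    pullForm B L v w = B (L v) (L w) := rfl

lemma chartAt_source (x : Rn n) : (chartAt (Rn n) x).source = univ := by
  simp

lemma chart_coe {e : OpenPartialHomeomorph Ω (Rn n)} (he : e ∈ atlas (Rn n) Ω) :
    (e : Ω → Rn n) = Subtype.val ∧ e.source = univ ∧ ∀ y ∈ e.target, (e.symm y).1 = y := by
  by_cases hne : Nonempty Ω
  · obtain ⟨x, rfl⟩ := TopologicalSpace.Opens.chart_eq hne he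
    refine ⟨?_, ?_, ?_⟩
    · rw [OpenPartialHomeomorph.subtypeRestr_coe]
      rfl
    · rw [OpenPartialHomeomorph.subtypeRestr_source, chartAt_source]
      simp
    · intro y hy
      have := OpenPartialHomeomorph.subtypeRestr_symm_apply (chartAt (Rn n) (x : Rn n)) hne hy
      rw [chartAt_self_eq] at this ⊢
      exact this
  · exfalso
    apply hne
    have h1 : e ∈ ⋃ x : Ω, {(chartAt (Rn n) x.1).subtypeRestr ⟨x⟩} := he
    obtain ⟨x, -⟩ := mem_iUnion.mp h1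
    exact ⟨x⟩

lemma chart_target {e : OpenPartialHomeomorph Ω (Rn n)} (he : e ∈ atlas (Rn n) Ω) :
    e.target = Ω := by
  obtain ⟨h1, h2, h3⟩ := chart_coe Ω he
  ext y
  constructor
  · intro hy
    rw [← h3 y hy]
    exact (e.symm y).2
  · intro hy
    have : e ⟨y, hy⟩ ∈ e.target := e.map_source (by rw [h2]; trivial)
    rw [h1] at this
    exact this

lemma dval_bijective (b : Ω) : Function.Bijective (dval Ω b) := by
  have he := chart_mem_atlas (Rn n) b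
  obtain ⟨h1, h2, h3⟩ := chart_coe Ω he
  have := (mdifferentiable_of_mem_atlas (I := 𝓡 n) he).mfderiv_bijective (x := b)
    (by rw [h2]; trivial)
  rw [h1] at this
  exact this

lemma dval_symm {e : OpenPartialHomeomorph Ω (Rn n)} (he : e ∈ atlas (Rn n) Ω) {y : Rn n}
    (hy : y ∈ e.target) (v : Rn n) :
    dval Ω (e.symm y) (mfderiv (𝓡 n) (𝓡 n) e.symm y v) = v := by
  obtain ⟨h1, h2, h3⟩ := chart_coe Ω he
  have hd := (mdifferentiable_of_mem_atlas (I := 𝓡 n) he).comp_symm_deriv hy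
  rw [h1] at hd
  have := congrArg (fun L => L v) hd
  exact this

lemma pullForm_pos {h : Rn n → (Rn n →L[ℝ] Rn n →L[ℝ] ℝ)}
    (hpos : ∀ P ∈ Ω, ∀ v ≠ 0, 0 < h P v v) (b : Ω) (v : Rn n) (hv : v ≠ 0) :
    0 < pullForm (h b.1) (dval Ω b) v v := by
  rw [pullForm_apply]
  apply hpos _ b.2
  intro h0
  exact hv ((dval_bijective Ω b).injective (h0.trans (map_zero (dval Ω b)).symm))

/-- The inner product on the tangent spaces of `Ω` given by a field of bilinear forms. -/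
def openInner (h : Rn n → (Rn n →L[ℝ] Rn n →L[ℝ] ℝ)) (b : Ω) :
    TangentSpace (𝓡 n) b →L[ℝ] TangentSpace (𝓡 n) b →L[ℝ] ℝ :=
  pullForm (h b.1) (dval Ω b)

lemma openInner_apply (h : Rn n → (Rn n →L[ℝ] Rn n →L[ℝ] ℝ)) (b : Ω) (v w : Rn n) :
    openInner Ω h b v w = h b.1 (dval Ω b v) (dval Ω b w) := rfl

lemma contMDiffAt_pullForm {N : Type*} [TopologicalSpace N] [ChartedSpace (Rn n) N] {x : N}
    {F : N → (Rn n →L[ℝ] Rn n →L[ℝ] ℝ)} {L : N → (Rn n →L[ℝ] Rn n)}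
    (hF : ContMDiffAt (𝓡 n) 𝓘(ℝ, Rn n →L[ℝ] Rn n →L[ℝ] ℝ) ∞ F x)
    (hL : ContMDiffAt (𝓡 n) 𝓘(ℝ, Rn n →L[ℝ] Rn n) ∞ L x) :
    ContMDiffAt (𝓡 n) 𝓘(ℝ, Rn n →L[ℝ] Rn n →L[ℝ] ℝ) ∞ (fun b => pullForm (F b) (L b)) x := by
  have hflip : ContDiff ℝ ∞ (fun B : Rn n →L[ℝ] Rn n →L[ℝ] ℝ => B.flip) := by
    rw [contDiff_clm_apply_iff]
    intro v
    rw [contDiff_clm_apply_iff]
    intro w
    simp only [ContinuousLinearMap.flip_apply]
    fun_prop
  have h2 : ∀ {F : N → (Rn n →L[ℝ] Rn n →L[ℝ] ℝ)},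
      ContMDiffAt (𝓡 n) 𝓘(ℝ, Rn n →L[ℝ] Rn n →L[ℝ] ℝ) ∞ F x →
      ContMDiffAt (𝓡 n) 𝓘(ℝ, Rn n →L[ℝ] Rn n →L[ℝ] ℝ) ∞ (fun b => (F b).flip) x :=
    fun hF => hflip.contMDiff.contMDiffAt.comp x hF
  exact h2 ((h2 (hF.clm_comp hL)).clm_comp hL)

set_option backward.isDefEq.respectTransparency false in
lemma openInner_contMDiff (h : Rn n → (Rn n →L[ℝ] Rn n →L[ℝ] ℝ)) (hs : ContDiffOn ℝ ∞ h Ω) :
    ContMDiff (𝓡 n) ((𝓡 n).prod 𝓘(ℝ, Rn n →L[ℝ] Rn n →L[ℝ] ℝ)) ∞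
      (fun b : Ω => Bundle.TotalSpace.mk' (Rn n →L[ℝ] Rn n →L[ℝ] ℝ)
        (E := fun b : Ω => TangentSpace (𝓡 n) b →L[ℝ] TangentSpace (𝓡 n) b →L[ℝ] ℝ) b
        (openInner Ω h b)) := by
  intro x
  rw [Bundle.contMDiffAt_section]
  have hb := (trivializationAt (Rn n) (TangentSpace (𝓡 n) (M := Ω)) x).open_baseSet.mem_nhds
      (FiberBundle.mem_baseSet_trivializationAt' x)
  have hmf : ContMDiffAt (𝓡 n) 𝓘(ℝ, Rn n →L[ℝ] Rn n) ∞
      (inTangentCoordinates (𝓡 n) (𝓡 n) id Subtype.val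
        (mfderiv (𝓡 n) (𝓡 n) (Subtype.val : Ω → Rn n)) x) x :=
    ((val_contMDiff Ω) x).mfderiv_const (m := ∞) (by simp)
  have key : (fun b : Ω => ((trivializationAt (Rn n →L[ℝ] Rn n →L[ℝ] ℝ)
        (fun b : Ω => TangentSpace (𝓡 n) b →L[ℝ] TangentSpace (𝓡 n) b →L[ℝ] ℝ) x)
          ⟨b, openInner Ω h b⟩).2) =ᶠ[𝓝 x]
        fun b : Ω => pullForm (h b.1) (inTangentCoordinates (𝓡 n) (𝓡 n) id Subtype.val
          (mfderiv (𝓡 n) (𝓡 n) (Subtype.val : Ω → Rn n)) x b) := by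
    filter_upwards [hb] with b hb
    ext v w
    simp [hom_trivializationAt_apply, ContinuousLinearMap.inCoordinates, pullForm_apply, inTangentCoordinates]
    have hb2 : b ∈ (trivializationAt (Rn n →L[ℝ] ℝ)
        (fun b : Ω => TangentSpace (𝓡 n) b →L[ℝ] ℝ) x).baseSet := by
      rw [hom_trivializationAt_baseSet]
      exact ⟨hb, by simp⟩
    rw [Bundle.Trivialization.coe_linearMapAt_of_mem _ hb2]
    simp [hom_trivializationAt_apply, ContinuousLinearMap.inCoordinates]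
    rfl
  refine ContMDiffAt.congr_of_eventuallyEq ?_ key
  have hh : ContMDiffAt (𝓡 n) 𝓘(ℝ, Rn n →L[ℝ] Rn n →L[ℝ] ℝ) ∞ (fun b : Ω => h b.1) x := by
    have h1 : ContMDiffAt (𝓡 n) 𝓘(ℝ, Rn n →L[ℝ] Rn n →L[ℝ] ℝ) ∞ h x.1 :=
      (hs.contDiffAt (Ω.isOpen.mem_nhds x.2)).contMDiffAt
    exact h1.comp x ((val_contMDiff Ω) x)
  exact contMDiffAt_pullForm hh hmf

/-- The Riemannian metric on the open subset `Ω ⊆ ℝⁿ` given by a smooth field of inner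
products. -/
def openMetric (h : Rn n → (Rn n →L[ℝ] Rn n →L[ℝ] ℝ)) (hs : ContDiffOn ℝ ∞ h Ω)
    (hsymm : ∀ P ∈ Ω, ∀ v w, h P v w = h P w v) (hpos : ∀ P ∈ Ω, ∀ v ≠ 0, 0 < h P v v) :
    RMetric n Ω where
  inner b := openInner Ω h b
  symm b _ _ := hsymm _ b.2 _ _
  pos b _ hv := pullForm_pos Ω hpos b _ hv
  isVonNBounded b := isVonNBounded_of_posdef _ (pullForm_pos Ω hpos b)
  contMDiff := openInner_contMDiff Ω h hs

lemma gram_openMetric (h : Rn n → (Rn n →L[ℝ] Rn n →L[ℝ] ℝ)) (hs : ContDiffOn ℝ ∞ h Ω)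
    (hsymm : ∀ P ∈ Ω, ∀ v w, h P v w = h P w v) (hpos : ∀ P ∈ Ω, ∀ v ≠ 0, 0 < h P v v)
    {e : OpenPartialHomeomorph Ω (Rn n)} (he : e ∈ atlas (Rn n) Ω) {y : Rn n} (hy : y ∈ Ω) :
    gram (openMetric Ω h hs hsymm hpos) e y = Matrix.of fun i j => h y (bv i) (bv j) := by
  have hyt : y ∈ e.target := by rw [chart_target Ω he]; exact hy
  obtain ⟨h1, h2, h3⟩ := chart_coe Ω he
  ext i j
  have h4 : gram (openMetric Ω h hs hsymm hpos) e y i j
      = openInner Ω h (e.symm y) (mfderiv (𝓡 n) (𝓡 n) e.symm y (bv i))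
        (mfderiv (𝓡 n) (𝓡 n) e.symm y (bv j)) := rfl
  rw [h4, openInner_apply, dval_symm Ω he hyt, dval_symm Ω he hyt, h3 y hyt]
  rfl

end

end Pool.Agent.H29
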