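import Pool.Agent.H29.HarmDefs

/-!
# The (strong) maximum principle for second order elliptic operators on `ℝᵐ`
-/

open scoped Manifold ContDiff Topology
open Set Filter Metric

namespace Pool.Agent.H29

noncomputable section

/-- The operator `L u = ∑ a_ij ∂_i ∂_j u + ∑ b_k ∂_k u`. -/
def Lop {m : ℕ} (a : Rn m → Matrix (Fin m) (Fin m) ℝ) (b : Fin m → Rn m → ℝ) (u : Rn m → ℝ)
    (y : Rn m) : ℝ :=
  ∑ i, ∑ j, a y i j * pd i (pd j u) y + ∑ k, b k y * pd k u y

/-- Necessary second order condition at a local maximum. -/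
lemma fderiv_fderiv_nonpos_of_isLocalMax {E : Type*} [NormedAddCommGroup E] [NormedSpace ℝ E]
    {v : E → ℝ} {y0 : E} (hv : ContDiffAt ℝ 2 v y0) (hmax : IsLocalMax v y0) (ξ : E) :
    fderiv ℝ (fderiv ℝ v) y0 ξ ξ ≤ 0 := by
  by_contra hcon
  push Not at hcon
  set φ : ℝ → ℝ := fun t => v (y0 + t • ξ) with hφ
  have hline : ∀ t : ℝ, HasDerivAt (fun t : ℝ => y0 + t • ξ) ξ t := by
    intro t
    simpa using ((hasDerivAt_id t).smul_const ξ).const_add y0
  have hcont : ContinuousAt (fun t : ℝ => y0 + t • ξ) 0 := (hline 0).continuousAt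
  have h0 : y0 + (0 : ℝ) • ξ = y0 := by simp
  -- v is differentiable near y0
  have hev : ∀ᶠ y in 𝓝 y0, ContDiffAt ℝ 2 v y := hv.eventually (by simp)
  have hev' : ∀ᶠ t in 𝓝 (0 : ℝ), ContDiffAt ℝ 2 v (y0 + t • ξ) := by
    have : Tendsto (fun t : ℝ => y0 + t • ξ) (𝓝 0) (𝓝 y0) := by
      have := hcont.tendsto
      rwa [h0] at this
    exact this.eventually hev
  have hder : ∀ᶠ t in 𝓝 (0 : ℝ), deriv φ t = fderiv ℝ v (y0 + t • ξ) ξ := by
    filter_upwards [hev'] with t ht
    have hd : HasFDerivAt v (fderiv ℝ v (y0 + t • ξ)) (y0 + t • ξ) :=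
      (ht.differentiableAt (by norm_num)).hasFDerivAt
    exact (hd.comp_hasDerivAt t (hline t)).deriv
  have hder0 : deriv φ 0 = 0 := by
    have : deriv φ 0 = fderiv ℝ v (y0 + (0 : ℝ) • ξ) ξ := hder.self_of_nhds
    rw [this, h0, hmax.fderiv_eq_zero]
    simp
  have hdd : HasFDerivAt (fderiv ℝ v) (fderiv ℝ (fderiv ℝ v) y0) y0 := by
    have : ContDiffAt ℝ 1 (fderiv ℝ v) y0 := hv.fderiv_right (by norm_num)
    exact (this.differentiableAt (by norm_num)).hasFDerivAt
  have hdd2 : HasDerivAt (fun t : ℝ => fderiv ℝ v (y0 + t • ξ) ξ)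
      (fderiv ℝ (fderiv ℝ v) y0 ξ ξ) 0 := by
    have hdd' : HasFDerivAt (fderiv ℝ v) (fderiv ℝ (fderiv ℝ v) y0) (y0 + (0 : ℝ) • ξ) := by
      rw [h0]; exact hdd
    have h1 := hdd'.comp_hasDerivAt (0 : ℝ) (hline 0)
    exact h1.clm_apply (hasDerivAt_const _ _) |>.congr_deriv (by simp)
  have hdderiv : deriv (deriv φ) 0 = fderiv ℝ (fderiv ℝ v) y0 ξ ξ := by
    rw [Filter.EventuallyEq.deriv_eq hder]
    exact hdd2.deriv
  have hφcont : ContinuousAt φ 0 := by
    have h1 : ContinuousAt v (y0 + (0 : ℝ) • ξ) := by rw [h0]; exact hv.continuousAt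
    exact ContinuousAt.comp (g := v) h1 hcont
  have hmin : IsLocalMin φ 0 :=
    isLocalMin_of_deriv_deriv_pos (by rw [hdderiv]; exact hcon) hder0 hφcont
  have hmaxφ : IsLocalMax φ 0 := by
    have h1 : IsLocalMax v (y0 + (0 : ℝ) • ξ) := by rw [h0]; exact hmax
    exact IsLocalMax.comp_continuous (g := fun t : ℝ => y0 + t • ξ) (b := (0 : ℝ)) h1 hcont
  have hconst : φ =ᶠ[𝓝 0] fun _ => φ 0 := by
    filter_upwards [hmin, hmaxφ] with t h1 h2
    exact le_antisymm h2 h1
  have h2 : deriv φ =ᶠ[𝓝 0] fun _ => 0 := by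
    have := hconst.deriv
    refine this.trans ?_
    filter_upwards with t
    simp
  have h3 : deriv (deriv φ) 0 = 0 := by
    rw [h2.deriv_eq]; simp
  rw [hdderiv] at h3
  linarith

lemma pd_pd_eq {m : ℕ} {v : Rn m → ℝ} {y0 : Rn m} (hv : ContDiffAt ℝ 2 v y0) (i j : Fin m) :
    pd i (pd j v) y0 = fderiv ℝ (fderiv ℝ v) y0 (bv i) (bv j) := by
  have h1 : DifferentiableAt ℝ (fderiv ℝ v) y0 := by
    have : ContDiffAt ℝ 1 (fderiv ℝ v) y0 := hv.fderiv_right (by norm_num)
    exact this.differentiableAt (by norm_num)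
  unfold pd
  rw [fderiv_clm_apply h1 (differentiableAt_const _)]
  simp

/-- Weak maximum principle: `L v ≤ 0` at a local maximum. -/
lemma Lop_nonpos_of_isLocalMax {m : ℕ} {a : Rn m → Matrix (Fin m) (Fin m) ℝ}
    {b : Fin m → Rn m → ℝ} {v : Rn m → ℝ} {y0 : Rn m} (ha : (a y0).PosSemidef)
    (hv : ContDiffAt ℝ 2 v y0) (hmax : IsLocalMax v y0) : Lop a b v y0 ≤ 0 := by
  have hpd : ∀ k, pd k v y0 = 0 := by
    intro k
    unfold pd
    rw [hmax.fderiv_eq_zero]; simp
  unfold Lop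
  simp only [hpd, mul_zero, Finset.sum_const_zero, add_zero]
  obtain ⟨N, w, hw⟩ := Matrix.posSemidef_iff_eq_sum_vecMulVec.mp ha
  set D := fderiv ℝ (fderiv ℝ v) y0 with hD
  have key : ∑ i, ∑ j, a y0 i j * pd i (pd j v) y0
      = ∑ k : Fin N, D (∑ i, w k i • bv i) (∑ j, w k j • bv j) := by
    have h1 : ∀ k : Fin N, D (∑ i, w k i • bv i) (∑ j, w k j • bv j)
        = ∑ i, ∑ j, (w k i * w k j) * D (bv i) (bv j) := by
      intro k
      simp only [map_sum, map_smul, sum_apply, smul_apply, smul_eq_mul, Finset.mul_sum]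
      rw [Finset.sum_comm]
      refine Finset.sum_congr rfl fun i _ => Finset.sum_congr rfl fun j _ => ?_
      ring
    simp only [h1]
    have h2 : ∀ i j, a y0 i j * pd i (pd j v) y0
        = ∑ k : Fin N, (w k i * w k j) * D (bv i) (bv j) := by
      intro i j
      rw [pd_pd_eq hv, hw, Matrix.sum_apply, Finset.sum_mul]
      refine Finset.sum_congr rfl fun k _ => ?_
      simp [Matrix.vecMulVec_apply, hD]
    simp only [h2]
    calc ∑ i, ∑ j, ∑ k : Fin N, (w k i * w k j) * D (bv i) (bv j)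
        = ∑ i, ∑ k : Fin N, ∑ j, (w k i * w k j) * D (bv i) (bv j) :=
          Finset.sum_congr rfl fun i _ => Finset.sum_comm
      _ = ∑ k : Fin N, ∑ i, ∑ j, (w k i * w k j) * D (bv i) (bv j) := Finset.sum_comm
  rw [key]
  exact Finset.sum_nonpos fun k _ => fderiv_fderiv_nonpos_of_isLocalMax hv hmax _

lemma pd_add_mul {m : ℕ} {u w : Rn m → ℝ} {δ : ℝ} {y : Rn m} (hu : DifferentiableAt ℝ u y)
    (hw : DifferentiableAt ℝ w y) (k : Fin m) :
    pd k (fun x => u x + δ * w x) y = pd k u y + δ * pd k w y := by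
  unfold pd
  rw [fderiv_fun_add hu (hw.const_mul δ), fderiv_const_mul hw]
  simp

lemma pd_pd_add_mul {m : ℕ} {u w : Rn m → ℝ} {δ : ℝ} {y : Rn m} (hu : ContDiffAt ℝ 2 u y)
    (hw : ContDiffAt ℝ 2 w y) (i j : Fin m) :
    pd i (pd j (fun x => u x + δ * w x)) y = pd i (pd j u) y + δ * pd i (pd j w) y := by
  have hu' : ∀ᶠ x in 𝓝 y, ContDiffAt ℝ 2 u x := hu.eventually (by simp)
  have hw' : ∀ᶠ x in 𝓝 y, ContDiffAt ℝ 2 w x := hw.eventually (by simp)
  have hev : pd j (fun x => u x + δ * w x) =ᶠ[𝓝 y] fun x => pd j u x + δ * pd j w x := by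
    filter_upwards [hu', hw'] with x h1 h2
    exact pd_add_mul (h1.differentiableAt (by norm_num)) (h2.differentiableAt (by norm_num)) j
  have hdiff : ∀ {f : Rn m → ℝ}, ContDiffAt ℝ 2 f y → DifferentiableAt ℝ (pd j f) y := by
    intro f hf
    have h1 : ContDiffAt ℝ 1 (fderiv ℝ f) y := hf.fderiv_right (by norm_num)
    exact (h1.differentiableAt (by norm_num)).clm_apply (differentiableAt_const _)
  unfold pd at hev ⊢
  rw [Filter.EventuallyEq.fderiv_eq hev]
  exact pd_add_mul (hdiff hu) (hdiff hw) i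

lemma Lop_add_mul {m : ℕ} {a : Rn m → Matrix (Fin m) (Fin m) ℝ} {b : Fin m → Rn m → ℝ}
    {u w : Rn m → ℝ} {δ : ℝ} {y : Rn m} (hu : ContDiffAt ℝ 2 u y) (hw : ContDiffAt ℝ 2 w y) :
    Lop a b (fun x => u x + δ * w x) y = Lop a b u y + δ * Lop a b w y := by
  unfold Lop
  have h1 : ∀ k, pd k (fun x => u x + δ * w x) y = pd k u y + δ * pd k w y := fun k =>
    pd_add_mul (hu.differentiableAt (by norm_num)) (hw.differentiableAt (by norm_num)) k
  simp only [h1, pd_pd_add_mul hu hw, mul_add, Finset.sum_add_distrib, Finset.mul_sum]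
  have e1 : ∀ i j, a y i j * (δ * pd i (pd j w) y) = δ * (a y i j * pd i (pd j w) y) := by
    intros; ring
  have e2 : ∀ k, b k y * (δ * pd k w y) = δ * (b k y * pd k w y) := by intros; ring
  simp only [e1, e2]
  ring

/-- The barrier function. -/
def barrier {m : ℕ} (lam R : ℝ) (c : Rn m) (y : Rn m) : ℝ :=
  Real.exp (-lam * ‖y - c‖ ^ 2) - Real.exp (-lam * R ^ 2)

lemma barrier_contDiff {m : ℕ} (lam R : ℝ) (c : Rn m) : ContDiff ℝ ∞ (barrier lam R c) := by
  unfold barrier
  have h1 : ContDiff ℝ ∞ (fun y : Rn m => ‖y - c‖ ^ 2) := (contDiff_id.sub contDiff_const).norm_sq ℝ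
  exact ((contDiff_const.mul h1).exp).sub contDiff_const

lemma inner_bv {m : ℕ} (x : Rn m) (j : Fin m) : inner ℝ x (bv j) = x j := by
  unfold bv
  rw [EuclideanSpace.inner_single_right]; simp

lemma hasFDerivAt_exp_barrier {m : ℕ} (lam : ℝ) (c : Rn m) (y : Rn m) :
    HasFDerivAt (fun y : Rn m => Real.exp (-lam * ‖y - c‖ ^ 2))
      (Real.exp (-lam * ‖y - c‖ ^ 2) • ((-lam) • ((2 : ℝ) • innerSL ℝ (y - c)))) y := by
  have h1 : HasFDerivAt (fun y : Rn m => ‖y - c‖ ^ 2) ((2 : ℝ) • innerSL ℝ (y - c)) y := by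
    have := ((hasFDerivAt_id y).sub_const c).norm_sq
    rw [ofNat_smul_eq_nsmul ℝ]
    simpa using this
  exact (h1.const_mul (-lam)).exp

lemma pd_barrier {m : ℕ} (lam R : ℝ) (c : Rn m) (j : Fin m) :
    pd j (barrier lam R c)
      = fun y => Real.exp (-lam * ‖y - c‖ ^ 2) * (-2 * lam * (y j - c j)) := by
  funext y
  unfold pd barrier
  rw [((hasFDerivAt_exp_barrier lam c y).sub_const _).fderiv]
  simp [inner_bv]
  ring

lemma pd_pd_barrier {m : ℕ} (lam R : ℝ) (c : Rn m) (i j : Fin m) (y : Rn m) :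
    pd i (pd j (barrier lam R c)) y
      = Real.exp (-lam * ‖y - c‖ ^ 2) *
        (4 * lam ^ 2 * ((y i - c i) * (y j - c j)) - 2 * lam * (if i = j then 1 else 0)) := by
  rw [pd_barrier]
  unfold pd
  have h1 := hasFDerivAt_exp_barrier lam c y
  have h2 : HasFDerivAt (fun y : Rn m => -2 * lam * (y j - c j))
      ((-2 * lam) • (EuclideanSpace.proj j : Rn m →L[ℝ] ℝ)) y :=
    ((EuclideanSpace.proj j : Rn m →L[ℝ] ℝ).hasFDerivAt.sub_const _).const_mul _
  rw [(h1.fun_mul h2).fderiv]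
  simp only [add_apply, smul_apply, smul_eq_mul, innerSL_apply_apply, inner_bv]
  have h3 : (EuclideanSpace.proj j : Rn m →L[ℝ] ℝ) (bv i) = if i = j then 1 else 0 := by
    unfold bv
    simp [EuclideanSpace.proj, eq_comm]
  rw [h3]
  simp only [PiLp.sub_apply]
  ring

lemma Lop_barrier {m : ℕ} {a : Rn m → Matrix (Fin m) (Fin m) ℝ} {b : Fin m → Rn m → ℝ}
    (lam R : ℝ) (c : Rn m) (y : Rn m) :
    Lop a b (barrier lam R c) y = Real.exp (-lam * ‖y - c‖ ^ 2) *
      (4 * lam ^ 2 * (∑ i, ∑ j, a y i j * ((y i - c i) * (y j - c j)))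
        - 2 * lam * (∑ i, a y i i + ∑ k, b k y * (y k - c k))) := by
  unfold Lop
  have e0 : ∀ i j, pd i (pd j (barrier lam R c)) y = Real.exp (-lam * ‖y - c‖ ^ 2) *
        (4 * lam ^ 2 * ((y i - c i) * (y j - c j)) - 2 * lam * (if i = j then 1 else 0)) :=
    fun i j => pd_pd_barrier lam R c i j y
  have e0' : ∀ k, pd k (barrier lam R c) y
      = Real.exp (-lam * ‖y - c‖ ^ 2) * (-2 * lam * (y k - c k)) := fun k => by rw [pd_barrier]
  simp only [e0, e0']
  have e1 : ∀ i j, a y i j * (Real.exp (-lam * ‖y - c‖ ^ 2) *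
      (4 * lam ^ 2 * ((y i - c i) * (y j - c j)) - 2 * lam * (if i = j then 1 else 0)))
      = Real.exp (-lam * ‖y - c‖ ^ 2) * (4 * lam ^ 2) * (a y i j * ((y i - c i) * (y j - c j)))
        - Real.exp (-lam * ‖y - c‖ ^ 2) * (2 * lam) * (if i = j then a y i j else 0) := by
    intro i j
    split_ifs <;> ring
  have e2 : ∀ k, b k y * (Real.exp (-lam * ‖y - c‖ ^ 2) * (-2 * lam * (y k - c k)))
      = - (Real.exp (-lam * ‖y - c‖ ^ 2) * (2 * lam)) * (b k y * (y k - c k)) := by
    intro k; ring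
  simp only [e1, e2, Finset.sum_sub_distrib, ← Finset.mul_sum]
  simp
  ring

/-- **Strong maximum principle**, local form (E. Hopf). -/
theorem smp_local {m : ℕ} {a : Rn m → Matrix (Fin m) (Fin m) ℝ} {b : Fin m → Rn m → ℝ}
    {u : Rn m → ℝ} {y0 : Rn m} {ρ : ℝ} (hρ : 0 < ρ)
    (ha : ∀ i j, ContinuousOn (fun y => a y i j) (ball y0 ρ))
    (hpos : ∀ y ∈ ball y0 ρ, (a y).PosDef)
    (hb : ∀ k, ContinuousOn (b k) (ball y0 ρ))
    (hu : ContDiffOn ℝ 2 u (ball y0 ρ))
    (hL : ∀ y ∈ ball y0 ρ, 0 ≤ Lop a b u y)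
    (hmax : ∀ y ∈ ball y0 ρ, u y ≤ u y0) :
    ∀ y ∈ ball y0 (ρ / 2), u y = u y0 := by
  intro x1 hx1
  by_contra hne
  have hucont : ContinuousOn u (ball y0 ρ) := hu.continuousOn
  have hx1' : dist x1 y0 < ρ / 2 := hx1
  set r0 := dist x1 y0 with hr0
  have hsub : closedBall x1 r0 ⊆ ball y0 ρ := by
    intro y hy
    have h1 : dist y x1 ≤ r0 := hy
    have h2 : dist y y0 ≤ dist y x1 + dist x1 y0 := dist_triangle _ _ _
    have : dist y y0 < ρ := by linarith
    exact this
  -- the contact set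
  set K : Set (Rn m) := closedBall x1 r0 ∩ u ⁻¹' {u y0} with hK
  have hKc : IsCompact K := by
    have : IsClosed K := (hucont.mono hsub).preimage_isClosed_of_isClosed isClosed_closedBall
      isClosed_singleton
    exact (isCompact_closedBall x1 r0).of_isClosed_subset this inter_subset_left
  have hKne : K.Nonempty := ⟨y0, by
    rw [mem_closedBall, dist_comm], rfl⟩
  obtain ⟨q, hqK, hqmin⟩ := hKc.exists_isMinOn hKne (f := fun y => dist y x1)
    (continuous_id.dist continuous_const).continuousOn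
  set d := dist q x1 with hd
  have hdpos : 0 < d := by
    rw [hd, dist_pos]
    rintro rfl
    exact hne hqK.2
  have hdr : d ≤ r0 := hqK.1
  have huq : u q = u y0 := hqK.2
  have hlt : ∀ y ∈ ball x1 d, u y < u y0 := by
    intro y hy
    have hy' : dist y x1 < d := hy
    have hyK : y ∈ closedBall x1 r0 := by
      rw [mem_closedBall]; linarith
    refine lt_of_le_of_ne (hmax y (hsub hyK)) ?_
    intro heq
    have := hqmin (show y ∈ K from ⟨hyK, heq⟩)
    simp only [mem_ofPred_eq] at this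
    linarith
  -- smaller touching ball
  set c : Rn m := x1 + (1 / 2 : ℝ) • (q - x1) with hc
  set R := d / 2 with hR
  have hRpos : 0 < R := by positivity
  have hqx : ‖q - x1‖ = d := by rw [hd, dist_eq_norm]
  have hcx1 : c - x1 = (1 / 2 : ℝ) • (q - x1) := by rw [hc]; abel
  have hqc : q - c = (1 / 2 : ℝ) • (q - x1) := by rw [hc]; module
  have hncx : ‖(1 / 2 : ℝ) • (q - x1)‖ = R := by
    rw [norm_smul, hqx]; simp [hR]; ring
  have htouch : ∀ y ∈ closedBall c R, y ≠ q → u y < u y0 := by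
    intro y hy hyq
    apply hlt
    rw [mem_ball, dist_eq_norm]
    rw [mem_closedBall, dist_eq_norm] at hy
    by_contra hcon
    push Not at hcon
    have hpar := parallelogram_law_with_norm ℝ (y - c) ((1 / 2 : ℝ) • (q - x1))
    have e1 : y - c + (1 / 2 : ℝ) • (q - x1) = y - x1 := by rw [← hcx1]; abel
    have e2 : y - c - (1 / 2 : ℝ) • (q - x1) = y - q := by rw [← hqc]; abel
    rw [e1, e2, hncx] at hpar
    have h3 : 0 < ‖y - q‖ := norm_pos_iff.mpr (sub_ne_zero.mpr hyq)
    have h4 : 0 ≤ ‖y - c‖ := norm_nonneg _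
    have h5 : d = 2 * R := by rw [hR]; ring
    have h6 : ‖y - c‖ * ‖y - c‖ ≤ R * R := mul_self_le_mul_self h4 hy
    have h7 : d * d ≤ ‖y - x1‖ * ‖y - x1‖ := mul_self_le_mul_self hdpos.le hcon
    nlinarith [mul_pos h3 h3]
  have hqball : q ∈ ball y0 ρ := hsub hqK.1
  -- a small ball around q
  obtain ⟨ε0, hε0, hε0sub⟩ := Metric.isOpen_iff.mp isOpen_ball q hqball
  set ε := min (ε0 / 2) (R / 2) with hε
  have hεpos : 0 < ε := lt_min (by positivity) (by positivity)
  have hεR : ε ≤ R / 2 := min_le_right _ _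
  have hεsub : closedBall q ε ⊆ ball y0 ρ := by
    intro y hy
    apply hε0sub
    rw [mem_closedBall] at hy
    rw [mem_ball]
    have : ε ≤ ε0 / 2 := min_le_left _ _
    linarith
  have hKq : IsCompact (closedBall q ε) := isCompact_closedBall q ε
  have hyc : ∀ y ∈ closedBall q ε, y - c ≠ 0 := by
    intro y hy h0
    have h1 : dist q c = R := by rw [dist_eq_norm, hqc, hncx]
    have h2 : y = c := sub_eq_zero.mp h0
    rw [mem_closedBall, h2, dist_comm, h1] at hy
    linarith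
  -- lower bound for the quadratic form
  have hcoord : ∀ i, Continuous (fun y : Rn m => y i) := fun i =>
    (EuclideanSpace.proj i : Rn m →L[ℝ] ℝ).continuous
  obtain ⟨c1, hc1pos, hc1⟩ : ∃ c1 > 0, ∀ y ∈ closedBall q ε,
      c1 ≤ ∑ i, ∑ j, a y i j * ((y i - c i) * (y j - c j)) := by
    have hcont : ContinuousOn (fun y => ∑ i, ∑ j, a y i j * ((y i - c i) * (y j - c j)))
        (closedBall q ε) := by
      refine continuousOn_finsetSum _ fun i _ => continuousOn_finsetSum _ fun j _ => ?_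
      refine ((ha i j).mono hεsub).mul ?_
      exact (((hcoord i).sub continuous_const).mul ((hcoord j).sub continuous_const)).continuousOn
    obtain ⟨ym, hym, hmin⟩ := hKq.exists_isMinOn ⟨q, mem_closedBall_self hεpos.le⟩ hcont
    refine ⟨_, ?_, fun y hy => hmin hy⟩
    have hp := (hpos ym (hεsub hym)).dotProduct_mulVec_pos (x := fun i => ym i - c i) ?_
    · simp only [dotProduct, Matrix.mulVec, star_trivial, Finset.mul_sum] at hp
      refine lt_of_lt_of_eq hp ?_
      refine Finset.sum_congr rfl fun i _ => Finset.sum_congr rfl fun j _ => ?_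
      simp
      ring
    · intro h0
      apply hyc ym hym
      ext i
      exact congrFun h0 i
  -- upper bound for the lower order terms
  obtain ⟨C2, hC2pos, hC2⟩ : ∃ C2 ≥ 0, ∀ y ∈ closedBall q ε,
      (∑ i, a y i i + ∑ k, b k y * (y k - c k)) ≤ C2 := by
    have hcont : ContinuousOn (fun y => ∑ i, a y i i + ∑ k, b k y * (y k - c k))
        (closedBall q ε) := by
      refine (continuousOn_finsetSum _ fun i _ => (ha i i).mono hεsub).add ?_
      refine continuousOn_finsetSum _ fun k _ => ((hb k).mono hεsub).mul ?_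
      exact ((hcoord k).sub continuous_const).continuousOn
    obtain ⟨yM, hyM, hM⟩ := hKq.exists_isMaxOn ⟨q, mem_closedBall_self hεpos.le⟩ hcont
    exact ⟨max 0 (∑ i, a yM i i + ∑ k, b k yM * (yM k - c k)), le_max_left _ _,
      fun y hy => (hM hy).trans (le_max_right _ _)⟩
  set lam := (C2 + 1) / c1 with hlam
  have hlampos : 0 < lam := by positivity
  have hlc : lam * c1 = C2 + 1 := by rw [hlam]; field_simp
  set w := barrier lam R c with hw
  have hLw : ∀ y ∈ closedBall q ε, 0 < Lop a b w y := by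
    intro y hy
    rw [hw, Lop_barrier]
    refine mul_pos (Real.exp_pos _) ?_
    have h1 := hc1 y hy
    have h2 := hC2 y hy
    have h3 : 4 * lam ^ 2 * c1 ≤ 4 * lam ^ 2 *
        (∑ i, ∑ j, a y i j * ((y i - c i) * (y j - c j))) :=
      mul_le_mul_of_nonneg_left h1 (by positivity)
    have h4 : 2 * lam * (∑ i, a y i i + ∑ k, b k y * (y k - c k)) ≤ 2 * lam * C2 :=
      mul_le_mul_of_nonneg_left h2 (by positivity)
    have h5 : 4 * lam ^ 2 * c1 = 4 * lam * (C2 + 1) := by rw [← hlc]; ring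
    nlinarith [mul_nonneg hlampos.le hC2pos]
  have hwcd : ContDiff ℝ ∞ w := barrier_contDiff lam R c
  have hw1 : ∀ y, w y ≤ 1 := by
    intro y
    rw [hw, barrier]
    have h1 : Real.exp (-lam * ‖y - c‖ ^ 2) ≤ 1 := by
      rw [Real.exp_le_one_iff]
      have : 0 ≤ lam * ‖y - c‖ ^ 2 := by positivity
      linarith
    have h2 := Real.exp_pos (-lam * R ^ 2)
    linarith
  have hwneg : ∀ y, y ∉ closedBall c R → w y < 0 := by
    intro y hy
    rw [mem_closedBall, not_le, dist_eq_norm] at hy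
    rw [hw, barrier, sub_neg, Real.exp_lt_exp]
    have : R ^ 2 < ‖y - c‖ ^ 2 := by
      have := norm_nonneg (y - c)
      nlinarith
    nlinarith
  have hwq : w q = 0 := by
    rw [hw, barrier, hqc, hncx, sub_self]
  -- choose δ
  obtain ⟨η, hηpos, hη⟩ : ∃ η > 0, ∀ y ∈ sphere q ε ∩ closedBall c R, u y ≤ u y0 - η := by
    have hS : IsCompact (sphere q ε ∩ closedBall c R) :=
      (isCompact_sphere q ε).inter_right isClosed_closedBall
    rcases (sphere q ε ∩ closedBall c R).eq_empty_or_nonempty with he | hne'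
    · exact ⟨1, one_pos, by rw [he]; simp⟩
    · have hsub' : sphere q ε ∩ closedBall c R ⊆ ball y0 ρ :=
        fun y hy => hεsub (sphere_subset_closedBall hy.1)
      obtain ⟨yM, hyM, hM⟩ := hS.exists_isMaxOn hne' (hucont.mono hsub')
      refine ⟨u y0 - u yM, ?_, fun y hy => ?_⟩
      · have : u yM < u y0 := by
          apply htouch yM hyM.2
          rintro rfl
          have := hyM.1
          rw [mem_sphere, dist_self] at this
          linarith
        linarith
      · have : u y ≤ u yM := hM hy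
        linarith
  set v : Rn m → ℝ := fun y => u y + (η / 2) * w y with hv
  have hvsphere : ∀ y ∈ sphere q ε, v y < u y0 := by
    intro y hy
    by_cases hyR : y ∈ closedBall c R
    · have h1 := hη y ⟨hy, hyR⟩
      have h2 := hw1 y
      simp only [hv]
      nlinarith
    · have h1 := hwneg y hyR
      have h2 := hmax y (hεsub (sphere_subset_closedBall hy))
      simp only [hv]
      nlinarith
  have hvq : v q = u y0 := by simp only [hv, hwq, huq]; ring
  have hvcont : ContinuousOn v (closedBall q ε) :=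
    (hucont.mono hεsub).add (continuousOn_const.mul hwcd.continuous.continuousOn)
  obtain ⟨q', hq', hq'max⟩ := hKq.exists_isMaxOn ⟨q, mem_closedBall_self hεpos.le⟩ hvcont
  have hvq' : u y0 ≤ v q' := by
    rw [← hvq]; exact hq'max (mem_closedBall_self hεpos.le)
  have hq'ball : q' ∈ ball q ε := by
    rw [mem_ball]
    refine lt_of_le_of_ne hq' ?_
    intro heq
    have := hvsphere q' heq
    linarith
  have hlocmax : IsLocalMax v q' := by
    filter_upwards [isOpen_ball.mem_nhds hq'ball] with y hy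
    exact hq'max (ball_subset_closedBall hy)
  have hq'ρ : q' ∈ ball y0 ρ := hεsub hq'
  have hucd : ContDiffAt ℝ 2 u q' := hu.contDiffAt (isOpen_ball.mem_nhds hq'ρ)
  have hwcd' : ContDiffAt ℝ 2 w q' := (hwcd.of_le ENat.LEInfty.out).contDiffAt
  have hvcd : ContDiffAt ℝ 2 v q' := hucd.add (contDiffAt_const.mul hwcd')
  have hle : Lop a b v q' ≤ 0 :=
    Lop_nonpos_of_isLocalMax (hpos q' hq'ρ).posSemidef hvcd hlocmax
  rw [hv, Lop_add_mul hucd hwcd'] at hle
  have h1 := hL q' hq'ρ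
  have h2 := hLw q' hq'
  nlinarith [mul_pos hηpos h2]

end

end Pool.Agent.H29
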