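import Pool.Agent.H29.OpenSub

/-!
# The flat manifold `(ℂ ∖ 0) × ℂ` obtained from an irrational screw motion
-/

open scoped Manifold ContDiff Topology Bundle
open Set Filter Metric Complex

namespace Pool.Agent.H29

noncomputable section

/-- The first complex coordinate `z = x₀ + i x₁` on `ℝ⁴`. -/
def zL : Rn 4 →L[ℝ] ℂ :=
  (EuclideanSpace.proj (0 : Fin 4) : Rn 4 →L[ℝ] ℝ).smulRight (1 : ℂ)
    + (EuclideanSpace.proj (1 : Fin 4) : Rn 4 →L[ℝ] ℝ).smulRight I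

/-- The second complex coordinate `w = x₂ + i x₃` on `ℝ⁴`. -/
def wL : Rn 4 →L[ℝ] ℂ :=
  (EuclideanSpace.proj (2 : Fin 4) : Rn 4 →L[ℝ] ℝ).smulRight (1 : ℂ)
    + (EuclideanSpace.proj (3 : Fin 4) : Rn 4 →L[ℝ] ℝ).smulRight I

lemma zL_apply (v : Rn 4) : zL v = (v 0 : ℂ) + (v 1 : ℂ) * I := by
  simp [zL]

lemma wL_apply (v : Rn 4) : wL v = (v 2 : ℂ) + (v 3 : ℂ) * I := by
  simp [wL]

lemma ext_zw {v w : Rn 4} (h1 : zL v = zL w) (h2 : wL v = wL w) : v = w := by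
  rw [zL_apply, zL_apply] at h1
  rw [wL_apply, wL_apply] at h2
  have a1 := congrArg Complex.re h1
  have a2 := congrArg Complex.im h1
  have a3 := congrArg Complex.re h2
  have a4 := congrArg Complex.im h2
  simp at a1 a2 a3 a4
  ext i
  fin_cases i <;> assumption

/-- The open subset `z ≠ 0` of `ℝ⁴ = ℂ²`. -/
def Ω4 : TopologicalSpace.Opens (Rn 4) :=
  ⟨{P | zL P ≠ 0}, isOpen_ne_fun zL.continuous continuous_const⟩

lemma mem_Ω4 {P : Rn 4} : P ∈ Ω4 ↔ zL P ≠ 0 := Iff.rfl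

/-- The complex valued `1`-form `dz / z`. -/
def Aform (P : Rn 4) : Rn 4 →L[ℝ] ℂ := (zL P)⁻¹ • zL

lemma Aform_apply (P v : Rn 4) : Aform P v = (zL P)⁻¹ * zL v := rfl

/-- The complex valued `1`-form `dw - i √2 w Im (dz / z)`. -/
def Bform (P : Rn 4) : Rn 4 →L[ℝ] ℂ :=
  wL - ((√2 : ℝ) * I * wL P) • (ofRealCLM.comp (imCLM.comp (Aform P)))

lemma Bform_apply (P v : Rn 4) :
    Bform P v = wL v - (√2 : ℝ) * I * wL P * ((Aform P v).im : ℂ) := rfl

/-- The metric `|dz / z|² + |dw - i √2 w Im (dz / z)|²`. -/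
def hform (P : Rn 4) : Rn 4 →L[ℝ] Rn 4 →L[ℝ] ℝ :=
  (innerSL ℝ (E := ℂ)).bilinearComp (Aform P) (Aform P)
    + (innerSL ℝ (E := ℂ)).bilinearComp (Bform P) (Bform P)

lemma hform_apply (P v w : Rn 4) :
    hform P v w = inner ℝ (Aform P v) (Aform P w) + inner ℝ (Bform P v) (Bform P w) := rfl

lemma hform_symm (P v w : Rn 4) : hform P v w = hform P w v := by
  rw [hform_apply, hform_apply, real_inner_comm, real_inner_comm (Bform P v)]

lemma hform_pos {P : Rn 4} (hP : P ∈ Ω4) {v : Rn 4} (hv : v ≠ 0) : 0 < hform P v v := by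
  rw [hform_apply, real_inner_self_eq_norm_sq, real_inner_self_eq_norm_sq]
  by_contra hcon
  have h1 : ‖Aform P v‖ ^ 2 = 0 := by
    nlinarith [sq_nonneg ‖Aform P v‖, sq_nonneg ‖Bform P v‖]
  have h2 : ‖Bform P v‖ ^ 2 = 0 := by
    nlinarith [sq_nonneg ‖Aform P v‖, sq_nonneg ‖Bform P v‖]
  have h3 : Aform P v = 0 := by simpa using h1
  have h4 : Bform P v = 0 := by simpa using h2
  have h5 : zL v = 0 := by
    rw [Aform_apply] at h3
    rcases mul_eq_zero.mp h3 with h | h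
    · exact absurd (inv_eq_zero.mp h) hP
    · exact h
  have h6 : wL v = 0 := by
    rw [Bform_apply, h3] at h4
    simpa using h4
  exact hv (ext_zw (by rw [h5, map_zero]) (by rw [h6, map_zero]))

lemma contDiffOn_Aform (v : Rn 4) : ContDiffOn ℝ ∞ (fun P => Aform P v) Ω4 := by
  have h1 : ContDiffOn ℝ ∞ (fun P => (zL P)⁻¹) (Ω4 : Set (Rn 4)) :=
    zL.contDiff.contDiffOn.inv fun P hP => hP
  exact h1.mul contDiffOn_const

lemma contDiffOn_Bform (v : Rn 4) : ContDiffOn ℝ ∞ (fun P => Bform P v) Ω4 := by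
  simp only [Bform_apply]
  refine contDiffOn_const.sub ((contDiffOn_const.mul wL.contDiff.contDiffOn).mul ?_)
  exact (ofRealCLM.contDiff.comp imCLM.contDiff).comp_contDiffOn (contDiffOn_Aform v)

lemma contDiffOn_hform : ContDiffOn ℝ ∞ hform Ω4 := by
  rw [contDiffOn_clm_apply]
  intro v
  rw [contDiffOn_clm_apply]
  intro w
  simp only [hform_apply]
  exact ((contDiffOn_Aform v).inner ℝ (contDiffOn_Aform w)).add
    ((contDiffOn_Bform v).inner ℝ (contDiffOn_Bform w))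

/-- The Riemannian metric on `N = Ω4`. -/
def hN : RMetric 4 Ω4 :=
  openMetric Ω4 hform contDiffOn_hform (fun P _ v w => hform_symm P v w)
    (fun _ hP _ hv => hform_pos hP hv)

/-- The domain of the flat coordinates around `P1`. -/
def fdom (P1 : Rn 4) : Set (Rn 4) := {P | zL P / zL P1 ∈ slitPlane}

lemma fdom_isOpen (P1 : Rn 4) : IsOpen (fdom P1) :=
  isOpen_slitPlane.preimage (by fun_prop)

lemma mem_fdom_self {P1 : Rn 4} (h : P1 ∈ Ω4) : P1 ∈ fdom P1 := by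
  have h' : zL P1 ≠ 0 := h
  simp [fdom, div_self h']

lemma fdom_subset (P1 : Rn 4) : fdom P1 ⊆ Ω4 := by
  intro P hP h0
  have h0' : zL P = 0 := h0
  simp [fdom, h0'] at hP

/-- First flat complex coordinate `log (z / z₁)`. -/
def Φ1 (P1 P : Rn 4) : ℂ := log (zL P / zL P1)

/-- Second flat complex coordinate `e^{-i √2 θ} w`, with `θ = Im log (z / z₁)`. -/
def Φ2 (P1 P : Rn 4) : ℂ := exp (-((√2 : ℝ) * (Φ1 P1 P).im * I)) * wL P

lemma fdom_ne {P1 P : Rn 4} (hP : P ∈ fdom P1) : zL P ≠ 0 ∧ zL P1 ≠ 0 := by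
  constructor
  · exact fdom_subset P1 hP
  · intro h0
    simp [fdom, h0] at hP

lemma hasFDerivAt_Φ1 {P1 P : Rn 4} (hP : P ∈ fdom P1) :
    HasFDerivAt (Φ1 P1) (Aform P) P := by
  obtain ⟨h1, h2⟩ := fdom_ne hP
  have hz : HasFDerivAt (fun P => zL P / zL P1) ((zL P1)⁻¹ • zL : Rn 4 →L[ℝ] ℂ) P := by
    have := (zL.hasFDerivAt (x := P)).const_mul ((zL P1)⁻¹)
    simp only [div_eq_inv_mul]
    exact this
  have hlog : HasDerivAt log (zL P / zL P1)⁻¹ (zL P / zL P1) := hasDerivAt_log hP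
  have h3 := hlog.comp_hasFDerivAt P hz
  refine h3.congr_fderiv ?_
  ext v
  simp [Aform_apply]
  field_simp

lemma hasFDerivAt_Φ2 {P1 P : Rn 4} (hP : P ∈ fdom P1) :
    HasFDerivAt (Φ2 P1) (exp (-((√2 : ℝ) * (Φ1 P1 P).im * I)) • Bform P : Rn 4 →L[ℝ] ℂ) P := by
  have h1 := hasFDerivAt_Φ1 hP
  have h2 : HasFDerivAt (fun P => -(((√2 : ℝ) : ℂ) * ((Φ1 P1 P).im : ℂ) * I))
      (-((((√2 : ℝ) : ℂ) * I) • (ofRealCLM.comp (imCLM.comp (Aform P)))) : Rn 4 →L[ℝ] ℂ) P := by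
    have h3 : HasFDerivAt (fun P => ((Φ1 P1 P).im : ℂ)) (ofRealCLM.comp (imCLM.comp (Aform P))) P :=
      ofRealCLM.hasFDerivAt.comp P (imCLM.hasFDerivAt.comp P h1)
    have h4 := (h3.const_mul (((√2 : ℝ) : ℂ) * I)).neg
    refine h4.congr_of_eventuallyEq ?_
    filter_upwards with Q
    simp only [Pi.neg_apply]
    ring
  have h5 := h2.cexp.mul (wL.hasFDerivAt (x := P))
  refine h5.congr_fderiv ?_
  ext v
  simp [Bform_apply]
  ring

/-- The four real flat coordinates around `P1`. -/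
def Psi (P1 : Rn 4) (k : Fin 4) (P : Rn 4) : ℝ :=
  match k with
  | 0 => (Φ1 P1 P).re
  | 1 => (Φ1 P1 P).im
  | 2 => (Φ2 P1 P).re
  | 3 => (Φ2 P1 P).im

lemma contDiffAt_Φ1 {P1 P : Rn 4} (hP : P ∈ fdom P1) : ContDiffAt ℝ ∞ (Φ1 P1) P := by
  have h1 : ContDiffAt ℝ ∞ (fun P => zL P / zL P1) P := by
    simp only [div_eq_mul_inv]
    exact zL.contDiff.contDiffAt.mul contDiffAt_const
  have h2 : ContDiffAt ℝ ∞ log (zL P / zL P1) := (contDiffAt_log hP).restrict_scalars ℝ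
  exact h2.comp P h1

lemma contDiffAt_Φ2 {P1 P : Rn 4} (hP : P ∈ fdom P1) : ContDiffAt ℝ ∞ (Φ2 P1) P := by
  have h1 := contDiffAt_Φ1 hP
  have h2 : ContDiffAt ℝ ∞ (fun P => -(((√2 : ℝ) : ℂ) * ((Φ1 P1 P).im : ℂ) * I)) P := by
    have h3 : ContDiffAt ℝ ∞ (fun P => ((Φ1 P1 P).im : ℂ)) P :=
      ofRealCLM.contDiff.contDiffAt.comp P (imCLM.contDiff.contDiffAt.comp P h1)
    exact ((contDiffAt_const.mul h3).mul contDiffAt_const).neg
  exact h2.cexp.mul wL.contDiff.contDiffAt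

lemma contDiffAt_Psi {P1 P : Rn 4} (hP : P ∈ fdom P1) (k : Fin 4) :
    ContDiffAt ℝ ∞ (Psi P1 k) P := by
  fin_cases k
  · exact reCLM.contDiff.contDiffAt.comp P (contDiffAt_Φ1 hP)
  · exact imCLM.contDiff.contDiffAt.comp P (contDiffAt_Φ1 hP)
  · exact reCLM.contDiff.contDiffAt.comp P (contDiffAt_Φ2 hP)
  · exact imCLM.contDiff.contDiffAt.comp P (contDiffAt_Φ2 hP)

/-- The derivatives of the flat coordinates. -/
lemma pd_Psi {P1 P : Rn 4} (hP : P ∈ fdom P1) (k i : Fin 4) :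
    pd i (Psi P1 k) P = match k with
      | 0 => (Aform P (bv i)).re
      | 1 => (Aform P (bv i)).im
      | 2 => (exp (-((√2 : ℝ) * (Φ1 P1 P).im * I)) * Bform P (bv i)).re
      | 3 => (exp (-((√2 : ℝ) * (Φ1 P1 P).im * I)) * Bform P (bv i)).im := by
  have h1 := hasFDerivAt_Φ1 hP
  have h2 := hasFDerivAt_Φ2 hP
  unfold pd
  fin_cases k
  · have := (reCLM.hasFDerivAt.comp P h1).fderiv
    exact congrArg (fun L => L (bv i)) this
  · have := (imCLM.hasFDerivAt.comp P h1).fderiv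
    exact congrArg (fun L => L (bv i)) this
  · have := (reCLM.hasFDerivAt.comp P h2).fderiv
    exact congrArg (fun L => L (bv i)) this
  · have := (imCLM.hasFDerivAt.comp P h2).fderiv
    exact congrArg (fun L => L (bv i)) this

lemma sum_pd_Psi {P1 P : Rn 4} (hP : P ∈ fdom P1) (i j : Fin 4) :
    ∑ k, pd i (Psi P1 k) P * pd j (Psi P1 k) P = hform P (bv i) (bv j) := by
  rw [Fin.sum_univ_four, pd_Psi hP, pd_Psi hP, pd_Psi hP, pd_Psi hP, pd_Psi hP, pd_Psi hP,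
    pd_Psi hP, pd_Psi hP, hform_apply]
  simp only
  set E := exp (-((√2 : ℝ) * (Φ1 P1 P).im * I)) with hE
  have hEn : E.re * E.re + E.im * E.im = 1 := by
    have h1 : ‖E‖ = 1 := by
      rw [hE, Complex.norm_exp]
      simp
    have h2 : Complex.normSq E = 1 := by rw [Complex.normSq_eq_norm_sq, h1]; norm_num
    rw [Complex.normSq_apply] at h2
    exact h2
  simp only [Complex.inner, Complex.mul_re, Complex.mul_im, Complex.conj_re, Complex.conj_im]
  set b1 := Bform P (bv i)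
  set b2 := Bform P (bv j)
  linear_combination (b1.re * b2.re + b1.im * b2.im) * hEn

lemma gram_hN {e : OpenPartialHomeomorph Ω4 (Rn 4)} (he : e ∈ atlas (Rn 4) Ω4) {y : Rn 4}
    (hy : y ∈ Ω4) : gram hN e y = Matrix.of fun i j => hform y (bv i) (bv j) :=
  gram_openMetric _ _ _ _ _ he hy

/-- The flat coordinates have vanishing Hessian. -/
lemma hess_Psi {e : OpenPartialHomeomorph Ω4 (Rn 4)} (he : e ∈ atlas (Rn 4) Ω4) {P1 P : Rn 4}
    (hP : P ∈ fdom P1) (s i j : Fin 4) : hess (gram hN e) (Psi P1 s) i j P = 0 := by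
  apply hess_flat (Ψ := Psi P1)
  · intro k
    exact (contDiffAt_Psi hP k).of_le ENat.LEInfty.out
  · filter_upwards [(fdom_isOpen P1).mem_nhds hP] with Q hQ
    rw [gram_hN he (fdom_subset P1 hQ)]
    ext a b
    simp only [Matrix.of_apply]
    rw [sum_pd_Psi hQ]
  · rw [isUnit_iff_ne_zero]
    exact (gram_posDef hN he (by rw [chart_target Ω4 he]; exact fdom_subset P1 hP)).det_pos.ne'

end

end Pool.Agent.H29
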