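import Pool.Agent.H29.ScrewII

/-!
# No strictly convex function near the torus `|z| = |w| = 1`
-/

open scoped Manifold ContDiff Topology Bundle
open Set Filter Metric Complex

namespace Pool.Agent.H29

noncomputable section

/-- The point of `ℝ⁴` with complex coordinates `z, w`. -/
def mk4 (z w : ℂ) : Rn 4 := !₂[z.re, z.im, w.re, w.im]

lemma zL_mk4 (z w : ℂ) : zL (mk4 z w) = z := by
  rw [zL_apply]
  simp [mk4]

lemma wL_mk4 (z w : ℂ) : wL (mk4 z w) = w := by
  rw [wL_apply]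
  simp [mk4]

lemma mk4_self (P : Rn 4) : mk4 (zL P) (wL P) = P := ext_zw (zL_mk4 _ _) (wL_mk4 _ _)

lemma contDiffAt_mk4 {m : ℕ} {z w : Rn m → ℂ} {y : Rn m} (hz : ContDiffAt ℝ ∞ z y)
    (hw : ContDiffAt ℝ ∞ w y) : ContDiffAt ℝ ∞ (fun y => mk4 (z y) (w y)) y := by
  rw [contDiffAt_euclidean]
  intro i
  fin_cases i
  · exact reCLM.contDiff.contDiffAt.comp y hz
  · exact imCLM.contDiff.contDiffAt.comp y hz
  · exact reCLM.contDiff.contDiffAt.comp y hw
  · exact imCLM.contDiff.contDiffAt.comp y hw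

/-- The geodesic through `P`, with parameter in `ℝ¹`. -/
def geo (P : Rn 4) (y : Rn 1) : Rn 4 :=
  mk4 (exp ((y 0 : ℝ) * I) * zL P) (exp ((√2 : ℝ) * (y 0 : ℝ) * I) * wL P)

lemma geo_leaf (P : Rn 4) (y : Rn 1) : Leaf P (geo P y) (y 0) := ⟨zL_mk4 _ _, wL_mk4 _ _⟩

lemma geo_zero (P : Rn 4) : geo P 0 = P := by
  unfold geo
  simp [mk4_self]

lemma norm_exp_ofReal_mul_I' (t : ℝ) : ‖exp ((t : ℝ) * I)‖ = 1 := Complex.norm_exp_ofReal_mul_I t

lemma Leaf.norm_z {P Q : Rn 4} {t : ℝ} (h : Leaf P Q t) : ‖zL Q‖ = ‖zL P‖ := by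
  rw [h.1, norm_mul, Complex.norm_exp_ofReal_mul_I, one_mul]

lemma Leaf.norm_w {P Q : Rn 4} {t : ℝ} (h : Leaf P Q t) : ‖wL Q‖ = ‖wL P‖ := by
  rw [h.2, norm_mul, ← Complex.ofReal_mul, Complex.norm_exp_ofReal_mul_I, one_mul]

lemma geo_contDiffAt (P : Rn 4) (y : Rn 1) : ContDiffAt ℝ ∞ (geo P) y := by
  have h0 : ContDiffAt ℝ ∞ (fun y : Rn 1 => ((y 0 : ℝ) : ℂ)) y :=
    ofRealCLM.contDiff.contDiffAt.comp y
      (EuclideanSpace.proj (0 : Fin 1) : Rn 1 →L[ℝ] ℝ).contDiff.contDiffAt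
  apply contDiffAt_mk4
  · exact ((h0.mul contDiffAt_const).cexp).mul contDiffAt_const
  · exact (((contDiffAt_const.mul h0).mul contDiffAt_const).cexp).mul contDiffAt_const

/-- The constant metric on `ℝ¹`. -/
def G1 : Rn 1 → Matrix (Fin 1) (Fin 1) ℝ := fun _ => 1

lemma christoffel_G1 (k i j : Fin 1) (y : Rn 1) : christoffel G1 k i j y = 0 := by
  unfold christoffel G1 pd
  simp

lemma lap_G1_coord : lap G1 (fun y : Rn 1 => y 0) 0 = 0 := by
  have h1 : ∀ k : Fin 1, pd k (fun y : Rn 1 => y 0) = fun _ => (bv k : Rn 1) 0 := by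
    intro k
    funext x
    unfold pd
    have := (EuclideanSpace.proj (0 : Fin 1) : Rn 1 →L[ℝ] ℝ).hasFDerivAt (x := x)
    have h2 : fderiv ℝ (fun y : Rn 1 => y 0) x = (EuclideanSpace.proj (0 : Fin 1) : Rn 1 →L[ℝ] ℝ) :=
      this.fderiv
    rw [h2]; rfl
  have h2 : ∀ (k : Fin 1) (c : ℝ), pd k (fun _ : Rn 1 => c) = fun _ => 0 := by
    intro k c; funext x; unfold pd; simp
  unfold lap hess
  simp [h1, h2, christoffel_G1]

lemma Psi_geo {P : Rn 4} (hP : P ∈ Ω4) (s : Fin 4) :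
    lap G1 (fun y => Psi P s (geo P y)) 0 = 0 := by
  have hz : zL P ≠ 0 := hP
  have hev0 : ∀ᶠ y : Rn 1 in 𝓝 0, |y 0| < Real.pi := by
    have hc : Continuous fun y : Rn 1 => |y 0| :=
      (EuclideanSpace.proj (0 : Fin 1) : Rn 1 →L[ℝ] ℝ).continuous.abs
    have : (fun y : Rn 1 => |y 0|) 0 < Real.pi := by simp [Real.pi_pos]
    exact hc.continuousAt.eventually_lt continuousAt_const this
  have hΦ1 : ∀ᶠ y : Rn 1 in 𝓝 0, Φ1 P (geo P y) = ((y 0 : ℝ) : ℂ) * I := by
    filter_upwards [hev0] with y hy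
    unfold Φ1
    rw [(geo_leaf P y).1, mul_div_assoc, div_self hz, mul_one, Complex.log_exp]
    · simp
      exact (abs_lt.mp hy).1
    · simp
      exact (abs_lt.mp hy).2.le
  have hΦ2 : ∀ᶠ y : Rn 1 in 𝓝 0, Φ2 P (geo P y) = wL P := by
    filter_upwards [hΦ1] with y hy
    unfold Φ2
    rw [hy, (geo_leaf P y).2, ← mul_assoc, ← Complex.exp_add]
    simp
  fin_cases s
  · have : (fun y => Psi P 0 (geo P y)) =ᶠ[𝓝 0] fun _ => 0 := by
      filter_upwards [hΦ1] with y hy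
      simp [Psi, hy]
    exact (lap_congr this).trans (lap_const _ _ _)
  · have : (fun y => Psi P 1 (geo P y)) =ᶠ[𝓝 0] fun y => y 0 := by
      filter_upwards [hΦ1] with y hy
      simp [Psi, hy]
    exact (lap_congr this).trans lap_G1_coord
  · have : (fun y => Psi P 2 (geo P y)) =ᶠ[𝓝 0] fun _ => (wL P).re := by
      filter_upwards [hΦ2] with y hy
      simp [Psi, hy]
    exact (lap_congr this).trans (lap_const _ _ _)
  · have : (fun y => Psi P 3 (geo P y)) =ᶠ[𝓝 0] fun _ => (wL P).im := by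
      filter_upwards [hΦ2] with y hy
      simp [Psi, hy]
    exact (lap_congr this).trans (lap_const _ _ _)

/-- The curves `geo P` are geodesics. -/
lemma tension_geo {e : OpenPartialHomeomorph Ω4 (Rn 4)} (he : e ∈ atlas (Rn 4) Ω4) {P : Rn 4}
    (hP : P ∈ Ω4) (a : Fin 4) : tension G1 (gram hN e) (geo P) a 0 = 0 := by
  have hPd : P ∈ fdom P := mem_fdom_self hP
  have hcd : ∀ s, ContDiffAt ℝ 2 (Psi P s) (geo P 0) := fun s => by
    rw [geo_zero]
    exact (contDiffAt_Psi hPd s).of_le ENat.LEInfty.out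
  have hgeo : ContDiffAt ℝ 2 (geo P) 0 := (geo_contDiffAt P 0).of_le ENat.LEInfty.out
  set τ : Fin 4 → ℝ := fun a => tension G1 (gram hN e) (geo P) a 0 with hτ
  have h1 : ∀ s, ∑ a, pd a (Psi P s) P * τ a = 0 := by
    intro s
    have h2 := lap_comp (G := G1) (H := gram hN e) (hcd s) hgeo
    rw [Psi_geo hP, geo_zero] at h2
    simp only [hess_Psi he hPd, zero_mul, Finset.sum_const_zero, mul_zero, zero_add] at h2
    exact h2.symm
  have hpd : (gram hN e P).PosDef := gram_posDef hN he (by rw [chart_target Ω4 he]; exact hP)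
  have hquad : ∑ i, ∑ j, gram hN e P i j * (τ i * τ j) = 0 := by
    have h3 : ∀ i j, gram hN e P i j * (τ i * τ j)
        = ∑ k, (pd i (Psi P k) P * τ i) * (pd j (Psi P k) P * τ j) := by
      intro i j
      rw [gram_hN he hP, Matrix.of_apply, ← sum_pd_Psi hPd, Finset.sum_mul]
      exact Finset.sum_congr rfl fun k _ => by ring
    simp only [h3]
    calc _ = ∑ i, ∑ k, ∑ j, (pd i (Psi P k) P * τ i) * (pd j (Psi P k) P * τ j) :=
          Finset.sum_congr rfl fun i _ => Finset.sum_comm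
      _ = ∑ k, ∑ i, ∑ j, (pd i (Psi P k) P * τ i) * (pd j (Psi P k) P * τ j) := Finset.sum_comm
      _ = ∑ k, (∑ i, pd i (Psi P k) P * τ i) * (∑ j, pd j (Psi P k) P * τ j) := by
          refine Finset.sum_congr rfl fun k _ => ?_
          rw [Finset.sum_mul_sum]
      _ = 0 := by simp [h1]
  exact congrFun (eq_zero_of_quad_eq_zero hpd τ hquad) a

/-- The compact torus `|z| = |w| = 1`. -/
def torus : Set Ω4 := {p | ‖zL p.1‖ = 1 ∧ ‖wL p.1‖ = 1}

lemma torus_isCompact : IsCompact torus := by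
  rw [Subtype.isCompact_iff]
  have himg : Subtype.val '' torus = {P : Rn 4 | ‖zL P‖ = 1 ∧ ‖wL P‖ = 1} := by
    ext P
    constructor
    · rintro ⟨p, hp, rfl⟩
      exact hp
    · rintro ⟨h1, h2⟩
      have hP : P ∈ Ω4 := by
        intro h0
        have h0' : zL P = 0 := h0
        rw [h0'] at h1
        simp at h1
      exact ⟨⟨P, hP⟩, ⟨h1, h2⟩, rfl⟩
  rw [himg]
  apply Metric.isCompact_of_isClosed_isBounded
  · exact (isClosed_eq zL.continuous.norm continuous_const).inter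
      (isClosed_eq wL.continuous.norm continuous_const)
  · rw [isBounded_iff_forall_norm_le]
    refine ⟨2, fun P hP => ?_⟩
    obtain ⟨h1, h2⟩ := hP
    have h3 : ‖P‖ ^ 2 = ‖zL P‖ ^ 2 + ‖wL P‖ ^ 2 := by
      rw [EuclideanSpace.norm_sq_eq, Fin.sum_univ_four, ← Complex.normSq_eq_norm_sq,
        ← Complex.normSq_eq_norm_sq, zL_apply, wL_apply, Complex.normSq_add_mul_I,
        Complex.normSq_add_mul_I]
      simp
      ring
    rw [h1, h2] at h3
    nlinarith [norm_nonneg P]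

lemma torus_nonempty : torus.Nonempty := by
  have h : mk4 1 1 ∈ Ω4 := by
    rw [mem_Ω4, zL_mk4]; exact one_ne_zero
  exact ⟨⟨mk4 1 1, h⟩, by simp [zL_mk4], by simp [wL_mk4]⟩

/-- There is no strictly convex function on a neighbourhood of the torus. -/
theorem not_strictlyConvex {V : Set Ω4} (hV : torus ⊆ V) : ¬ PropertyI hN V := by
  rintro ⟨U, f, hUo, hVU, hf, hhess⟩
  have hfc : ContinuousOn f torus := hf.continuousOn.mono (hV.trans hVU)
  obtain ⟨p, hp, hpmax⟩ := torus_isCompact.exists_isMaxOn torus_nonempty hfc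
  have hpU : p ∈ U := hVU (hV hp)
  have he := chart_mem_atlas (Rn 4) p
  set e := chartAt (Rn 4) p with he_def
  obtain ⟨hc1, hc2, hc3⟩ := chart_coe Ω4 he
  have hep : e p = p.1 := by rw [hc1]
  have hps : p ∈ e.source := mem_chart_source _ p
  have hsymm : ∀ y (hy : y ∈ Ω4), e.symm y = ⟨y, hy⟩ := by
    intro y hy
    apply Subtype.ext
    exact hc3 y (by rw [chart_target Ω4 he]; exact hy)
  set F : Rn 4 → ℝ := f ∘ e.symm with hF
  -- smoothness of `F` at `p`
  have hFcd : ContDiffAt ℝ 2 F p.1 := by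
    have h1 : ContMDiffAt (𝓡 4) 𝓘(ℝ, ℝ) 2 f p := (hf p hpU).contMDiffAt (hUo.mem_nhds hpU)
    have h2 : ContMDiffAt (𝓡 4) (𝓡 4) 2 e.symm (e p) :=
      ((contMDiffOn_symm_of_mem_maximalAtlas (I := 𝓡 4) (n := 2)
        (IsManifold.subset_maximalAtlas he)) _ (e.map_source hps)).contMDiffAt
        (e.open_target.mem_nhds (e.map_source hps))
    have h3 : ContMDiffAt (𝓡 4) 𝓘(ℝ, ℝ) 2 f (e.symm (e p)) := by
      rw [e.left_inv hps]; exact h1
    have h4 := h3.comp (e p) h2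
    rw [hep] at h4
    exact contMDiffAt_iff_contDiffAt.mp h4
  have hgeo : ContDiffAt ℝ 2 (geo p.1) 0 := (geo_contDiffAt p.1 0).of_le ENat.LEInfty.out
  have hFcd' : ContDiffAt ℝ 2 F (geo p.1 0) := by rw [geo_zero]; exact hFcd
  -- local maximum
  have hlm : IsLocalMax (fun y => F (geo p.1 y)) 0 := by
    filter_upwards with y
    have hl := geo_leaf p.1 y
    have hy : geo p.1 y ∈ Ω4 := by
      rw [mem_Ω4, ← norm_ne_zero_iff, hl.norm_z, norm_ne_zero_iff]
      exact p.2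
    have hyt : (⟨geo p.1 y, hy⟩ : Ω4) ∈ torus := ⟨hl.norm_z.trans hp.1, hl.norm_w.trans hp.2⟩
    have h1 : F (geo p.1 y) = f ⟨geo p.1 y, hy⟩ := by rw [hF, Function.comp, hsymm _ hy]
    have h2 : F (geo p.1 0) = f p := by
      rw [geo_zero, hF, Function.comp, hsymm _ p.2]
    rw [h1, h2]
    exact hpmax hyt
  have hle : lap G1 (fun y => F (geo p.1 y)) 0 ≤ 0 := by
    rw [lap_eq_Lop]
    refine Lop_nonpos_of_isLocalMax ?_ (hFcd'.comp 0 hgeo) hlm
    simp only [G1, inv_one]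
    exact Matrix.PosDef.one.posSemidef
  rw [lap_comp (H := gram hN e) hFcd' hgeo] at hle
  simp only [tension_geo he p.2, mul_zero, Finset.sum_const_zero, add_zero, geo_zero] at hle
  -- the velocity vector
  set v : Fin 4 → ℝ := fun b => pd 0 (fun y => geo p.1 y b) 0 with hv
  have hvne : v ≠ 0 := by
    intro hv0
    have hdg : DifferentiableAt ℝ (geo p.1) 0 := hgeo.differentiableAt (by norm_num)
    have h1 : fderiv ℝ (geo p.1) 0 (bv 0) = 0 := by
      ext b
      rw [fderiv_apply_coord hdg]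
      exact congrFun hv0 b
    have h2 : HasFDerivAt (fun y => zL (geo p.1 y)) (zL.comp (fderiv ℝ (geo p.1) 0)) 0 :=
      zL.hasFDerivAt.comp 0 hdg.hasFDerivAt
    have h3 : HasFDerivAt (fun y : Rn 1 => ((y 0 : ℝ) : ℂ))
        (ofRealCLM.comp (EuclideanSpace.proj (0 : Fin 1) : Rn 1 →L[ℝ] ℝ)) 0 :=
      ofRealCLM.hasFDerivAt.comp 0 (EuclideanSpace.proj (0 : Fin 1) : Rn 1 →L[ℝ] ℝ).hasFDerivAt
    have h4 := ((h3.mul_const I).cexp).mul_const (zL p.1)
    have h5 : (fun y => zL (geo p.1 y)) = fun y : Rn 1 => exp (((y 0 : ℝ) : ℂ) * I) * zL p.1 := by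
      funext y
      exact (geo_leaf p.1 y).1
    rw [h5] at h2
    have h6 := congrArg (fun L => L (bv 0)) (h2.unique h4)
    simp only [ContinuousLinearMap.comp_apply, h1, map_zero] at h6
    simp [bv] at h6
    exact p.2 h6
  have hpos := (hhess e he p ⟨hpU, hps⟩).dotProduct_mulVec_pos hvne
  rw [hep] at hpos
  simp only [dotProduct, Matrix.mulVec, star_trivial, Finset.mul_sum, Matrix.of_apply] at hpos
  have : ∑ i, ∑ j, v i * (hess (gram hN e) (f ∘ e.symm) i j p.1 * v j)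
      = ∑ i : Fin 1, ∑ j : Fin 1, (G1 0)⁻¹ i j * ∑ b, ∑ c, hess (gram hN e) F b c p.1
        * (pd i (fun y => geo p.1 y b) 0 * pd j (fun y => geo p.1 y c) 0) := by
    simp only [G1, inv_one, Finset.univ_unique, Fin.default_eq_zero, Finset.sum_singleton,
      Matrix.one_apply_eq, one_mul]
    refine Finset.sum_congr rfl fun i _ => Finset.sum_congr rfl fun j _ => ?_
    simp only [hv, hF]
    ring
  rw [this] at hpos
  linarith

end

end Pool.Agent.H29
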