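import Pool.Agent.H29.Screw

/-!
# Harmonic maps into `N`
-/

open scoped Manifold ContDiff Topology Bundle
open Set Filter Metric Complex

namespace Pool.Agent.H29

noncomputable section

lemma pd_add_const {m : ℕ} {f : Rn m → ℝ} (c : ℝ) (k : Fin m) :
    pd k (fun x => f x + c) = pd k f := by
  funext x
  unfold pd
  rw [fderiv_add_const]

lemma lap_add_const {m : ℕ} (G : Rn m → Matrix (Fin m) (Fin m) ℝ) (f : Rn m → ℝ) (c : ℝ)
    (y : Rn m) : lap G (fun x => f x + c) y = lap G f y := by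
  unfold lap hess
  simp only [pd_add_const]

lemma pd_const_mul {m : ℕ} {f : Rn m → ℝ} {y : Rn m} (hf : DifferentiableAt ℝ f y) (c : ℝ)
    (k : Fin m) : pd k (fun x => c * f x) y = c * pd k f y := by
  unfold pd
  rw [fderiv_const_mul hf]
  simp

/-- The Laplacian of a sum of two squares. -/
lemma lap_sq_add_sq {m : ℕ} (G : Rn m → Matrix (Fin m) (Fin m) ℝ) {f g : Rn m → ℝ} {y : Rn m}
    (hf : ContDiffAt ℝ 2 f y) (hg : ContDiffAt ℝ 2 g y) (h1 : lap G f y = 0)
    (h2 : lap G g y = 0) :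
    lap G (fun x => f x * f x + g x * g x) y
      = 2 * (∑ i, ∑ j, (G y)⁻¹ i j * (pd i f y * pd j f y))
        + 2 * (∑ i, ∑ j, (G y)⁻¹ i j * (pd i g y * pd j g y)) := by
  have hf' : ∀ᶠ x in 𝓝 y, ContDiffAt ℝ 2 f x := hf.eventually (by simp)
  have hg' : ∀ᶠ x in 𝓝 y, ContDiffAt ℝ 2 g x := hg.eventually (by simp)
  have hd : ∀ {f : Rn m → ℝ} {x : Rn m}, ContDiffAt ℝ 2 f x → DifferentiableAt ℝ f x :=
    fun h => h.differentiableAt (by norm_num)
  have hdd : ∀ {f : Rn m → ℝ} {x : Rn m} (i : Fin m), ContDiffAt ℝ 2 f x →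
      DifferentiableAt ℝ (pd i f) x :=
    fun i h => (contDiffAt_pd h (l := 1) (by norm_num) i).differentiableAt (by norm_num)
  have e1 : ∀ k, pd k (fun x => f x * f x + g x * g x) =ᶠ[𝓝 y]
      fun x => 2 * (f x * pd k f x + g x * pd k g x) := by
    intro k
    filter_upwards [hf', hg'] with x h1 h2
    have : pd k (fun x => f x * f x + g x * g x) x
        = pd k (fun x => f x * f x) x + pd k (fun x => g x * g x) x := by
      have := pd_add_mul (u := fun x => f x * f x) (w := fun x => g x * g x) (δ := 1) (y := x)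
        ((hd h1).mul (hd h1)) ((hd h2).mul (hd h2)) k
      simpa using this
    rw [this, pd_mul (hd h1) (hd h1), pd_mul (hd h2) (hd h2)]
    ring
  have e2 : ∀ i j, pd i (pd j (fun x => f x * f x + g x * g x)) y
      = 2 * (f y * pd i (pd j f) y + g y * pd i (pd j g) y)
        + 2 * (pd i f y * pd j f y) + 2 * (pd i g y * pd j g y) := by
    intro i j
    rw [pd_congr (e1 j)]
    have h3 : pd i (fun x => f x * pd j f x + g x * pd j g x) y
        = pd i (fun x => f x * pd j f x) y + pd i (fun x => g x * pd j g x) y := by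
      have := pd_add_mul (u := fun x => f x * pd j f x) (w := fun x => g x * pd j g x) (δ := 1)
        (y := y) ((hd hf).mul (hdd j hf)) ((hd hg).mul (hdd j hg)) i
      simpa using this
    have h4 : pd i (fun x => 2 * (f x * pd j f x + g x * pd j g x)) y
        = 2 * pd i (fun x => f x * pd j f x + g x * pd j g x) y :=
      pd_const_mul (((hd hf).fun_mul (hdd j hf)).fun_add ((hd hg).fun_mul (hdd j hg))) 2 i
    rw [h4, h3, pd_mul (hd hf) (hdd j hf), pd_mul (hd hg) (hdd j hg)]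
    ring
  have e3 : ∀ i j, (G y)⁻¹ i j * hess G (fun x => f x * f x + g x * g x) i j y
      = 2 * f y * ((G y)⁻¹ i j * hess G f i j y) + 2 * g y * ((G y)⁻¹ i j * hess G g i j y)
        + 2 * ((G y)⁻¹ i j * (pd i f y * pd j f y))
        + 2 * ((G y)⁻¹ i j * (pd i g y * pd j g y)) := by
    intro i j
    unfold hess
    rw [e2]
    have h5 : ∑ k, christoffel G k i j y * pd k (fun x => f x * f x + g x * g x) y
        = 2 * f y * ∑ k, christoffel G k i j y * pd k f y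
          + 2 * g y * ∑ k, christoffel G k i j y * pd k g y := by
      rw [Finset.mul_sum, Finset.mul_sum, ← Finset.sum_add_distrib]
      refine Finset.sum_congr rfl fun k _ => ?_
      rw [(e1 k).self_of_nhds]
      ring
    rw [h5]
    ring
  unfold lap at *
  simp only [e3, Finset.sum_add_distrib, ← Finset.mul_sum]
  rw [h1, h2]
  ring

lemma quad_nonneg {m : ℕ} {A : Matrix (Fin m) (Fin m) ℝ} (hA : A.PosDef) (x : Fin m → ℝ) :
    0 ≤ ∑ i, ∑ j, A i j * (x i * x j) := by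
  have h := hA.posSemidef.dotProduct_mulVec_nonneg x
  simp only [dotProduct, Matrix.mulVec, star_trivial, Finset.mul_sum] at h
  refine le_of_le_of_eq h ?_
  refine Finset.sum_congr rfl fun i _ => Finset.sum_congr rfl fun j _ => ?_
  ring

lemma eq_zero_of_quad_eq_zero {m : ℕ} {A : Matrix (Fin m) (Fin m) ℝ} (hA : A.PosDef)
    (x : Fin m → ℝ) (h0 : ∑ i, ∑ j, A i j * (x i * x j) = 0) : x = 0 := by
  by_contra hx
  have h := hA.dotProduct_mulVec_pos hx
  simp only [dotProduct, Matrix.mulVec, star_trivial, Finset.mul_sum] at h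
  have : ∑ i, ∑ j, x i * (A i j * x j) = ∑ i, ∑ j, A i j * (x i * x j) :=
    Finset.sum_congr rfl fun i _ => Finset.sum_congr rfl fun j _ => by ring
  rw [this, h0] at h
  exact lt_irrefl _ h

section maps

variable {m : ℕ} {M : Type*} [TopologicalSpace M] [ChartedSpace (Rn m) M] [IsManifold (𝓡 m) ∞ M]
  {g : RMetric m M} {φ : M → Ω4}

/-- The coordinate expression of a map to `N`. -/
def cmap (φ : M → Ω4) (e : OpenPartialHomeomorph M (Rn m)) (y : Rn m) : Rn 4 := (φ (e.symm y)).1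

omit [ChartedSpace (Rn m) M] [IsManifold (𝓡 m) ∞ M] in
lemma cmap_mem (φ : M → Ω4) (e : OpenPartialHomeomorph M (Rn m)) (y : Rn m) :
    cmap φ e y ∈ Ω4 := (φ (e.symm y)).2

lemma cmap_contDiffOn (hφ : IsHarmonicMap g hN φ) {e : OpenPartialHomeomorph M (Rn m)}
    (he : e ∈ atlas (Rn m) M) : ContDiffOn ℝ ∞ (cmap φ e) e.target := by
  have h1 : ContMDiffOn (𝓡 m) (𝓡 m) ∞ e.symm e.target :=
    contMDiffOn_symm_of_mem_maximalAtlas (IsManifold.subset_maximalAtlas he)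
  have h2 := ((val_contMDiff Ω4).comp hφ.smooth).comp_contMDiffOn h1
  rw [contMDiffOn_iff_contDiffOn] at h2
  exact h2

lemma cmap_tension (hφ : IsHarmonicMap g hN φ) {e : OpenPartialHomeomorph M (Rn m)}
    (he : e ∈ atlas (Rn m) M) {e' : OpenPartialHomeomorph Ω4 (Rn 4)} (he' : e' ∈ atlas (Rn 4) Ω4)
    {y : Rn m} (hy : y ∈ e.target) (a : Fin 4) :
    tension (gram g e) (gram hN e') (cmap φ e) a y = 0 := by
  obtain ⟨h1, h2, h3⟩ := chart_coe Ω4 he'
  have := hφ.tension_eq_zero e he e' he' (e.symm y) (e.map_target hy) (by rw [h2]; trivial) a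
  rw [e.right_inv hy, h1] at this
  exact this

lemma lap_Psi_cmap (hφ : IsHarmonicMap g hN φ) {e : OpenPartialHomeomorph M (Rn m)}
    (he : e ∈ atlas (Rn m) M) {P1 : Rn 4} {y : Rn m} (hy : y ∈ e.target)
    (hyP : cmap φ e y ∈ fdom P1) (s : Fin 4) :
    lap (gram g e) (fun x => Psi P1 s (cmap φ e x)) y = 0 := by
  have he' : chartAt (Rn 4) (φ (e.symm y)) ∈ atlas (Rn 4) Ω4 := chart_mem_atlas _ _
  have hc : ContDiffAt ℝ ∞ (cmap φ e) y :=
    (cmap_contDiffOn hφ he).contDiffAt (e.open_target.mem_nhds hy)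
  exact lap_comp_of_tension_eq_zero (H := gram hN (chartAt (Rn 4) (φ (e.symm y))))
    ((contDiffAt_Psi hyP s).of_le ENat.LEInfty.out) (hc.of_le ENat.LEInfty.out)
    (fun a => cmap_tension hφ he he' hy a) (fun b c => hess_Psi he' hyP s b c)

/-- The part of the chart at `p1` on which the flat coordinates around `φ p1` are defined. -/
def goodU (φ : M → Ω4) (p1 : M) : Set (Rn m) :=
  (chartAt (Rn m) p1).target ∩ cmap φ (chartAt (Rn m) p1) ⁻¹' fdom (φ p1).1

lemma goodU_isOpen (hφ : IsHarmonicMap g hN φ) (p1 : M) : IsOpen (goodU (m := m) φ p1) :=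
  (cmap_contDiffOn hφ (chart_mem_atlas _ p1)).continuousOn.isOpen_inter_preimage
    (chartAt (Rn m) p1).open_target (fdom_isOpen _)

omit [IsManifold (𝓡 m) ∞ M] in
lemma cmap_self (φ : M → Ω4) (p1 : M) :
    cmap φ (chartAt (Rn m) p1) (chartAt (Rn m) p1 p1) = (φ p1).1 := by
  unfold cmap
  rw [(chartAt (Rn m) p1).left_inv (mem_chart_source _ p1)]

omit [IsManifold (𝓡 m) ∞ M] in
lemma mem_goodU (φ : M → Ω4) (p1 : M) : chartAt (Rn m) p1 p1 ∈ goodU (m := m) φ p1 := by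
  refine ⟨mem_chart_target _ p1, ?_⟩
  rw [mem_preimage, cmap_self]
  exact mem_fdom_self (φ p1).2

lemma contDiffAt_Psi_cmap (hφ : IsHarmonicMap g hN φ) {p1 : M} {y : Rn m}
    (hy : y ∈ goodU (m := m) φ p1) (s : Fin 4) :
    ContDiffAt ℝ 2 (fun x => Psi (φ p1).1 s (cmap φ (chartAt (Rn m) p1) x)) y := by
  have hc : ContDiffAt ℝ ∞ (cmap φ (chartAt (Rn m) p1)) y :=
    (cmap_contDiffOn hφ (chart_mem_atlas _ p1)).contDiffAt
      ((chartAt (Rn m) p1).open_target.mem_nhds hy.1)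
  exact ((contDiffAt_Psi hy.2 s).comp y hc).of_le ENat.LEInfty.out

/-- A function which is locally subharmonic in the special charts is constant. -/
lemma const_of_local [T2Space M] [CompactSpace M] [ConnectedSpace M]
    (g : RMetric m M) (S : M → ℝ)
    (hS : ∀ p1 : M, ∃ (U : Set (Rn m)) (K : Rn m → ℝ), IsOpen U ∧ chartAt (Rn m) p1 p1 ∈ U ∧
      U ⊆ goodU (m := m) φ p1 ∧
      (∀ y ∈ U, S ((chartAt (Rn m) p1).symm y) = K y) ∧
      (∀ y ∈ U, ContDiffAt ℝ 2 K y ∧ 0 ≤ lap (gram g (chartAt (Rn m) p1)) K y)) :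
    ∀ p q, S p = S q := by
  apply const_of_subharmonic g
  intro p1
  obtain ⟨U, K, hUo, hpU, hUsub, hSK, hK⟩ := hS p1
  refine ⟨U, hUo, hpU, fun y hy => (hUsub hy).1, ?_, ?_⟩
  · intro y hy
    refine ContDiffWithinAt.congr ((hK y hy).1.contDiffWithinAt) (fun x hx => ?_) ?_
    · exact hSK x hx
    · exact hSK y hy
  · intro y hy
    have hev : (S ∘ (chartAt (Rn m) p1).symm) =ᶠ[𝓝 y] K := by
      filter_upwards [hUo.mem_nhds hy] with x hx
      exact hSK x hx
    rw [lap_congr hev]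
    exact (hK y hy).2

lemma re_Φ1 {P1 P : Rn 4} (hP : P ∈ fdom P1) :
    (Φ1 P1 P).re = Real.log ‖zL P‖ - Real.log ‖zL P1‖ := by
  obtain ⟨h1, h2⟩ := fdom_ne hP
  unfold Φ1
  rw [Complex.log_re, norm_div, Real.log_div (norm_ne_zero_iff.mpr h1) (norm_ne_zero_iff.mpr h2)]

lemma norm_z_const [T2Space M] [CompactSpace M] [ConnectedSpace M]
    (hφ : IsHarmonicMap g hN φ) (p q : M) : ‖zL (φ p).1‖ = ‖zL (φ q).1‖ := by
  have key := const_of_local (φ := φ) g (fun p => Real.log ‖zL (φ p).1‖) (fun p1 => by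
    refine ⟨goodU φ p1, fun y => Psi (φ p1).1 0 (cmap φ (chartAt (Rn m) p1) y)
      + Real.log ‖zL (φ p1).1‖, goodU_isOpen hφ p1, mem_goodU φ p1, subset_rfl, ?_, ?_⟩
    · intro y hy
      have h0 : Psi (φ p1).1 0 (cmap φ (chartAt (Rn m) p1) y)
          = Real.log ‖zL (cmap φ (chartAt (Rn m) p1) y)‖ - Real.log ‖zL (φ p1).1‖ := re_Φ1 hy.2
      change Real.log ‖zL (cmap φ (chartAt (Rn m) p1) y)‖
        = Psi (φ p1).1 0 (cmap φ (chartAt (Rn m) p1) y) + Real.log ‖zL (φ p1).1‖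
      rw [h0]
      ring
    · intro y hy
      refine ⟨(contDiffAt_Psi_cmap hφ hy 0).add contDiffAt_const, ?_⟩
      rw [lap_add_const, lap_Psi_cmap hφ (chart_mem_atlas _ p1) hy.1 hy.2])
  have h := key p q
  have hp : 0 < ‖zL (φ p).1‖ := norm_pos_iff.mpr (φ p).2
  have hq : 0 < ‖zL (φ q).1‖ := norm_pos_iff.mpr (φ q).2
  exact Real.log_injOn_pos hp hq h

lemma norm_Φ2 (P1 P : Rn 4) : ‖Φ2 P1 P‖ = ‖wL P‖ := by
  unfold Φ2
  rw [norm_mul, Complex.norm_exp]
  simp

lemma norm_w_const [T2Space M] [CompactSpace M] [ConnectedSpace M]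
    (hφ : IsHarmonicMap g hN φ) (p q : M) : ‖wL (φ p).1‖ ^ 2 = ‖wL (φ q).1‖ ^ 2 := by
  refine const_of_local (φ := φ) g (fun p => ‖wL (φ p).1‖ ^ 2) (fun p1 => ?_) p q
  refine ⟨goodU φ p1, fun y => Psi (φ p1).1 2 (cmap φ (chartAt (Rn m) p1) y)
      * Psi (φ p1).1 2 (cmap φ (chartAt (Rn m) p1) y)
      + Psi (φ p1).1 3 (cmap φ (chartAt (Rn m) p1) y)
      * Psi (φ p1).1 3 (cmap φ (chartAt (Rn m) p1) y), goodU_isOpen hφ p1, mem_goodU φ p1,
      subset_rfl, ?_, ?_⟩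
  · intro y hy
    have h1 := norm_Φ2 (φ p1).1 (cmap φ (chartAt (Rn m) p1) y)
    have h2 : ‖wL (cmap φ (chartAt (Rn m) p1) y)‖ ^ 2
        = (Φ2 (φ p1).1 (cmap φ (chartAt (Rn m) p1) y)).re
          * (Φ2 (φ p1).1 (cmap φ (chartAt (Rn m) p1) y)).re
          + (Φ2 (φ p1).1 (cmap φ (chartAt (Rn m) p1) y)).im
          * (Φ2 (φ p1).1 (cmap φ (chartAt (Rn m) p1) y)).im := by
      rw [← h1, ← Complex.normSq_eq_norm_sq, Complex.normSq_apply]
    exact h2
  · intro y hy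
    have h2 := contDiffAt_Psi_cmap hφ hy 2
    have h3 := contDiffAt_Psi_cmap hφ hy 3
    refine ⟨(h2.mul h2).add (h3.mul h3), ?_⟩
    rw [lap_sq_add_sq _ h2 h3 (lap_Psi_cmap hφ (chart_mem_atlas _ p1) hy.1 hy.2 2)
      (lap_Psi_cmap hφ (chart_mem_atlas _ p1) hy.1 hy.2 3)]
    have hpd := (gram_posDef g (chart_mem_atlas (Rn m) p1) hy.1).inv
    have q2 := quad_nonneg hpd
      (fun i => pd i (fun x => Psi (φ p1).1 2 (cmap φ (chartAt (Rn m) p1) x)) y)
    have q3 := quad_nonneg hpd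
      (fun i => pd i (fun x => Psi (φ p1).1 3 (cmap φ (chartAt (Rn m) p1) x)) y)
    linarith

lemma lap_const {m : ℕ} (G : Rn m → Matrix (Fin m) (Fin m) ℝ) (c : ℝ) (y : Rn m) :
    lap G (fun _ => c) y = 0 := by
  have h1 : ∀ (k : Fin m) (c : ℝ), pd k (fun _ : Rn m => c) = fun _ => 0 := by
    intro k c; funext x; unfold pd; simp
  unfold lap hess
  simp [h1]

lemma pd_Psi23_eq_zero [T2Space M] [CompactSpace M] [ConnectedSpace M]
    (hφ : IsHarmonicMap g hN φ) {p1 : M} {y : Rn m} (hy : y ∈ goodU (m := m) φ p1) (i : Fin m) :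
    pd i (fun x => Psi (φ p1).1 2 (cmap φ (chartAt (Rn m) p1) x)) y = 0 ∧
    pd i (fun x => Psi (φ p1).1 3 (cmap φ (chartAt (Rn m) p1) x)) y = 0 := by
  have h2 := contDiffAt_Psi_cmap hφ hy 2
  have h3 := contDiffAt_Psi_cmap hφ hy 3
  have hlap := lap_sq_add_sq (gram g (chartAt (Rn m) p1)) h2 h3
    (lap_Psi_cmap hφ (chart_mem_atlas _ p1) hy.1 hy.2 2)
    (lap_Psi_cmap hφ (chart_mem_atlas _ p1) hy.1 hy.2 3)
  have hev : (fun x => Psi (φ p1).1 2 (cmap φ (chartAt (Rn m) p1) x)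
      * Psi (φ p1).1 2 (cmap φ (chartAt (Rn m) p1) x)
      + Psi (φ p1).1 3 (cmap φ (chartAt (Rn m) p1) x)
      * Psi (φ p1).1 3 (cmap φ (chartAt (Rn m) p1) x)) = fun _ => ‖wL (φ p1).1‖ ^ 2 := by
    funext x
    have e1 : ‖wL (cmap φ (chartAt (Rn m) p1) x)‖ ^ 2
        = (Φ2 (φ p1).1 (cmap φ (chartAt (Rn m) p1) x)).re
          * (Φ2 (φ p1).1 (cmap φ (chartAt (Rn m) p1) x)).re
          + (Φ2 (φ p1).1 (cmap φ (chartAt (Rn m) p1) x)).im
          * (Φ2 (φ p1).1 (cmap φ (chartAt (Rn m) p1) x)).im := by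
      rw [← norm_Φ2 (φ p1).1, ← Complex.normSq_eq_norm_sq, Complex.normSq_apply]
    exact e1.symm.trans (norm_w_const hφ _ _)
  rw [hev, lap_const] at hlap
  have hpd := (gram_posDef g (chart_mem_atlas (Rn m) p1) hy.1).inv
  have q2 := quad_nonneg hpd
    (fun i => pd i (fun x => Psi (φ p1).1 2 (cmap φ (chartAt (Rn m) p1) x)) y)
  have q3 := quad_nonneg hpd
    (fun i => pd i (fun x => Psi (φ p1).1 3 (cmap φ (chartAt (Rn m) p1) x)) y)
  have z2 := eq_zero_of_quad_eq_zero hpd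
    (fun i => pd i (fun x => Psi (φ p1).1 2 (cmap φ (chartAt (Rn m) p1) x)) y) (by linarith)
  have z3 := eq_zero_of_quad_eq_zero hpd
    (fun i => pd i (fun x => Psi (φ p1).1 3 (cmap φ (chartAt (Rn m) p1) x)) y) (by linarith)
  exact ⟨congrFun z2 i, congrFun z3 i⟩

lemma fderiv_eq_zero_of_pd {m : ℕ} {f : Rn m → ℝ} {y : Rn m} (h : ∀ i, pd i f y = 0) :
    fderiv ℝ f y = 0 := by
  ext v
  rw [fderiv_eq_sum_pd]
  simp [h]

/-- Locally, a harmonic map to `N` runs in a leaf. -/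
lemma local_leaf [T2Space M] [CompactSpace M] [ConnectedSpace M]
    (hφ : IsHarmonicMap g hN φ) (p1 : M) :
    ∃ B : Set (Rn m), IsOpen B ∧ chartAt (Rn m) p1 p1 ∈ B ∧ B ⊆ goodU (m := m) φ p1 ∧
      ∀ y ∈ B,
        zL (cmap φ (chartAt (Rn m) p1) y)
          = exp ((Psi (φ p1).1 1 (cmap φ (chartAt (Rn m) p1) y) : ℝ) * I) * zL (φ p1).1 ∧
        wL (cmap φ (chartAt (Rn m) p1) y)
          = exp ((√2 : ℝ) * (Psi (φ p1).1 1 (cmap φ (chartAt (Rn m) p1) y) : ℝ) * I)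
            * wL (φ p1).1 := by
  obtain ⟨r, hr, hrsub⟩ := Metric.isOpen_iff.mp (goodU_isOpen hφ p1) _ (mem_goodU φ p1)
  set y1 := chartAt (Rn m) p1 p1 with hy1
  set P1 := (φ p1).1 with hP1
  refine ⟨ball y1 r, isOpen_ball, mem_ball_self hr, hrsub, fun y hy => ?_⟩
  have hgood := hrsub hy
  have hconst : ∀ s : Fin 4, (s = 2 ∨ s = 3) →
      Psi P1 s (cmap φ (chartAt (Rn m) p1) y) = Psi P1 s (cmap φ (chartAt (Rn m) p1) y1) := by
    intro s hs
    have hd : DifferentiableOn ℝ (fun x => Psi P1 s (cmap φ (chartAt (Rn m) p1) x)) (ball y1 r) :=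
      fun x hx => ((contDiffAt_Psi_cmap hφ (hrsub hx) s).differentiableAt
        (by norm_num)).differentiableWithinAt
    obtain ⟨a, ha⟩ := IsOpen.exists_is_const_of_fderiv_eq_zero isOpen_ball
      (convex_ball y1 r).isPreconnected hd (fun x hx => by
        apply fderiv_eq_zero_of_pd
        intro i
        rcases hs with rfl | rfl
        · exact (pd_Psi23_eq_zero hφ (hrsub hx) i).1
        · exact (pd_Psi23_eq_zero hφ (hrsub hx) i).2)
    rw [ha y hy, ha y1 (mem_ball_self hr)]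
  have hself : cmap φ (chartAt (Rn m) p1) y1 = P1 := cmap_self φ p1
  have hΦ1self : Φ1 P1 P1 = 0 := by
    unfold Φ1
    rw [div_self (φ p1).2, Complex.log_one]
  have hΦ2self : Φ2 P1 P1 = wL P1 := by
    unfold Φ2
    rw [hΦ1self]
    simp
  have hΦ2 : Φ2 P1 (cmap φ (chartAt (Rn m) p1) y) = wL P1 := by
    rw [← hΦ2self]
    apply Complex.ext
    · have := hconst 2 (Or.inl rfl)
      rw [hself] at this
      exact this
    · have := hconst 3 (Or.inr rfl)
      rw [hself] at this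
      exact this
  have hdom : cmap φ (chartAt (Rn m) p1) y ∈ fdom P1 := hgood.2
  have hne := fdom_ne hdom
  have hre : (Φ1 P1 (cmap φ (chartAt (Rn m) p1) y)).re = 0 := by
    rw [re_Φ1 hdom]
    have : ‖zL (cmap φ (chartAt (Rn m) p1) y)‖ = ‖zL P1‖ := norm_z_const hφ _ _
    rw [this, sub_self]
  constructor
  · have h1 : zL (cmap φ (chartAt (Rn m) p1) y) / zL P1
        = exp (Φ1 P1 (cmap φ (chartAt (Rn m) p1) y)) := by
      unfold Φ1
      rw [Complex.exp_log (div_ne_zero hne.1 hne.2)]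
    have h2 : Φ1 P1 (cmap φ (chartAt (Rn m) p1) y)
        = ((Psi P1 1 (cmap φ (chartAt (Rn m) p1) y) : ℝ) : ℂ) * I := by
      apply Complex.ext
      · rw [hre]; simp
      · simp [Psi]
    rw [← h2, ← h1, div_mul_cancel₀ _ hne.2]
  · have h3 : Φ2 P1 (cmap φ (chartAt (Rn m) p1) y)
        = exp (-((√2 : ℝ) * (Psi P1 1 (cmap φ (chartAt (Rn m) p1) y) : ℝ) * I))
          * wL (cmap φ (chartAt (Rn m) p1) y) := rfl
    rw [← hΦ2, h3, ← mul_assoc, ← Complex.exp_add]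
    simp

/-- `Q` lies on the leaf of `P` at parameter `t`. -/
def Leaf (P Q : Rn 4) (t : ℝ) : Prop :=
  zL Q = exp ((t : ℝ) * I) * zL P ∧ wL Q = exp ((√2 : ℝ) * (t : ℝ) * I) * wL P

lemma Leaf.refl (P : Rn 4) : Leaf P P 0 := by
  constructor <;> simp

lemma Leaf.trans {P Q R : Rn 4} {s t : ℝ} (h1 : Leaf P Q s) (h2 : Leaf Q R t) :
    Leaf P R (s + t) := by
  constructor
  · rw [h2.1, h1.1, ← mul_assoc, ← Complex.exp_add]
    congr 2
    push_cast
    ring
  · rw [h2.2, h1.2, ← mul_assoc, ← Complex.exp_add]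
    congr 2
    push_cast
    ring

lemma Leaf.symm {P Q : Rn 4} {t : ℝ} (h : Leaf P Q t) : Leaf Q P (-t) := by
  constructor
  · rw [h.1, ← mul_assoc, ← Complex.exp_add]
    push_cast
    simp
  · rw [h.2, ← mul_assoc, ← Complex.exp_add]
    push_cast
    simp

/-- The leaves are injectively immersed lines away from `w = 0`, since `√2` is irrational. -/
lemma Leaf.unique {P Q : Rn 4} {s t : ℝ} (hz : zL P ≠ 0) (hw : wL P ≠ 0) (h1 : Leaf P Q s)
    (h2 : Leaf P Q t) : s = t := by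
  have e1 : exp ((s : ℝ) * I) = exp ((t : ℝ) * I) := mul_right_cancel₀ hz (h1.1.symm.trans h2.1)
  have e2 : exp ((√2 : ℝ) * (s : ℝ) * I) = exp ((√2 : ℝ) * (t : ℝ) * I) :=
    mul_right_cancel₀ hw (h1.2.symm.trans h2.2)
  rw [Complex.exp_eq_exp_iff_exists_int] at e1 e2
  obtain ⟨a, ha⟩ := e1
  obtain ⟨b, hb⟩ := e2
  have ha' : s = t + a * (2 * Real.pi) := by
    have h3 : ((s : ℝ) : ℂ) * I = ((t + a * (2 * Real.pi) : ℝ) : ℂ) * I := by
      rw [ha]; push_cast; ring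
    have h4 := mul_right_cancel₀ I_ne_zero h3
    exact_mod_cast h4
  have hb' : √2 * s = √2 * t + b * (2 * Real.pi) := by
    have h3 : ((√2 * s : ℝ) : ℂ) * I = ((√2 * t + b * (2 * Real.pi) : ℝ) : ℂ) * I := by
      have h5 : ((√2 * s : ℝ) : ℂ) * I = ((√2 : ℝ) : ℂ) * (s : ℝ) * I := by push_cast; ring
      rw [h5, hb]; push_cast; ring
    have h4 := mul_right_cancel₀ I_ne_zero h3
    exact_mod_cast h4
  have hpi : (2 * Real.pi) ≠ 0 := by positivity
  have hab : √2 * a = b := by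
    have h6 : √2 * a * (2 * Real.pi) = b * (2 * Real.pi) := by
      have : √2 * (s - t) = √2 * (a * (2 * Real.pi)) := by rw [ha']; ring
      linarith
    exact mul_right_cancel₀ hpi h6
  by_cases ha0 : a = 0
  · rw [ha', ha0]; simp
  · exfalso
    have hirr : Irrational (√2 * a) := irrational_sqrt_two.mul_intCast ha0
    rw [hab] at hirr
    exact hirr ⟨b, by simp⟩

/-- Harmonic maps from closed manifolds to `N` whose image avoids `w = 0` are constant. -/
theorem harmonic_const [T2Space M] [CompactSpace M] [ConnectedSpace M]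
    (hφ : IsHarmonicMap g hN φ) (hw : ∀ p, wL (φ p).1 ≠ 0) (p q : M) : φ p = φ q := by
  -- local leaf statement on the manifold
  have hloc : ∀ p1 : M, ∃ O ∈ 𝓝 p1, ∀ q ∈ O, ∃ t, Leaf (φ p1).1 (φ q).1 t := by
    intro p1
    obtain ⟨B, hBo, hpB, hBsub, hB⟩ := local_leaf hφ p1
    refine ⟨(chartAt (Rn m) p1) ⁻¹' B ∩ (chartAt (Rn m) p1).source, ?_, ?_⟩
    · exact inter_mem (((chartAt (Rn m) p1).continuousAt (mem_chart_source _ p1)).preimage_mem_nhds
        (hBo.mem_nhds hpB)) ((chartAt (Rn m) p1).open_source.mem_nhds (mem_chart_source _ p1))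
    · rintro q ⟨hq1, hq2⟩
      have h1 := hB _ hq1
      have h2 : cmap φ (chartAt (Rn m) p1) (chartAt (Rn m) p1 q) = (φ q).1 := by
        unfold cmap
        rw [(chartAt (Rn m) p1).left_inv hq2]
      rw [h2] at h1
      exact ⟨_, h1⟩
  set p0 := p with hp0
  set A : Set M := {q | ∃ t, Leaf (φ p0).1 (φ q).1 t} with hA
  have hAopen : IsOpen A := by
    rw [isOpen_iff_mem_nhds]
    rintro p1 ⟨t1, ht1⟩
    obtain ⟨O, hO, hOq⟩ := hloc p1
    filter_upwards [hO] with q hq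
    obtain ⟨t, ht⟩ := hOq q hq
    exact ⟨t1 + t, ht1.trans ht⟩
  have hAclosed : IsClosed A := by
    rw [← isOpen_compl_iff, isOpen_iff_mem_nhds]
    intro p1 hp1
    obtain ⟨O, hO, hOq⟩ := hloc p1
    filter_upwards [hO] with q hq
    rintro ⟨s, hs⟩
    obtain ⟨t, ht⟩ := hOq q hq
    exact hp1 ⟨s + -t, hs.trans ht.symm⟩
  have hAuniv : A = univ := IsClopen.eq_univ ⟨hAclosed, hAopen⟩ ⟨p0, 0, Leaf.refl _⟩
  have hall : ∀ q, ∃ t, Leaf (φ p0).1 (φ q).1 t := fun q => by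
    have : q ∈ A := by rw [hAuniv]; trivial
    exact this
  choose T hT using hall
  have hTconst : ∀ p q, T p = T q := by
    refine const_of_local (φ := φ) g T (fun p1 => ?_)
    obtain ⟨B, hBo, hpB, hBsub, hB⟩ := local_leaf hφ p1
    refine ⟨B, fun y => Psi (φ p1).1 1 (cmap φ (chartAt (Rn m) p1) y) + T p1, hBo, hpB, hBsub,
      ?_, ?_⟩
    · intro y hy
      have h1 : Leaf (φ p0).1 (φ ((chartAt (Rn m) p1).symm y)).1
          (T p1 + Psi (φ p1).1 1 (cmap φ (chartAt (Rn m) p1) y)) :=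
        (hT p1).trans (hB y hy)
      have h2 := hT ((chartAt (Rn m) p1).symm y)
      rw [Leaf.unique (φ p0).2 (hw p0) h2 h1, add_comm]
    · intro y hy
      refine ⟨(contDiffAt_Psi_cmap hφ (hBsub hy) 1).add contDiffAt_const, ?_⟩
      rw [lap_add_const, lap_Psi_cmap hφ (chart_mem_atlas _ p1) (hBsub hy).1 (hBsub hy).2]
  have hT0 : T p0 = 0 := Leaf.unique (φ p0).2 (hw p0) (hT p0) (Leaf.refl _)
  have hTq : T q = 0 := (hTconst q p0).trans hT0
  have hleaf := hT q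
  rw [hTq] at hleaf
  apply Subtype.ext
  apply ext_zw
  · rw [hleaf.1]; simp
  · rw [hleaf.2]; simp

end maps

end

end Pool.Agent.H29
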